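import Mathlib

namespace Pool.Agent.Lib.MP_152d63_al

universe v

lemma w_semisimple (A : Type v) [Ring A] [Algebra ℂ A] [FiniteDimensional ℂ A]
    (τ : A →ₗ[ℂ] ℂ) (hnil : ∀ a : A, IsNilpotent a → τ a = 0)
    (hnd : ∀ a : A, (∀ b : A, τ (a * b) = 0) → a = 0) : IsSemisimpleRing A := by
  have : IsArtinianRing A := IsArtinianRing.of_finite ℂ A
  rw [IsArtinianRing.isSemisimpleRing_iff_jacobson, eq_bot_iff]
  intro a ha
  obtain ⟨n, hn⟩ : IsNilpotent (Ring.jacobson A) := IsSemiprimaryRing.isNilpotent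
  refine hnd a fun b => hnil _ ⟨n, ?_⟩
  have h1 := Ideal.pow_mem_pow (Ideal.mul_mem_right b _ ha) n
  rw [hn] at h1
  exact h1

lemma w_trace {m : ℕ} (d : Fin m → ℕ) (u v : Π i, Matrix (Fin (d i)) (Fin (d i)) ℂ) :
    LinearMap.trace ℂ _ (LinearMap.mulLeft ℂ u ∘ₗ LinearMap.mulRight ℂ v)
      = ∑ Y, (u Y).trace * (v Y).trace := by
  rw [LinearMap.trace_eq_matrix_trace ℂ
    (Pi.basis (fun i => Matrix.stdBasis ℂ (Fin (d i)) (Fin (d i)))), Matrix.trace,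
    Fintype.sum_sigma]
  refine Finset.sum_congr rfl fun Y _ => ?_
  rw [Matrix.trace, Matrix.trace, Finset.sum_mul_sum, Fintype.sum_prod_type]
  refine Finset.sum_congr rfl fun j _ => Finset.sum_congr rfl fun k _ => ?_
  rw [Matrix.diag_apply, LinearMap.toMatrix_apply, Pi.basis_repr, Pi.basis_apply,
    Matrix.stdBasis_eq_single]
  have h1 : ∀ M : Matrix (Fin (d Y)) (Fin (d Y)) ℂ,
      (Matrix.stdBasis ℂ (Fin (d Y)) (Fin (d Y))).repr M (j, k) = M j k := fun M => by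
    simp [Matrix.stdBasis]
  rw [h1]
  simp [Matrix.mul_apply, Matrix.single_apply, ite_and]

lemma w_idem {n : ℕ} (p : Matrix (Fin n) (Fin n) ℂ) (hp : p * p = p) : ∃ k : ℕ, p.trace = k := by
  have h1 : IsIdempotentElem (Matrix.toLin' p) := by
    unfold IsIdempotentElem
    rw [Module.End.mul_eq_comp, ← Matrix.toLin'_mul, hp]
  exact ⟨_, by rw [← Matrix.trace_toLin'_eq, (LinearMap.IsIdempotentElem.isProj_range _ h1).trace]⟩

lemma w_central {m : ℕ} (d : Fin m → ℕ) (c : Π i, Matrix (Fin (d i)) (Fin (d i)) ℂ)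
    (hc : ∀ a, c * a = a * c) (Y : Fin m) : ∃ s : ℂ, c Y = s • 1 := by
  obtain ⟨s, hs⟩ := Matrix.mem_range_scalar_of_commute_single (M := c Y) (fun i j _ => by
    have := congrFun (hc (Pi.single Y (Matrix.single i j 1))) Y
    simp only [Pi.mul_apply, Pi.single_eq_same] at this
    exact this.symm)
  exact ⟨s, by rw [← hs, Matrix.scalar_apply, Matrix.smul_one_eq_diagonal]⟩

/-- TASK W (file Blocks.lean). -/
theorem exists_blocks (A : Type v) [Ring A] [Algebra ℂ A] [FiniteDimensional ℂ A]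
    (τ : A →ₗ[ℂ] ℂ) (hnil : ∀ a : A, IsNilpotent a → τ a = 0)
    (hnd : ∀ a : A, (∀ b : A, τ (a * b) = 0) → a = 0) :
    ∃ (m : ℕ) (tr : Fin m → A →ₗ[ℂ] ℂ) (z : Fin m → A),
      (∀ u v : A, LinearMap.trace ℂ A (LinearMap.mulLeft ℂ u ∘ₗ LinearMap.mulRight ℂ v)
        = ∑ Y, tr Y u * tr Y v) ∧
      (∀ p : A, p * p = p → ∀ Y, ∃ n : ℕ, tr Y p = n) ∧
      (∀ c : A, (∀ a, c * a = a * c) → ∀ Y, ∃ s : ℂ, c * z Y = s • z Y ∧
        ∀ u, tr Y (c * u) = s * tr Y u) ∧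
      (∀ Y, z Y * z Y = z Y ∧ tr Y (z Y) ≠ 0 ∧ ∀ Y', Y' ≠ Y → tr Y' (z Y) = 0) ∧
      (∀ c : A, (∀ a, c * a = a * c) → (∀ Y, c * z Y ≠ 0) → IsUnit c) := by
  have := w_semisimple A τ hnil hnd
  obtain ⟨m, d, hd, ⟨e⟩⟩ := IsSemisimpleRing.exists_algEquiv_pi_matrix_of_isAlgClosed ℂ A
  have hcen : ∀ c : A, (∀ a, c * a = a * c) → ∀ Y, ∃ s : ℂ, e c Y = s • 1 := fun c hc =>
    w_central d (e c) (fun a => by
      obtain ⟨b, rfl⟩ := e.surjective a
      rw [← map_mul, hc, map_mul])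
  have hz : ∀ (c : A) (s : ℂ) Y, e c Y = s • 1 →
      c * e.symm (Pi.single Y 1) = s • e.symm (Pi.single Y 1) := fun c s Y hs => by
    apply e.injective
    rw [map_mul, map_smul, e.apply_symm_apply]
    funext Y'
    by_cases h : Y' = Y
    · subst h; simp [hs]
    · simp [h]
  refine ⟨m, fun Y => Matrix.traceLinearMap _ ℂ ℂ ∘ₗ LinearMap.proj Y ∘ₗ e.toLinearMap,
    fun Y => e.symm (Pi.single Y 1), fun u v => ?_, fun p hp Y => ?_, fun c hc Y => ?_,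
    fun Y => ⟨?_, ?_, fun Y' h => ?_⟩, fun c hc hne => ?_⟩
  · rw [← LinearMap.trace_conj' _ e.toLinearEquiv]
    refine Eq.trans ?_ (w_trace d (e u) (e v))
    congr 1
    refine LinearMap.ext fun a => ?_
    obtain ⟨b, rfl⟩ := e.surjective a
    simp [LinearEquiv.conj_apply]
  · exact w_idem (e p Y) (by rw [← Pi.mul_apply, ← map_mul, hp])
  · obtain ⟨s, hs⟩ := hcen c hc Y
    exact ⟨s, hz c s Y hs, fun u => by simp [hs]⟩
  · rw [← map_mul, ← Pi.single_mul, mul_one]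
  · simpa using (hd Y).out
  · simp [h]
  · choose s hs using hcen c hc
    have h0 : ∀ Y, s Y ≠ 0 := fun Y h => hne Y (by rw [hz c _ Y (hs Y), h, zero_smul])
    have h1 : IsUnit (e c) := Pi.isUnit_iff.2 fun Y => by
      rw [hs Y, ← Algebra.algebraMap_eq_smul_one]
      exact (IsUnit.mk0 _ (h0 Y)).map _
    simpa using h1.map e.symm

end Pool.Agent.Lib.MP_152d63_al
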