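import Pool.Agent.Lib.MP_152d63_al.Star

/-! Morphisms into free half braidings and the trace of the twist. -/

namespace Pool.Agent.Lib.MP_152d63_al

open CategoryTheory MonoidalCategory Limits ExactPairing

universe v u

set_option linter.unusedSectionVars false

variable {C : Type u} [Category.{v} C] [Abelian C] [Linear ℂ C] [MonoidalCategory C]
  [MonoidalPreadditive C] [MonoidalLinear ℂ C] [RigidCategory C] [Ctx C]

open Ctx

/-- The morphism into the free object attached to a tube. -/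
noncomputable def br {W V : C} (K : C) : (W ⊗ K ⟶ K ⊗ V) →ₗ[ℂ] (W ⟶ T V) :=
  pt K ∘ₗ Linear.rightComp ℂ _ (dd V K)

lemma br_apply {W V : C} (K : C) (g : W ⊗ K ⟶ K ⊗ V) : br K g = pt K (g ≫ dd V K) := rfl

/-- The components of a morphism into the free object. -/
noncomputable def cp {W V : C} (k : Ix C) : (W ⟶ T V) →ₗ[ℂ] (W ⊗ S k ⟶ S k ⊗ V) where
  toFun φ := (φ ≫ Tπ V k) ▷ S k ≫ (α_ _ _ _).hom ≫ (S k ⊗ V) ◁ ε_ (S k) (dual (S k)) ≫ (ρ_ _).hom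
  map_add' f g := by simp [MonoidalPreadditive.add_whiskerRight]
  map_smul' c f := by simp

lemma cp_apply {W V : C} (k : Ix C) (φ : W ⟶ T V) : cp k φ
    = (tensorRightHomEquiv W (S k) (dual (S k)) (S k ⊗ V)).symm (φ ≫ Tπ V k) := rfl

lemma br_S {W V : C} (k : Ix C) (g : W ⊗ S k ⟶ S k ⊗ V) :
    br (S k) g = tensorRightHomEquiv W (S k) (dual (S k)) (S k ⊗ V) g ≫ Tι V k := by
  change _ = ((ρ_ _).inv ≫ _ ◁ η_ _ _ ≫ (α_ _ _ _).inv ≫ g ▷ _) ≫ _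
  rw [br_apply, pt_def, dd_S, d0]
  calc _ = 𝟙 _ ⊗≫ W ◁ η_ (S k) (dual (S k)) ⊗≫ g ▷ dual (S k) ⊗≫
        (S k ⊗ V) ◁ co (S k) ▷ dual (S k) ⊗≫
        (Tι V k ▷ (S k ⊗ dual (S k)) ≫ T V ◁ ev (S k)) ⊗≫ 𝟙 _ := by monoidal
    _ = 𝟙 _ ⊗≫ W ◁ η_ (S k) (dual (S k)) ⊗≫ g ▷ dual (S k) ⊗≫
        (S k ⊗ V) ◁ (co (S k) ▷ dual (S k) ⊗≫ dual (S k) ◁ ev (S k)) ⊗≫ Tι V k := by
        rw [← whisker_exchange]; monoidal
    _ = _ := by rw [zag]; monoidal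

lemma cp_br {W V : C} (k : Ix C) (g : W ⊗ S k ⟶ S k ⊗ V) : cp k (br (S k) g) = g := by
  rw [cp_apply, br_S, Category.assoc, Tι_π, Category.comp_id, Equiv.symm_apply_apply]

lemma cp_br_ne {W V : C} {k l : Ix C} (h : l ≠ k) (g : W ⊗ S l ⟶ S l ⊗ V) :
    cp k (br (S l) g) = 0 := by
  rw [cp_apply, br_S, Category.assoc, Tι_π_ne V h, comp_zero]
  simp [tensorRightHomEquiv]

lemma sum_br_cp {W V : C} (φ : W ⟶ T V) : ∑ k, br (S k) (cp k φ) = φ := by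
  conv_rhs => rw [← Category.comp_id φ, ← T_total, Preadditive.comp_sum]
  refine Finset.sum_congr rfl fun k _ => ?_
  rw [cp_apply, br_S, Equiv.apply_symm_apply, Category.assoc]

lemma br_slide {W V K L : C} (h : K ⟶ L) (g : W ⊗ L ⟶ K ⊗ V) :
    br K (W ◁ h ≫ g) = br L (g ≫ h ▷ V) := by
  rw [br_apply, br_apply, Category.assoc, pt_slide, Category.assoc, Category.assoc, dd_nat]

lemma br_lift {W V K Y : C} (A : HB Y) (g : W ⊗ K ⟶ K ⊗ V) (φ : V ⟶ Y) :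
    br K g ≫ lift A φ = pt K (g ≫ K ◁ φ ≫ A.γ K) := by
  rw [br_apply, ← pt_post, Category.assoc, dd_lift]

/-- Stacking of tubes. -/
noncomputable def st {A B W : C} (c : A ⊗ W ⟶ W ⊗ B) (K V : C) :
    (B ⊗ K ⟶ K ⊗ V) →ₗ[ℂ] (A ⊗ (W ⊗ K) ⟶ (W ⊗ K) ⊗ V) where
  toFun g := (α_ _ _ _).inv ≫ c ▷ K ≫ (α_ _ _ _).hom ≫ W ◁ g ≫ (α_ _ _ _).inv
  map_add' f g := by simp
  map_smul' c f := by simp

lemma st_apply {A B W : C} (c : A ⊗ W ⟶ W ⊗ B) (K V : C) (g : B ⊗ K ⟶ K ⊗ V) :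
    st c K V g = (α_ _ _ _).inv ≫ c ▷ K ≫ (α_ _ _ _).hom ≫ W ◁ g ≫ (α_ _ _ _).inv := rfl

lemma br_br {A B W K V : C} (c : A ⊗ W ⟶ W ⊗ B) (g : B ⊗ K ⟶ K ⊗ V) :
    br W c ≫ lift (free V) (br K g) = br (W ⊗ K) (st c K V g) := by
  rw [br_lift, br_apply, br_apply, pt_tensor, whiskerLeft_pt, ← pt_post, ← pt_pre, st_apply]
  refine congrArg _ (congrArg _ ?_)
  calc _ = c ▷ K ⊗≫ W ◁ g ≫ (W ◁ dd V K ≫ (α_ _ _ _).inv ≫ (free V).γ W ▷ K) := by monoidal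
    _ = _ := by rw [free_spec]; monoidal

/-- The operator on morphisms into the free object attached to a tube. -/
noncomputable def Op {A W : C} (c : A ⊗ W ⟶ W ⊗ A) (V : C) : (A ⟶ T V) →ₗ[ℂ] (A ⟶ T V) :=
  Linear.leftComp ℂ _ (br W c) ∘ₗ lift (free V)

lemma Op_apply {A W : C} (c : A ⊗ W ⟶ W ⊗ A) (V : C) (φ : A ⟶ T V) :
    Op c V φ = br W c ≫ lift (free V) φ := rfl

lemma trace_Op {A W : C} (c : A ⊗ W ⟶ W ⊗ A) (V : C) :
    LinearMap.trace ℂ _ (Op c V)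
      = ∑ k, LinearMap.trace ℂ _ (cp k ∘ₗ br (W ⊗ S k) ∘ₗ st c (S k) V) := by
  have h : Op c V = ∑ k, (br (W ⊗ S k) ∘ₗ st c (S k) V) ∘ₗ cp k := by
    ext φ
    rw [LinearMap.sum_apply]
    conv_lhs => rw [← sum_br_cp φ, map_sum]
    refine Finset.sum_congr rfl fun k _ => ?_
    rw [Op_apply, br_br]
    rfl
  rw [h, map_sum]
  refine Finset.sum_congr rfl fun k _ => ?_
  rw [LinearMap.trace_comp_comm']

lemma trace_Op_res {A W : C} (c : A ⊗ W ⟶ W ⊗ A) (V : C) (k : Ix C) {m : ℕ} {l : Fin m → Ix C}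
    (p : ∀ s, W ⊗ S k ⟶ S (l s)) (q : ∀ s, S (l s) ⟶ W ⊗ S k)
    (h : ∑ s, p s ≫ q s = 𝟙 _) :
    cp k ∘ₗ br (W ⊗ S k) ∘ₗ st c (S k) V = ∑ s, cp k ∘ₗ br (S (l s)) ∘ₗ
      Linear.leftComp ℂ _ (A ◁ q s) ∘ₗ Linear.rightComp ℂ _ (p s ▷ V) ∘ₗ st c (S k) V := by
  ext g
  rw [LinearMap.sum_apply]
  simp only [LinearMap.comp_apply, Linear.leftComp_apply, Linear.rightComp_apply]
  rw [← map_sum]
  refine congrArg _ ?_
  conv_lhs => rw [← Category.comp_id (st c (S k) V g), ← id_whiskerRight, ← h, sum_whiskerRight,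
    Preadditive.comp_sum, map_sum]
  refine Finset.sum_congr rfl fun s _ => ?_
  rw [br_slide, comp_whiskerRight, Category.assoc]

/-- The trivial tube. -/
noncomputable def c0 (W : C) : 𝟙_ C ⊗ W ⟶ W ⊗ 𝟙_ C := (λ_ W).hom ≫ (ρ_ W).inv

lemma trace_twist (W V : C) :
    LinearMap.trace ℂ _ (Op (𝟙 (W ⊗ W)) V) = LinearMap.trace ℂ _ (Op (c0 W) V) := by
  rw [trace_Op, trace_Op]
  refine Finset.sum_congr rfl fun k _ => ?_
  obtain ⟨m, l, p, q, h⟩ := res (W ⊗ S k)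
  rw [trace_Op_res _ V k p q h, trace_Op_res _ V k p q h, map_sum, map_sum]
  refine Finset.sum_congr rfl fun s _ => ?_
  have key : ∀ (l : Ix C) (p : W ⊗ S k ⟶ S l) (q : S l ⟶ W ⊗ S k),
      LinearMap.trace ℂ _ (cp k ∘ₗ br (S l) ∘ₗ Linear.leftComp ℂ _ (W ◁ q) ∘ₗ
        Linear.rightComp ℂ _ (p ▷ V) ∘ₗ st (𝟙 (W ⊗ W)) (S k) V) =
      LinearMap.trace ℂ _ (cp k ∘ₗ br (S l) ∘ₗ Linear.leftComp ℂ _ (𝟙_ C ◁ q) ∘ₗ
        Linear.rightComp ℂ _ (p ▷ V) ∘ₗ st (c0 W) (S k) V) := by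
    intro l p q
    by_cases hl : l = k
    · subst hl
      let A₁ : (W ⊗ S l ⟶ S l ⊗ V) →ₗ[ℂ] (𝟙_ C ⊗ S l ⟶ S l ⊗ V) :=
        Linear.leftComp ℂ _ ((λ_ _).hom ≫ q)
      let B₁ : (𝟙_ C ⊗ S l ⟶ S l ⊗ V) →ₗ[ℂ] (W ⊗ S l ⟶ S l ⊗ V) :=
        { toFun := fun g => W ◁ ((λ_ _).inv ≫ g) ≫ (α_ _ _ _).inv ≫ p ▷ V
          map_add' := by intro f g; simp
          map_smul' := by intro c f; simp }
      have e1 : cp l ∘ₗ br (S l) ∘ₗ Linear.leftComp ℂ _ (W ◁ q) ∘ₗ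
          Linear.rightComp ℂ _ (p ▷ V) ∘ₗ st (𝟙 (W ⊗ W)) (S l) V = B₁ ∘ₗ A₁ := by
        ext g
        simp only [LinearMap.comp_apply, cp_br, Linear.leftComp_apply, Linear.rightComp_apply,
          st_apply, A₁, B₁, LinearMap.coe_mk, AddHom.coe_mk]
        monoidal
      have e2 : cp l ∘ₗ br (S l) ∘ₗ Linear.leftComp ℂ _ (𝟙_ C ◁ q) ∘ₗ
          Linear.rightComp ℂ _ (p ▷ V) ∘ₗ st (c0 W) (S l) V = A₁ ∘ₗ B₁ := by
        ext g
        simp only [LinearMap.comp_apply, cp_br, Linear.leftComp_apply, Linear.rightComp_apply,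
          st_apply, A₁, B₁, LinearMap.coe_mk, AddHom.coe_mk, c0]
        monoidal
      rw [e1, e2, LinearMap.trace_comp_comm']
    · have e1 : cp k ∘ₗ br (S l) ∘ₗ Linear.leftComp ℂ _ (W ◁ q) ∘ₗ
          Linear.rightComp ℂ _ (p ▷ V) ∘ₗ st (𝟙 (W ⊗ W)) (S k) V = 0 := by
        ext g
        simp only [LinearMap.comp_apply, cp_br_ne hl, LinearMap.zero_apply]
      have e2 : cp k ∘ₗ br (S l) ∘ₗ Linear.leftComp ℂ _ (𝟙_ C ◁ q) ∘ₗ
          Linear.rightComp ℂ _ (p ▷ V) ∘ₗ st (c0 W) (S k) V = 0 := by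
        ext g
        simp only [LinearMap.comp_apply, cp_br_ne hl, LinearMap.zero_apply]
      rw [e1, e2, map_zero, map_zero]
  exact key _ _ _

lemma Op_id (W V : C) (φ : W ⟶ T V) : Op (𝟙 (W ⊗ W)) V φ = φ ≫ (free V).θ := by
  rw [Op_apply, br_lift, HB.comp_θ, Category.id_comp]

/-- The endomorphism of the free object on the unit attached to an object. -/
noncomputable def xx (W : C) : T (𝟙_ C) ⟶ T (𝟙_ C) := lift (free _) (br W (c0 W))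

lemma isMor_xx (W : C) : IsMor (free _) (free _) (xx W) := isMor_lift _ _

lemma eta_xx (W : C) : eta _ ≫ xx W = br W (c0 W) := eta_lift _ _

lemma xx_mul (W W' : C) : xx W ≫ xx W' = xx (W ⊗ W') := by
  refine ((isMor_xx W).comp (isMor_xx W')).ext (isMor_xx _) ?_
  rw [reassoc_of% (eta_xx W), eta_xx, xx, br_br, st_apply]
  refine congrArg _ ?_
  simp only [c0]
  monoidal

lemma xx_eq_sum (W : C) : xx W = ∑ k, (mult k W : ℂ) • xx (S k) := by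
  have h := cyc_id (C := C) (fun U => lift (free (𝟙_ C)) ∘ₗ br U ∘ₗ
    Linear.leftComp ℂ _ (λ_ U).hom ∘ₗ Linear.rightComp ℂ _ (ρ_ U).inv) (fun U V f g => by
      simp only [LinearMap.comp_apply, Linear.leftComp_apply, Linear.rightComp_apply]
      refine congrArg _ ?_
      calc _ = br U (𝟙_ C ◁ f ≫ (λ_ V).hom ≫ g ≫ (ρ_ U).inv) := by
            refine congrArg _ ?_
            monoidal
        _ = _ := by
            rw [br_slide]
            refine congrArg _ ?_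
            monoidal) W
  simpa only [LinearMap.comp_apply, Linear.leftComp_apply, Linear.rightComp_apply,
    Category.id_comp, xx, c0] using h

lemma xx_fus (i j : Ix C) : xx (S i) ≫ xx (S j) = ∑ k, (fus C i j k : ℂ) • xx (S k) := by
  rw [xx_mul, xx_eq_sum]; rfl

lemma IsMor.eq_sum_xx {a : T (𝟙_ C) ⟶ T (𝟙_ C)} (ha : IsMor (free _) (free _) a) :
    ∃ c : Ix C → ℂ, a = ∑ k, c k • xx (S k) := by
  choose c hc using fun k => schur k ((λ_ _).inv ≫ cp k (eta _ ≫ a) ≫ (ρ_ _).hom)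
  refine ⟨c, ?_⟩
  rw [← ha.lift_eta, ← sum_br_cp (eta _ ≫ a), map_sum]
  refine Finset.sum_congr rfl fun k _ => ?_
  have : cp k (eta _ ≫ a) = c k • c0 (S k) := by
    calc _ = (λ_ _).hom ≫ ((λ_ _).inv ≫ cp k (eta _ ≫ a) ≫ (ρ_ _).hom) ≫ (ρ_ _).inv := by simp
      _ = _ := by rw [hc, c0]; simp
  rw [this, map_smul, map_smul, xx]

lemma sum_xx_eq_zero {c : Ix C → ℂ} (h : ∑ k, c k • xx (S k) = 0) (k : Ix C) : c k = 0 := by
  have h1 := congrArg (fun a => cp k (eta _ ≫ a)) h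
  simp only [Preadditive.comp_sum, Linear.comp_smul, eta_xx, map_sum, map_smul, comp_zero,
    map_zero] at h1
  rw [Finset.sum_eq_single k (fun l _ hl => by rw [cp_br_ne hl, smul_zero]) (by simp), cp_br] at h1
  apply S_smul_inj (i := k)
  calc _ = (λ_ _).inv ≫ (c k • c0 (S k)) ≫ (ρ_ _).hom := by simp [c0]
    _ = _ := by rw [h1]; simp

end Pool.Agent.Lib.MP_152d63_al
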