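import Mathlib

/-! Fusion categories over the complex numbers, pivotal and spherical structures. -/

namespace Pool.Agent.Lib.MP_152d63_al

open CategoryTheory MonoidalCategory Limits

universe v u

section Duals

variable {C : Type u} [Category.{v} C] [MonoidalCategory C] [RigidCategory C]

/-- The chosen dual `X*`, with coevaluation `1 ⟶ X ⊗ X*` and evaluation `X* ⊗ X ⟶ 1`. -/
abbrev dual (X : C) : C := @HasRightDual.rightDual C _ _ X (RightRigidCategory.rightDual X)

/-- The dual `f* : Y* ⟶ X*` of a morphism `f : X ⟶ Y`. -/
noncomputable def dualMap {X Y : C} (f : X ⟶ Y) : dual Y ⟶ dual X :=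
  @rightAdjointMate C _ _ X Y (RightRigidCategory.rightDual X) (RightRigidCategory.rightDual Y) f

/-- The canonical isomorphism `(X ⊗ Y)* ≅ Y* ⊗ X*`. -/
noncomputable def dualTensor (X Y : C) : dual (X ⊗ Y) ≅ dual Y ⊗ dual X :=
  @rightDualTensorIso C _ _ X Y (RightRigidCategory.rightDual X) (RightRigidCategory.rightDual Y)
    (RightRigidCategory.rightDual (X ⊗ Y))

variable (C) in
/-- A pivotal structure: a monoidal natural isomorphism from the identity to the double dual. -/
structure Pivotal where
  /-- The isomorphisms `X ≅ X**`. -/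
  δ : ∀ X : C, X ≅ dual (dual X)
  naturality : ∀ {X Y : C} (f : X ⟶ Y), f ≫ (δ Y).hom = (δ X).hom ≫ dualMap (dualMap f)
  tensor : ∀ X Y : C, (δ (X ⊗ Y)).hom ≫ dualMap (dualTensor X Y).inv ≫
    (dualTensor (dual Y) (dual X)).hom = (δ X).hom ⊗ₘ (δ Y).hom

/-- The quantum dimension `Tr (δ X)`, as an endomorphism of the unit object. -/
noncomputable def Pivotal.dim (P : Pivotal C) (X : C) : 𝟙_ C ⟶ 𝟙_ C :=
  η_ X (dual X) ≫ (P.δ X).hom ▷ dual X ≫ ε_ (dual X) (dual (dual X))

/-- A pivotal structure is spherical if every object has the same dimension as its dual. -/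
def Pivotal.IsSpherical (P : Pivotal C) : Prop := ∀ X : C, P.dim X = P.dim (dual X)

end Duals

attribute [local instance] Abelian.hasFiniteBiproducts

/-- A fusion category: a rigid monoidal complex linear abelian category with bilinear tensor
product is fusion if its morphism spaces are finite dimensional, every object is a finite direct
sum of simple objects, there are finitely many isomorphism classes of simple objects and the unit
object is simple. -/
structure IsFusion (C : Type u) [Category.{v} C] [Abelian C] [Linear ℂ C] [MonoidalCategory C]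
    [MonoidalPreadditive C] [MonoidalLinear ℂ C] [RigidCategory C] : Prop where
  finiteDimensional : ∀ X Y : C, FiniteDimensional ℂ (X ⟶ Y)
  semisimple : ∀ X : C, ∃ (n : ℕ) (S : Fin n → C), (∀ i, Simple (S i)) ∧ Nonempty (X ≅ ⨁ S)
  finite : ∃ (n : ℕ) (S : Fin n → C), ∀ X : C, Simple X → ∃ i, Nonempty (X ≅ S i)
  simple_unit : Simple (𝟙_ C)

/-- `S` lists the simple objects up to isomorphism, each exactly once. -/
structure IsListOfSimples {C : Type u} [Category.{v} C] [Abelian C] {n : ℕ} (S : Fin n → C) :
    Prop where
  simple : ∀ i, Simple (S i)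
  distinct : ∀ i j, Nonempty (S i ≅ S j) → i = j
  complete : ∀ X : C, Simple X → ∃ i, Nonempty (X ≅ S i)

end Pool.Agent.Lib.MP_152d63_al
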