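import Pool.Agent.Lib.MP_152d63_al.HB

/-! The free half braiding on an object. -/

namespace Pool.Agent.Lib.MP_152d63_al

open CategoryTheory MonoidalCategory Limits ExactPairing

universe v u

set_option linter.unusedSectionVars false

variable {C : Type u} [Category.{v} C] [Abelian C] [Linear ℂ C] [MonoidalCategory C]
  [MonoidalPreadditive C] [MonoidalLinear ℂ C] [RigidCategory C] [Ctx C]

open Ctx

attribute [local instance] Abelian.hasFiniteBiproducts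

/-- The underlying object of the free half braiding. -/
noncomputable def T (V : C) : C := ⨁ fun k : Ix C => (S k ⊗ V) ⊗ dual (S k)

/-- Inclusion of a summand. -/
noncomputable def Tι (V : C) (k : Ix C) : (S k ⊗ V) ⊗ dual (S k) ⟶ T V :=
  biproduct.ι (fun k : Ix C => (S k ⊗ V) ⊗ dual (S k)) k

/-- Projection to a summand. -/
noncomputable def Tπ (V : C) (k : Ix C) : T V ⟶ (S k ⊗ V) ⊗ dual (S k) :=
  biproduct.π (fun k : Ix C => (S k ⊗ V) ⊗ dual (S k)) k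

lemma Tι_π (V : C) (k : Ix C) : Tι V k ≫ Tπ V k = 𝟙 _ := biproduct.ι_π_self _ _

lemma Tι_π_ne (V : C) {k l : Ix C} (h : k ≠ l) : Tι V k ≫ Tπ V l = 0 := biproduct.ι_π_ne _ h

lemma T_total (V : C) : ∑ k, Tπ V k ≫ Tι V k = 𝟙 (T V) := biproduct.total

/-- The universal family on simple objects. -/
noncomputable def d0 (V : C) (k : Ix C) : S k ⊗ V ⟶ T V ⊗ S k :=
  (ρ_ _).inv ≫ (S k ⊗ V) ◁ co (S k) ≫ (α_ _ _ _).inv ≫ Tι V k ▷ S k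

lemma d0_nat (V : C) {k l : Ix C} (f : S k ⟶ S l) : f ▷ V ≫ d0 V l = d0 V k ≫ T V ◁ f := by
  by_cases h : k = l
  · subst h
    obtain ⟨c, rfl⟩ := schur k f
    simp
  · rw [schur' k l h f]
    simp

lemma exists_dd (V : C) : ∃ dd : ∀ K : C, K ⊗ V ⟶ T V ⊗ K,
    (∀ (K L : C) (g : K ⟶ L), g ▷ V ≫ dd L = dd K ≫ T V ◁ g) ∧ ∀ k, dd (S k) = d0 V k := by
  choose m l p q h using fun U : C => res U
  have key : ∀ (k : Ix C) (K : C) (f : S k ⟶ K),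
      f ▷ V ≫ ∑ s, p K s ▷ V ≫ d0 V (l K s) ≫ T V ◁ q K s = d0 V k ≫ T V ◁ f := by
    intro k K f
    rw [Preadditive.comp_sum]
    conv_rhs => rw [← Category.comp_id f, ← h K, Preadditive.comp_sum, whiskerLeft_sum,
      Preadditive.comp_sum]
    refine Finset.sum_congr rfl fun s _ => ?_
    rw [← comp_whiskerRight_assoc, ← Category.assoc, d0_nat]
    simp
  refine ⟨fun K => ∑ s, p K s ▷ V ≫ d0 V (l K s) ≫ T V ◁ q K s, fun K L g => ?_, fun k => ?_⟩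
  · conv_lhs => rw [← Category.id_comp g, ← h K, Preadditive.sum_comp, sum_whiskerRight,
      Preadditive.sum_comp]
    rw [Preadditive.sum_comp]
    refine Finset.sum_congr rfl fun s _ => ?_
    rw [Category.assoc, comp_whiskerRight, Category.assoc, key]
    simp
  · have := key k (S k) (𝟙 _)
    simpa using this

/-- The universal natural family. -/
noncomputable def dd (V K : C) : K ⊗ V ⟶ T V ⊗ K := (exists_dd V).choose K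

lemma dd_nat (V : C) {K L : C} (g : K ⟶ L) : g ▷ V ≫ dd V L = dd V K ≫ T V ◁ g :=
  (exists_dd V).choose_spec.1 K L g

lemma dd_S (V : C) (k : Ix C) : dd V (S k) = d0 V k := (exists_dd V).choose_spec.2 k

lemma Tι_comp {L W V : C} (r : L ⊗ T V ⟶ W) (k : Ix C) :
    L ◁ Tι V k ≫ r = (α_ L (S k ⊗ V) (dual (S k))).inv ≫
      (L ◁ dd V (S k) ≫ (α_ L (T V) (S k)).inv ≫ r ▷ S k) ▷ dual (S k) ≫ (α_ W _ _).hom ≫
        W ◁ ev (S k) ≫ (ρ_ W).hom := by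
  rw [dd_S, d0]
  symm
  calc _ = 𝟙 _ ⊗≫ (L ⊗ S k ⊗ V) ◁ co (S k) ▷ dual (S k) ⊗≫
        ((L ◁ Tι V k ≫ r) ▷ (S k ⊗ dual (S k)) ≫ W ◁ ev (S k)) ⊗≫ 𝟙 _ := by monoidal
    _ = 𝟙 _ ⊗≫ (L ⊗ S k ⊗ V) ◁ (co (S k) ▷ dual (S k) ⊗≫ dual (S k) ◁ ev (S k)) ⊗≫
        (L ◁ Tι V k ≫ r) := by rw [← whisker_exchange]; monoidal
    _ = _ := by rw [zag]; monoidal

lemma T_ext {L W V : C} {r r' : L ⊗ T V ⟶ W}
    (h : ∀ k, L ◁ dd V (S k) ≫ (α_ L (T V) (S k)).inv ≫ r ▷ S k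
      = L ◁ dd V (S k) ≫ (α_ L (T V) (S k)).inv ≫ r' ▷ S k) : r = r' := by
  rw [← Category.id_comp r, ← Category.id_comp r', ← whiskerLeft_id, ← T_total, whiskerLeft_sum,
    Preadditive.sum_comp, Preadditive.sum_comp]
  refine Finset.sum_congr rfl fun k _ => ?_
  rw [whiskerLeft_comp, Category.assoc, Category.assoc, Tι_comp r, Tι_comp r', h]

lemma T_ext' {W V : C} {r r' : T V ⟶ W}
    (h : ∀ k, dd V (S k) ≫ r ▷ S k = dd V (S k) ≫ r' ▷ S k) : r = r' := by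
  rw [← cancel_epi (λ_ (T V)).hom]
  apply T_ext
  intro k
  calc _ = (λ_ _).hom ≫ dd V (S k) ≫ r ▷ S k := by monoidal
    _ = _ := by rw [h]; monoidal

lemma nat_ext {L W V : C} (ξ ξ' : ∀ K : C, L ⊗ (K ⊗ V) ⟶ W ⊗ K)
    (hξ : ∀ (K K' : C) (g : K ⟶ K'), L ◁ (g ▷ V) ≫ ξ K' = ξ K ≫ W ◁ g)
    (hξ' : ∀ (K K' : C) (g : K ⟶ K'), L ◁ (g ▷ V) ≫ ξ' K' = ξ' K ≫ W ◁ g)
    (h : ∀ k, ξ (S k) = ξ' (S k)) (K : C) : ξ K = ξ' K := by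
  obtain ⟨m, l, p, q, hK⟩ := res K
  rw [← Category.id_comp (ξ K), ← Category.id_comp (ξ' K), ← whiskerLeft_id, ← id_whiskerRight,
    ← hK, sum_whiskerRight, whiskerLeft_sum, Preadditive.sum_comp, Preadditive.sum_comp]
  refine Finset.sum_congr rfl fun s _ => ?_
  rw [comp_whiskerRight, whiskerLeft_comp, Category.assoc, Category.assoc, hξ, hξ', h]

lemma exists_UP {L W V : C} (ξ : ∀ K : C, L ⊗ (K ⊗ V) ⟶ W ⊗ K)
    (hξ : ∀ (K K' : C) (g : K ⟶ K'), L ◁ (g ▷ V) ≫ ξ K' = ξ K ≫ W ◁ g) :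
    ∃ r : L ⊗ T V ⟶ W, ∀ K : C, L ◁ dd V K ≫ (α_ L (T V) K).inv ≫ r ▷ K = ξ K := by
  obtain ⟨r, hr⟩ : ∃ r : L ⊗ T V ⟶ W, ∀ k, L ◁ Tι V k ≫ r = (α_ L (S k ⊗ V) (dual (S k))).inv ≫
      ξ (S k) ▷ dual (S k) ≫ (α_ W _ _).hom ≫ W ◁ ev (S k) ≫ (ρ_ W).hom := by
    refine ⟨∑ k, L ◁ Tπ V k ≫ (α_ L (S k ⊗ V) (dual (S k))).inv ≫
      ξ (S k) ▷ dual (S k) ≫ (α_ W _ _).hom ≫ W ◁ ev (S k) ≫ (ρ_ W).hom, fun k => ?_⟩
    rw [Preadditive.comp_sum, Finset.sum_eq_single k]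
    · rw [← whiskerLeft_comp_assoc, Tι_π]; simp
    · intro l _ hl
      rw [← whiskerLeft_comp_assoc, Tι_π_ne V hl.symm]; simp
    · simp
  refine ⟨r, nat_ext _ _ ?_ hξ fun k => ?_⟩
  · intro K K' g
    calc _ = L ◁ (g ▷ V ≫ dd V K') ⊗≫ r ▷ K' := by monoidal
      _ = L ◁ dd V K ⊗≫ ((L ⊗ T V) ◁ g ≫ r ▷ K') := by rw [dd_nat]; monoidal
      _ = _ := by rw [whisker_exchange]; monoidal
  · rw [dd_S, d0]
    calc _ = 𝟙 _ ⊗≫ (L ⊗ S k ⊗ V) ◁ co (S k) ⊗≫ (L ◁ Tι V k ≫ r) ▷ S k := by monoidal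
      _ = 𝟙 _ ⊗≫ ((L ⊗ S k ⊗ V) ◁ co (S k) ≫ ξ (S k) ▷ (dual (S k) ⊗ S k)) ⊗≫
          W ◁ ev (S k) ▷ S k ⊗≫ 𝟙 _ := by rw [hr]; monoidal
      _ = ξ (S k) ⊗≫ W ◁ (S k ◁ co (S k) ⊗≫ ev (S k) ▷ S k) ⊗≫ 𝟙 _ := by
          rw [whisker_exchange]; monoidal
      _ = _ := by rw [zig]; monoidal

lemma exists_γT (V L : C) : ∃ r : L ⊗ T V ⟶ T V ⊗ L, ∀ K : C,
    L ◁ dd V K ≫ (α_ L (T V) K).inv ≫ r ▷ K
      = (α_ L K V).inv ≫ dd V (L ⊗ K) ≫ (α_ (T V) L K).inv := by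
  apply exists_UP
  intro K K' g
  calc _ = 𝟙 _ ⊗≫ ((L ◁ g) ▷ V ≫ dd V (L ⊗ K')) ⊗≫ 𝟙 _ := by monoidal
    _ = _ := by rw [dd_nat]; monoidal

/-- The half braiding of the free object. -/
noncomputable def γT (V L : C) : L ⊗ T V ⟶ T V ⊗ L := (exists_γT V L).choose

lemma γT_spec (V L K : C) : L ◁ dd V K ≫ (α_ L (T V) K).inv ≫ γT V L ▷ K
    = (α_ L K V).inv ≫ dd V (L ⊗ K) ≫ (α_ (T V) L K).inv := (exists_γT V L).choose_spec K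

/-- The free half braiding. -/
noncomputable def free (V : C) : HB (T V) where
  γ := γT V
  nat {L L'} g := by
    apply T_ext
    intro k
    calc _ = (L ◁ dd V (S k) ≫ g ▷ (T V ⊗ S k)) ≫ (α_ _ _ _).inv ≫ γT V L' ▷ S k := by monoidal
      _ = g ▷ (S k ⊗ V) ≫ (L' ◁ dd V (S k) ≫ (α_ _ _ _).inv ≫ γT V L' ▷ S k) := by
          rw [whisker_exchange, Category.assoc]
      _ = 𝟙 _ ⊗≫ ((g ▷ S k) ▷ V ≫ dd V (L' ⊗ S k)) ⊗≫ 𝟙 _ := by rw [γT_spec]; monoidal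
      _ = ((α_ _ _ _).inv ≫ dd V (L ⊗ S k) ≫ (α_ _ _ _).inv) ≫ (T V ◁ g) ▷ S k := by
          rw [dd_nat]; monoidal
      _ = _ := by rw [← γT_spec]; monoidal
  mon L L' := by
    apply T_ext
    intro k
    rw [γT_spec]
    symm
    calc _ = 𝟙 _ ⊗≫ L ◁ (L' ◁ dd V (S k) ≫ (α_ _ _ _).inv ≫ γT V L' ▷ S k) ⊗≫
          γT V L ▷ (L' ⊗ S k) ⊗≫ 𝟙 _ := by monoidal
      _ = 𝟙 _ ⊗≫ (L ◁ dd V (L' ⊗ S k) ≫ (α_ _ _ _).inv ≫ γT V L ▷ (L' ⊗ S k)) ⊗≫ 𝟙 _ := by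
          rw [γT_spec]; monoidal
      _ = (α_ _ _ _).inv ≫ ((α_ L L' (S k)).hom ▷ V ≫ dd V (L ⊗ L' ⊗ S k)) ⊗≫ 𝟙 _ := by
          rw [γT_spec]; monoidal
      _ = _ := by rw [dd_nat]; monoidal
  unit := by
    apply T_ext
    intro k
    rw [γT_spec]
    symm
    calc _ = (α_ _ _ _).inv ≫ ((λ_ (S k)).hom ▷ V ≫ dd V (S k)) ⊗≫ 𝟙 _ := by monoidal
      _ = _ := by rw [dd_nat]; monoidal

lemma free_spec (V L K : C) : L ◁ dd V K ≫ (α_ L (T V) K).inv ≫ (free V).γ L ▷ K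
    = (α_ L K V).inv ≫ dd V (L ⊗ K) ≫ (α_ (T V) L K).inv := γT_spec V L K

/-- The unit of the adjunction. -/
noncomputable def eta (V : C) : V ⟶ T V := (λ_ V).inv ≫ dd V (𝟙_ C) ≫ (ρ_ _).hom

lemma dd_eq (V K : C) : dd V K = K ◁ eta V ≫ (free V).γ K := by
  symm
  calc _ = 𝟙 _ ⊗≫ (K ◁ dd V (𝟙_ C) ≫ (α_ _ _ _).inv ≫ (free V).γ K ▷ 𝟙_ C) ⊗≫ 𝟙 _ := by
        rw [eta]; monoidal
    _ = ((ρ_ K).inv ▷ V ≫ dd V (K ⊗ 𝟙_ C)) ⊗≫ 𝟙 _ := by rw [free_spec]; monoidal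
    _ = _ := by rw [dd_nat]; monoidal

lemma IsMor.dd_comp {V Y : C} {A : HB Y} {a : T V ⟶ Y} (ha : IsMor (free V) A a) (K : C) :
    dd V K ≫ a ▷ K = K ◁ (eta V ≫ a) ≫ A.γ K := by
  rw [dd_eq, Category.assoc, ← ha K]
  simp

lemma IsMor.ext {V Y : C} {A : HB Y} {a a' : T V ⟶ Y} (ha : IsMor (free V) A a)
    (ha' : IsMor (free V) A a') (h : eta V ≫ a = eta V ≫ a') : a = a' := by
  apply T_ext'
  intro k
  rw [ha.dd_comp, ha'.dd_comp, h]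

lemma exists_lift {V Y : C} (A : HB Y) (f : V ⟶ Y) :
    ∃ a : T V ⟶ Y, IsMor (free V) A a ∧ eta V ≫ a = f := by
  obtain ⟨r, hr⟩ := exists_UP (L := 𝟙_ C) (W := Y) (V := V)
    (fun K => (λ_ _).hom ≫ K ◁ f ≫ A.γ K) (fun K K' g => by
      calc _ = 𝟙 _ ⊗≫ (g ▷ V ≫ K' ◁ f) ≫ A.γ K' := by monoidal
        _ = 𝟙 _ ⊗≫ K ◁ f ≫ (g ▷ Y ≫ A.γ K') := by rw [← whisker_exchange, Category.assoc]
        _ = _ := by rw [A.nat]; monoidal)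
  have h1 : ∀ K : C, dd V K ≫ ((λ_ _).inv ≫ r) ▷ K = K ◁ f ≫ A.γ K := by
    intro K
    calc _ = (λ_ _).inv ≫ (𝟙_ C ◁ dd V K ≫ (α_ _ _ _).inv ≫ r ▷ K) := by monoidal
      _ = _ := by rw [hr]; simp
  generalize (λ_ _).inv ≫ r = a at h1
  refine ⟨a, fun L => ?_, ?_⟩
  · apply T_ext
    intro k
    calc _ = L ◁ (dd V (S k) ≫ a ▷ S k) ⊗≫ A.γ L ▷ S k := by monoidal
      _ = 𝟙 _ ⊗≫ ((L ⊗ S k) ◁ f ≫ A.γ (L ⊗ S k)) ⊗≫ 𝟙 _ := by rw [h1, A.mon]; monoidal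
      _ = ((α_ _ _ _).inv ≫ dd V (L ⊗ S k) ≫ (α_ _ _ _).inv) ≫ a ▷ L ▷ S k := by
          rw [← h1]; monoidal
      _ = _ := by rw [← free_spec]; monoidal
  · calc _ = 𝟙 _ ⊗≫ (dd V (𝟙_ C) ≫ a ▷ 𝟙_ C) ⊗≫ 𝟙 _ := by rw [eta]; monoidal
      _ = _ := by rw [h1, A.unit]; monoidal

/-- The extension of a morphism to the free object. -/
noncomputable def lift {V Y : C} (A : HB Y) : (V ⟶ Y) →ₗ[ℂ] (T V ⟶ Y) where
  toFun f := (exists_lift A f).choose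
  map_add' f g := by
    refine (exists_lift A _).choose_spec.1.ext
      ((exists_lift A _).choose_spec.1.add (exists_lift A _).choose_spec.1) ?_
    rw [Preadditive.comp_add, (exists_lift A _).choose_spec.2, (exists_lift A _).choose_spec.2,
      (exists_lift A _).choose_spec.2]
  map_smul' c f := by
    refine (exists_lift A _).choose_spec.1.ext ((exists_lift A _).choose_spec.1.smul c) ?_
    rw [RingHom.id_apply, Linear.comp_smul, (exists_lift A _).choose_spec.2,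
      (exists_lift A _).choose_spec.2]

lemma isMor_lift {V Y : C} (A : HB Y) (f : V ⟶ Y) : IsMor (free V) A (lift A f) :=
  (exists_lift A f).choose_spec.1

lemma eta_lift {V Y : C} (A : HB Y) (f : V ⟶ Y) : eta V ≫ lift A f = f :=
  (exists_lift A f).choose_spec.2

lemma dd_lift {V Y : C} (A : HB Y) (f : V ⟶ Y) (K : C) :
    dd V K ≫ lift A f ▷ K = K ◁ f ≫ A.γ K := by
  rw [(isMor_lift A f).dd_comp, eta_lift]

lemma IsMor.lift_eta {V Y : C} {A : HB Y} {a : T V ⟶ Y} (ha : IsMor (free V) A a) :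
    lift A (eta V ≫ a) = a := (isMor_lift A _).ext ha (eta_lift A _)

lemma lift_comp {V Y Z : C} (A : HB Y) {B : HB Z} (f : V ⟶ Y) {b : Y ⟶ Z} (hb : IsMor A B b) :
    lift A f ≫ b = lift B (f ≫ b) :=
  ((isMor_lift A f).comp hb).ext (isMor_lift _ _) (by rw [← Category.assoc, eta_lift, eta_lift])

/-- The free functor on morphisms. -/
noncomputable def Tmap (V V' : C) : (V ⟶ V') →ₗ[ℂ] (T V ⟶ T V') :=
  lift (free V') ∘ₗ Linear.rightComp ℂ V (eta V')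

lemma isMor_Tmap {V V' : C} (h : V ⟶ V') : IsMor (free V) (free V') (Tmap V V' h) :=
  isMor_lift _ _

lemma eta_Tmap {V V' : C} (h : V ⟶ V') : eta V ≫ Tmap V V' h = h ≫ eta V' := eta_lift _ _

lemma dd_Tmap {V V' : C} (h : V ⟶ V') (K : C) :
    dd V K ≫ Tmap V V' h ▷ K = K ◁ h ≫ dd V' K := by
  rw [(isMor_Tmap h).dd_comp, eta_Tmap, dd_eq]
  simp

lemma Tmap_id (V : C) : Tmap V V (𝟙 V) = 𝟙 _ :=
  (isMor_Tmap _).ext (IsMor.id _) (by rw [eta_Tmap]; simp)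

lemma Tmap_comp {V V' V'' : C} (h : V ⟶ V') (h' : V' ⟶ V'') :
    Tmap V V'' (h ≫ h') = Tmap V V' h ≫ Tmap V' V'' h' :=
  (isMor_Tmap _).ext ((isMor_Tmap _).comp (isMor_Tmap _))
    (by rw [eta_Tmap, reassoc_of% (eta_Tmap h), eta_Tmap, Category.assoc])

/-- The projection formula. -/
lemma exists_proj {Y : C} (A : HB Y) (V : C) :
    ∃ e : T (Y ⊗ V) ≅ Y ⊗ T V, IsMor (free (Y ⊗ V)) (A.tensor (free V)) e.hom := by
  obtain ⟨r, hr⟩ := exists_UP (L := Y) (W := T (Y ⊗ V)) (V := V)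
    (fun K => (α_ _ _ _).inv ≫ A.inv K ▷ V ≫ (α_ _ _ _).hom ≫ dd (Y ⊗ V) K) (fun K K' g => by
      have h : Y ◁ g ≫ A.inv K' = A.inv K ≫ g ▷ Y := by
        rw [← cancel_epi (A.γ K), ← cancel_mono (A.γ K')]
        simp only [Category.assoc]
        rw [A.inv_γ, A.nat, reassoc_of% (A.γ_inv K), Category.comp_id]
      calc _ = 𝟙 _ ⊗≫ (Y ◁ g ≫ A.inv K') ▷ V ⊗≫ dd (Y ⊗ V) K' := by monoidal
        _ = 𝟙 _ ⊗≫ A.inv K ▷ V ⊗≫ (g ▷ (Y ⊗ V) ≫ dd (Y ⊗ V) K') := by rw [h]; monoidal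
        _ = _ := by rw [dd_nat]; monoidal)
  have h1 : ∀ K : C, dd (Y ⊗ V) K ≫ lift (A.tensor (free V)) (Y ◁ eta V) ▷ K
      = (α_ _ _ _).inv ≫ A.γ K ▷ V ≫ (α_ _ _ _).hom ≫ Y ◁ dd V K ≫ (α_ _ _ _).inv := by
    intro K
    rw [dd_lift, HB.tensor_γ, dd_eq]
    calc _ = 𝟙 _ ⊗≫ ((K ⊗ Y) ◁ eta V ≫ A.γ K ▷ T V) ⊗≫ Y ◁ (free V).γ K ⊗≫ 𝟙 _ := by monoidal
      _ = _ := by rw [whisker_exchange]; monoidal
  refine ⟨⟨lift (A.tensor (free V)) (Y ◁ eta V), r, ?_, ?_⟩, isMor_lift _ _⟩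
  · apply T_ext'
    intro k
    rw [comp_whiskerRight, reassoc_of% (h1 (S k)), hr]
    calc _ = 𝟙 _ ⊗≫ (A.γ (S k) ≫ A.inv (S k)) ▷ V ⊗≫ dd (Y ⊗ V) (S k) := by monoidal
      _ = _ := by rw [A.γ_inv]; monoidal
  · apply T_ext
    intro k
    rw [comp_whiskerRight, reassoc_of% (hr (S k)), h1]
    calc _ = 𝟙 _ ⊗≫ (A.inv (S k) ≫ A.γ (S k)) ▷ V ⊗≫ Y ◁ dd V (S k) ⊗≫ 𝟙 _ := by monoidal
      _ = _ := by rw [A.inv_γ]; monoidal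

end Pool.Agent.Lib.MP_152d63_al
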