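import Mathlib

namespace Pool.Agent.Lib.MP_152d63_al

/-- A character of the fusion rules `N` that is invariant under duality. -/
structure GoodChar {ι : Type} [Fintype ι] (o : ι) (N : ι → ι → ι → ℕ) (χ : ι → ℂ) : Prop where
  one : χ o = 1
  mul : ∀ i j, ∑ k, (N i j k : ℂ) * χ k = χ i * χ j
  reg : ∀ i k, ∑ j, (N i j k : ℂ) * χ j = χ i * χ k
  reg' : ∀ j k, ∑ i, (N i j k : ℂ) * χ i = χ j * χ k

theorem n_normSq_pos {ι : Type} [Fintype ι] {o : ι} {χ : ι → ℂ} (h : χ o = 1) :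
    0 < ∑ i, Complex.normSq (χ i) := by
  have h1 : Complex.normSq (χ o) ≤ ∑ i, Complex.normSq (χ i) :=
    Finset.single_le_sum (f := fun i => Complex.normSq (χ i))
      (fun i _ => Complex.normSq_nonneg _) (Finset.mem_univ o)
  rw [h, map_one] at h1
  linarith

/-- Good characters take real values. -/
theorem GoodChar.conj_eq {ι : Type} [Fintype ι] {o : ι} {N : ι → ι → ι → ℕ} {χ : ι → ℂ}
    (h : GoodChar o N χ) (i : ι) : (starRingEnd ℂ) (χ i) = χ i := by
  have hS : (∑ j, (starRingEnd ℂ) (χ j) * χ j) ≠ 0 := by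
    have e : (∑ j, (starRingEnd ℂ) (χ j) * χ j) = ((∑ j, Complex.normSq (χ j) : ℝ) : ℂ) := by
      push_cast
      refine Finset.sum_congr rfl fun j _ => ?_
      rw [Complex.normSq_eq_conj_mul_self]
    rw [e]
    exact_mod_cast (n_normSq_pos h.one).ne'
  have e1 : ∑ j, ∑ k, (starRingEnd ℂ) (χ j) * ((N i j k : ℂ) * χ k)
      = χ i * ∑ j, (starRingEnd ℂ) (χ j) * χ j := by
    rw [Finset.mul_sum]
    refine Finset.sum_congr rfl fun j _ => ?_
    rw [← Finset.mul_sum, h.mul]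
    ring
  have e2 : ∑ j, ∑ k, (starRingEnd ℂ) (χ j) * ((N i j k : ℂ) * χ k)
      = (starRingEnd ℂ) (χ i) * ∑ j, (starRingEnd ℂ) (χ j) * χ j := by
    rw [Finset.sum_comm, Finset.mul_sum]
    refine Finset.sum_congr rfl fun k _ => ?_
    have e := congrArg (starRingEnd ℂ) (h.reg i k)
    simp only [map_sum, map_mul, map_natCast] at e
    calc ∑ j, (starRingEnd ℂ) (χ j) * ((N i j k : ℂ) * χ k)
        = (∑ j, (N i j k : ℂ) * (starRingEnd ℂ) (χ j)) * χ k := by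
          rw [Finset.sum_mul]
          refine Finset.sum_congr rfl fun j _ => ?_
          ring
      _ = _ := by rw [e]; ring
  exact (mul_right_cancel₀ hS (e1.symm.trans e2)).symm

theorem GoodChar.re_eq {ι : Type} [Fintype ι] {o : ι} {N : ι → ι → ι → ℕ} {χ : ι → ℂ}
    (h : GoodChar o N χ) (i : ι) : (((χ i).re : ℝ) : ℂ) = χ i :=
  Complex.conj_eq_iff_re.mp (h.conj_eq i)

/-- TASK N0 (file GoodChar.lean). -/
theorem GoodChar.sum_sq_ne_zero {ι : Type} [Fintype ι] {o : ι} {N : ι → ι → ι → ℕ} {χ : ι → ℂ}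
    (h : GoodChar o N χ) : ∑ i, χ i ^ 2 ≠ 0 := by
  have e : (∑ j, χ j ^ 2) = ((∑ j, Complex.normSq (χ j) : ℝ) : ℂ) := by
    push_cast
    refine Finset.sum_congr rfl fun j _ => ?_
    rw [Complex.normSq_eq_conj_mul_self, h.conj_eq]
    ring
  rw [e]
  exact_mod_cast (n_normSq_pos h.one).ne'

theorem GoodChar.orth {ι : Type} [Fintype ι] {o : ι} {N : ι → ι → ι → ℕ} {χ ψ : ι → ℂ}
    (h : GoodChar o N χ) (h' : GoodChar o N ψ) (hne : χ ≠ ψ) : ∑ i, χ i * ψ i = 0 := by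
  obtain ⟨i, hi⟩ := Function.ne_iff.mp hne
  have e1 : ∑ j, ∑ k, χ j * ((N i j k : ℂ) * ψ k) = ψ i * ∑ j, χ j * ψ j := by
    rw [Finset.mul_sum]
    refine Finset.sum_congr rfl fun j _ => ?_
    rw [← Finset.mul_sum, h'.mul]
    ring
  have e2 : ∑ j, ∑ k, χ j * ((N i j k : ℂ) * ψ k) = χ i * ∑ j, χ j * ψ j := by
    rw [Finset.sum_comm, Finset.mul_sum]
    refine Finset.sum_congr rfl fun k _ => ?_
    calc ∑ j, χ j * ((N i j k : ℂ) * ψ k)
        = (∑ j, (N i j k : ℂ) * χ j) * ψ k := by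
          rw [Finset.sum_mul]
          refine Finset.sum_congr rfl fun j _ => ?_
          ring
      _ = _ := by rw [h.reg]; ring
  have e3 : (χ i - ψ i) * ∑ j, χ j * ψ j = 0 := by
    rw [sub_mul, ← e1, ← e2, sub_self]
  exact (mul_eq_zero.mp e3).resolve_left (sub_ne_zero.mpr hi)

end Pool.Agent.Lib.MP_152d63_al
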