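import Pool.Agent.Lib.MP_152d63_al.Semi

/-! Half braidings, their tensor products, twists and the balancing identity. -/

namespace Pool.Agent.Lib.MP_152d63_al

open CategoryTheory MonoidalCategory Limits ExactPairing

universe v u

set_option linter.unusedSectionVars false

section

variable {C : Type u} [Category.{v} C] [MonoidalCategory C]

/-- A half braiding on an object. -/
structure HB (Y : C) where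
  γ : ∀ K : C, K ⊗ Y ⟶ Y ⊗ K
  nat : ∀ {K L : C} (g : K ⟶ L), g ▷ Y ≫ γ L = γ K ≫ Y ◁ g
  mon : ∀ K L : C, γ (K ⊗ L)
    = (α_ K L Y).hom ≫ K ◁ γ L ≫ (α_ K Y L).inv ≫ γ K ▷ L ≫ (α_ Y K L).hom
  unit : γ (𝟙_ C) = (λ_ Y).hom ≫ (ρ_ Y).inv

/-- Morphisms compatible with half braidings. -/
def IsMor {X Y : C} (A : HB X) (B : HB Y) (f : X ⟶ Y) : Prop := ∀ K : C, K ◁ f ≫ B.γ K = A.γ K ≫ f ▷ K

lemma IsMor.id {X : C} (A : HB X) : IsMor A A (𝟙 _) := fun K => by simp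

lemma IsMor.comp {X Y Z : C} {A : HB X} {B : HB Y} {D : HB Z} {f : X ⟶ Y} {g : Y ⟶ Z} (hf : IsMor A B f)
    (hg : IsMor B D g) : IsMor A D (f ≫ g) := fun K => by
  rw [whiskerLeft_comp, Category.assoc, hg K, ← Category.assoc, hf K]
  simp

/-- The tensor product of half braidings. -/
def HB.tensor {X Y : C} (A : HB X) (B : HB Y) : HB (X ⊗ Y) where
  γ K := (α_ K X Y).inv ≫ A.γ K ▷ Y ≫ (α_ X K Y).hom ≫ X ◁ B.γ K ≫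
    (α_ X Y K).inv
  nat {K L} g := by
    calc _ = 𝟙 _ ⊗≫ (g ▷ X ≫ A.γ L) ▷ Y ⊗≫ X ◁ B.γ L ⊗≫ 𝟙 _ := by monoidal
      _ = 𝟙 _ ⊗≫ A.γ K ▷ Y ⊗≫ X ◁ (g ▷ Y ≫ B.γ L) ⊗≫ 𝟙 _ := by rw [A.nat]; monoidal
      _ = _ := by rw [B.nat]; monoidal
  mon K L := by
    rw [A.mon, B.mon]
    calc _ = 𝟙 _ ⊗≫ K ◁ A.γ L ▷ Y ⊗≫ (A.γ K ▷ (L ⊗ Y) ≫ (X ⊗ K) ◁ B.γ L) ⊗≫
          X ◁ B.γ K ▷ L ⊗≫ 𝟙 _ := by monoidal
      _ = _ := by rw [← whisker_exchange]; monoidal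
  unit := by
    rw [A.unit, B.unit]; monoidal

lemma HB.tensor_γ {X Y : C} (A : HB X) (B : HB Y) (K : C) : (A.tensor B).γ K
    = (α_ K X Y).inv ≫ A.γ K ▷ Y ≫ (α_ X K Y).hom ≫ X ◁ B.γ K ≫
      (α_ X Y K).inv := rfl

lemma isMor_associator {X Y Z : C} (A : HB X) (B : HB Y) (D : HB Z) :
    IsMor ((A.tensor B).tensor D) (A.tensor (B.tensor D)) (α_ X Y Z).hom := fun K => by
  simp only [HB.tensor]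
  monoidal

/-- The splitting of an idempotent morphism carries a half braiding. -/
def HB.split {X : C} (A : HB X) {Z : C} (i : Z ⟶ X) (r : X ⟶ Z) (h : i ≫ r = 𝟙 Z)
    (hm : IsMor A A (r ≫ i)) : HB Z where
  γ K := K ◁ i ≫ A.γ K ≫ r ▷ K
  nat {K L} g := by
    rw [← whisker_exchange_assoc, ← Category.assoc (g ▷ X), A.nat]
    simp only [Category.assoc]
    rw [whisker_exchange]
  mon K L := by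
    have h1 : A.γ K ≫ r ▷ K = K ◁ (r ≫ i) ≫ A.γ K ≫ r ▷ K := by
      rw [← Category.assoc (K ◁ (r ≫ i)), hm K, Category.assoc, ← comp_whiskerRight,
        Category.assoc, h, Category.comp_id]
    calc _ = 𝟙 _ ⊗≫ K ◁ (L ◁ i ≫ A.γ L) ⊗≫ (A.γ K ≫ r ▷ K) ▷ L ⊗≫ 𝟙 _ := by
          rw [A.mon]; monoidal
      _ = 𝟙 _ ⊗≫ K ◁ (L ◁ i ≫ A.γ L) ⊗≫ (K ◁ (r ≫ i) ≫ A.γ K ≫ r ▷ K) ▷ L ⊗≫ 𝟙 _ := by
          rw [← h1]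
      _ = _ := by monoidal
  unit := by
    rw [A.unit]
    calc _ = 𝟙 _ ⊗≫ (i ≫ r) ⊗≫ 𝟙 _ := by monoidal
      _ = _ := by rw [h]; monoidal

lemma isMor_split {X : C} (A : HB X) {Z : C} (i : Z ⟶ X) (r : X ⟶ Z) (h : i ≫ r = 𝟙 Z)
    (hm : IsMor A A (r ≫ i)) : IsMor (A.split i r h hm) A i := fun K => by
  change K ◁ i ≫ A.γ K = (K ◁ i ≫ A.γ K ≫ r ▷ K) ≫ i ▷ K
  simp only [Category.assoc]
  rw [← comp_whiskerRight, ← hm K, ← whiskerLeft_comp_assoc, ← Category.assoc i, h,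
    Category.id_comp]

variable [RigidCategory C]

/-- The inverse of a half braiding. -/
noncomputable def HB.inv {X : C} (A : HB X) (K : C) : X ⊗ K ⟶ K ⊗ X :=
  𝟙 _ ⊗≫ η_ K (dual K) ▷ (X ⊗ K) ⊗≫ K ◁ A.γ (dual K) ▷ K ⊗≫
    (K ⊗ X) ◁ ε_ K (dual K) ⊗≫ 𝟙 _

lemma HB.γ_inv {X : C} (A : HB X) (K : C) : A.γ K ≫ A.inv K = 𝟙 _ := by
  unfold HB.inv
  calc _ = 𝟙 _ ⊗≫ (𝟙_ C ◁ A.γ K ≫ η_ K (dual K) ▷ (X ⊗ K)) ⊗≫ K ◁ A.γ (dual K) ▷ K ⊗≫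
        (K ⊗ X) ◁ ε_ K (dual K) ⊗≫ 𝟙 _ := by monoidal
    _ = 𝟙 _ ⊗≫ η_ K (dual K) ▷ (K ⊗ X) ⊗≫
        K ◁ (A.γ (dual K ⊗ K) ≫ X ◁ ε_ K (dual K)) ⊗≫ 𝟙 _ := by
        rw [whisker_exchange, A.mon]; monoidal
    _ = 𝟙 _ ⊗≫ (η_ K (dual K) ▷ K ⊗≫ K ◁ ε_ K (dual K)) ▷ X ⊗≫ 𝟙 _ := by
        rw [← A.nat, A.unit]; monoidal
    _ = _ := by rw [evaluation_coevaluation'']; monoidal

lemma HB.inv_γ {X : C} (A : HB X) (K : C) : A.inv K ≫ A.γ K = 𝟙 _ := by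
  unfold HB.inv
  calc _ = 𝟙 _ ⊗≫ η_ K (dual K) ▷ (X ⊗ K) ⊗≫ K ◁ A.γ (dual K) ▷ K ⊗≫
        ((K ⊗ X) ◁ ε_ K (dual K) ≫ A.γ K ▷ 𝟙_ C) ⊗≫ 𝟙 _ := by monoidal
    _ = 𝟙 _ ⊗≫ (η_ K (dual K) ▷ X ≫ A.γ (K ⊗ dual K)) ▷ K ⊗≫
        (X ⊗ K) ◁ ε_ K (dual K) ⊗≫ 𝟙 _ := by
        rw [whisker_exchange, A.mon]; monoidal
    _ = 𝟙 _ ⊗≫ X ◁ (η_ K (dual K) ▷ K ⊗≫ K ◁ ε_ K (dual K)) ⊗≫ 𝟙 _ := by
        rw [A.nat, A.unit]; monoidal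
    _ = _ := by rw [evaluation_coevaluation'']; monoidal

/-- The half braiding as an isomorphism. -/
noncomputable def HB.iso {X : C} (A : HB X) (K : C) : K ⊗ X ≅ X ⊗ K :=
  ⟨A.γ K, A.inv K, A.γ_inv K, A.inv_γ K⟩

instance HB.isIso_γ {X : C} (A : HB X) (K : C) : IsIso (A.γ K) := (A.iso K).isIso_hom

lemma HB.inv_eq {X : C} (A : HB X) (K : C) : A.inv K = CategoryTheory.inv (A.γ K) :=
  IsIso.eq_inv_of_hom_inv_id (A.γ_inv K)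

end

variable {C : Type u} [Category.{v} C] [Abelian C] [Linear ℂ C] [MonoidalCategory C]
  [MonoidalPreadditive C] [MonoidalLinear ℂ C] [RigidCategory C]

lemma IsMor.add {X Y : C} {A : HB X} {B : HB Y} {f g : X ⟶ Y} (hf : IsMor A B f) (hg : IsMor A B g) :
    IsMor A B (f + g) := fun K => by
  simp [MonoidalPreadditive.add_whiskerRight, hf K, hg K]

lemma IsMor.smul {X Y : C} {A : HB X} {B : HB Y} {f : X ⟶ Y} (c : ℂ) (hf : IsMor A B f) :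
    IsMor A B (c • f) := fun K => by
  simp [hf K]

lemma IsMor.zero {X Y : C} (A : HB X) (B : HB Y) : IsMor A B 0 := fun K => by simp

variable [Ctx C]

/-- A strand can be moved across a closed loop carrying a half braiding. -/
lemma pass {Y : C} (H : HB Y) {A B : C} (K : C) (f : A ⊗ Y ⟶ B ⊗ Y) :
    pt Y f ▷ K = pt Y ((α_ A K Y).hom ≫ A ◁ H.γ K ≫ (α_ A Y K).inv ≫ f ▷ K ≫
      (α_ B Y K).hom ≫ B ◁ H.inv K ≫ (α_ B K Y).inv) := by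
  apply ext_Tr
  intro k
  have e1 : B ◁ H.inv K ≫ (α_ B K Y).inv ≫ k ▷ Y ≫ (α_ A K Y).hom ≫ A ◁ H.γ K
      = (α_ B Y K).inv ≫ H.γ B ▷ K ≫ (α_ Y B K).hom ≫ Y ◁ k ≫ (α_ Y A K).inv ≫
        H.inv A ▷ K ≫ (α_ A Y K).hom := by
    have h := H.nat k
    rw [H.mon, H.mon] at h
    rw [← cancel_epi (B ◁ H.γ K), ← cancel_mono ((α_ A Y K).inv ≫ H.γ A ▷ K)]
    calc _ = 𝟙 _ ⊗≫ B ◁ (H.γ K ≫ H.inv K) ⊗≫ (k ▷ Y ≫ (α_ A K Y).hom ≫ A ◁ H.γ K ≫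
          (α_ A Y K).inv ≫ H.γ A ▷ K ≫ (α_ Y A K).hom) ⊗≫ 𝟙 _ := by monoidal
      _ = 𝟙 _ ⊗≫ B ◁ H.γ K ⊗≫ H.γ B ▷ K ⊗≫ Y ◁ k ⊗≫ (H.inv A ≫ H.γ A) ▷ K ⊗≫ 𝟙 _ := by
          rw [h, H.γ_inv, H.inv_γ]; monoidal
      _ = _ := by monoidal
  have e2 : pt K ((α_ B Y K).hom ≫ B ◁ H.inv K ≫ (α_ B K Y).inv ≫ k ▷ Y ≫
      (α_ A K Y).hom ≫ A ◁ H.γ K ≫ (α_ A Y K).inv) = pt K k ▷ Y := by
    rw [reassoc_of% e1]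
    simp only [Iso.hom_inv_id_assoc, Iso.hom_inv_id, Category.comp_id]
    rw [pt_pre, ← Category.assoc, ← Category.assoc, pt_post, Category.assoc, ← whiskerLeft_pt,
      ← Category.assoc, ← H.nat, Category.assoc, H.γ_inv, Category.comp_id]
  calc _ = Tr _ (f ≫ pt K k ▷ Y) := by
        rw [Tr_pt, pt_pre, Tr_pt, pt_post]
    _ = Tr _ (f ▷ K ≫ (α_ B Y K).hom ≫ B ◁ H.inv K ≫ (α_ B K Y).inv ≫ k ▷ Y ≫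
      (α_ A K Y).hom ≫ A ◁ H.γ K ≫ (α_ A Y K).inv) := by
        rw [Tr_pt (K := K), pt_pre, e2]
    _ = _ := by
        rw [← pt_post, ← Tr_pt]
        have := Tr_comm ((α_ A K Y).hom ≫ A ◁ H.γ K ≫ (α_ A Y K).inv)
          (f ▷ K ≫ (α_ B Y K).hom ≫ B ◁ H.inv K ≫ (α_ B K Y).inv ≫ k ▷ Y)
        simp only [Category.assoc] at this ⊢
        exact this.symm

/-- The twist. -/
noncomputable def HB.θ {X : C} (A : HB X) : X ⟶ X := pt X (A.γ X)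

lemma HB.comp_θ {X : C} (A : HB X) {W : C} (φ : W ⟶ X) : φ ≫ A.θ = pt W (W ◁ φ ≫ A.γ W) := by
  rw [HB.θ, ← pt_pre, A.nat, pt_slide]

lemma IsMor.θ_nat {X Y : C} {A : HB X} {B : HB Y} {f : X ⟶ Y} (hf : IsMor A B f) : f ≫ B.θ = A.θ ≫ f := by
  rw [B.comp_θ, hf, pt_post, HB.θ]

lemma HB.isMor_θ {X : C} (A : HB X) : IsMor A A A.θ := fun K => by
  rw [HB.θ, pass A, ← pt_pre, whiskerLeft_pt, ← pt_post]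
  refine congrArg _ ?_
  have h1 := A.nat (A.γ K)
  rw [A.mon, A.mon] at h1
  calc _ = ((α_ K X X).hom ≫ K ◁ A.γ X ≫ (α_ K X X).inv ≫ A.γ K ▷ X ≫
        (α_ X K X).hom) ⊗≫ X ◁ (A.γ K ≫ A.inv K) ⊗≫ 𝟙 _ := by
        rw [A.γ_inv]; monoidal
    _ = (((α_ K X X).hom ≫ K ◁ A.γ X ≫ (α_ K X X).inv ≫ A.γ K ▷ X ≫
        (α_ X K X).hom) ≫ X ◁ A.γ K) ⊗≫ X ◁ A.inv K ⊗≫ 𝟙 _ := by monoidal
    _ = _ := by rw [← h1]; monoidal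

lemma HB.θ_tensor {X Y : C} (A : HB X) (B : HB Y) :
    (A.tensor B).θ = X ◁ B.θ ≫ A.θ ▷ Y ≫ B.γ X ≫ A.γ Y := by
  have e1 : (α_ (X ⊗ Y) X Y).hom ≫ (A.tensor B).γ (X ⊗ Y) ≫
      (α_ (X ⊗ Y) X Y).inv = A.γ (X ⊗ Y) ▷ Y ≫
        ((α_ X (X ⊗ Y) Y).hom ≫ X ◁ ((α_ X Y Y).hom ≫ X ◁ B.γ Y ≫
          (α_ X Y Y).inv) ≫ (α_ X (X ⊗ Y) Y).inv) ≫
        (X ◁ B.γ X ≫ (α_ X Y X).inv) ▷ Y := by
    rw [HB.tensor_γ, B.mon]; monoidal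
  have e2 : A.γ (X ⊗ Y) ≫ X ◁ X ◁ B.θ ≫ X ◁ B.γ X ≫ (α_ X Y X).inv
      = (X ◁ B.θ ≫ B.γ X) ▷ X ≫ ((α_ Y X X).hom ≫ Y ◁ A.γ X ≫
        (α_ Y X X).inv) ≫ A.γ Y ▷ X := by
    rw [← whiskerLeft_comp_assoc, ← Category.assoc, ← A.nat, A.mon]
    monoidal
  change pt (X ⊗ Y) ((A.tensor B).γ (X ⊗ Y)) = _
  rw [pt_tensor, e1, pt_pre, pt_post, ← whiskerLeft_pt, ← whiskerLeft_pt]
  change pt X (A.γ (X ⊗ Y) ≫ X ◁ X ◁ B.θ ≫ X ◁ B.γ X ≫ (α_ X Y X).inv) = _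
  rw [e2, pt_pre, pt_post, ← whiskerLeft_pt]
  change (X ◁ B.θ ≫ B.γ X) ≫ Y ◁ A.θ ≫ A.γ Y = _
  rw [Category.assoc, ← reassoc_of% (B.nat A.θ)]

lemma HB.exists_θ_inv {X : C} (A : HB X) : ∃ ψ : X ⟶ X, ψ ≫ A.θ = 𝟙 _ := by
  refine ⟨𝟙 _ ⊗≫ co X ▷ X ⊗≫ dual X ◁ A.inv X ⊗≫ ε_ X (dual X) ▷ X ⊗≫ 𝟙 _, ?_⟩
  have h := pass A (A := 𝟙_ C) (B := X ⊗ dual X) X (𝟙 _ ⊗≫ X ◁ co X ⊗≫ 𝟙 _)
  have h1 : pt X (𝟙 _ ⊗≫ X ◁ co X ⊗≫ 𝟙 _ : 𝟙_ C ⊗ X ⟶ (X ⊗ dual X) ⊗ X)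
      = η_ X (dual X) := by
    rw [pt_def]
    calc _ = η_ X (dual X) ⊗≫ X ◁ (co X ▷ dual X ⊗≫ dual X ◁ ev X) ⊗≫ 𝟙 _ := by
          monoidal
      _ = _ := by rw [zag]; monoidal
  rw [h1] at h
  rw [HB.θ, ← pt_pre, A.nat]
  calc _ = pt X ((λ_ X).inv ▷ X ≫ ((α_ (𝟙_ C) X X).hom ≫ 𝟙_ C ◁ A.γ X ≫
        (α_ (𝟙_ C) X X).inv ≫ (𝟙 _ ⊗≫ X ◁ co X ⊗≫ 𝟙 _) ▷ X ≫
        (α_ (X ⊗ dual X) X X).hom ≫ (X ⊗ dual X) ◁ A.inv X ≫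
        (α_ (X ⊗ dual X) X X).inv) ≫
        ((α_ _ _ _).hom ≫ X ◁ ε_ X (dual X) ≫ (ρ_ _).hom) ▷ X) := by
        refine congrArg _ ?_
        monoidal
    _ = 𝟙 _ ⊗≫ (η_ X (dual X) ▷ X ⊗≫ X ◁ ε_ X (dual X)) ⊗≫ 𝟙 _ := by
        rw [pt_pre, pt_post, ← h]; monoidal
    _ = _ := by rw [evaluation_coevaluation'']; monoidal

lemma HB.isUnit_θ {X : C} (A : HB X) : IsUnit (End.of A.θ) := by
  obtain ⟨ψ, h⟩ := A.exists_θ_inv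
  have : FiniteDimensional ℂ (End X) := finHom _ _
  have h1 : End.of A.θ * End.of ψ = 1 := h
  have : IsArtinianRing (End X) := IsArtinianRing.of_finite ℂ _
  exact IsUnit.of_mul_eq_one _ h1

instance HB.isIso_θ {X : C} (A : HB X) : IsIso A.θ := (isUnit_iff_isIso _).mp A.isUnit_θ

end Pool.Agent.Lib.MP_152d63_al
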