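import Mathlib

namespace Pool.Agent.Lib.MP_152d63_al

universe v

theorem l_exists_mu {θ : ℂ} (h0 : θ ≠ 0) (h : ∀ n : ℕ, 0 < n → θ ^ n ≠ 1) :
    ∃ μ : ℂ → ℂ, μ θ = 1 ∧ μ 1 = 0 ∧ ∀ a b : ℂ, a ≠ 0 → b ≠ 0 → μ (a * b) = μ a + μ b := by
  classical
  let u : ℂˣ := Units.mk0 θ h0
  have hu : ¬ IsOfFinOrder u := by
    intro hfin
    obtain ⟨n, hn, hn'⟩ := isOfFinOrder_iff_pow_eq_one.mp hfin
    apply h n hn
    have := congrArg (fun x : ℂˣ => (x : ℂ)) hn'
    simpa [u] using this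
  let f : ℤ →+ Additive ℂˣ := zmultiplesHom (Additive ℂˣ) (Additive.ofMul u)
  have hf : Function.Injective f := by
    intro a b hab
    have h1 : u ^ a = u ^ b := by
      have := congrArg Additive.toMul hab
      simpa [f] using this
    exact (injective_zpow_iff_not_isOfFinOrder.mpr hu) h1
  obtain ⟨g, hg⟩ := (Module.Baer.of_divisible ℚ).extension_property_addMonoidHom f hf
    (Int.castAddHom ℚ)
  refine ⟨fun z => if hz : z = 0 then 0 else ((g (Additive.ofMul (Units.mk0 z hz)) : ℚ) : ℂ),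
    ?_, ?_, ?_⟩
  · have h1 : g (f 1) = 1 := by
      have := DFunLike.congr_fun hg 1
      simpa using this
    have h2 : f 1 = Additive.ofMul u := by simp [f]
    rw [h2] at h1
    simp only [h0, dite_false]
    show ((g (Additive.ofMul u) : ℚ) : ℂ) = 1
    rw [h1]; simp
  · simp only [one_ne_zero, dite_false]
    have : Units.mk0 (1 : ℂ) one_ne_zero = 1 := by ext; simp
    rw [this]; simp
  · intro a b ha hb
    simp only [ha, hb, mul_ne_zero ha hb, dite_false]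
    have : Units.mk0 (a * b) (mul_ne_zero ha hb) = Units.mk0 a ha * Units.mk0 b hb := by
      ext; simp
    rw [this, ofMul_mul, map_add]
    push_cast
    rfl

theorem l_linInd : LinearIndependent ℂ (fun z : ℂ => (fun n : ℕ => z ^ n)) := by
  have h1 := linearIndependent_monoidHom (Multiplicative ℕ) ℂ
  have h2 := h1.comp (powersHom ℂ) (powersHom ℂ).injective
  exact h2

theorem l_exists_Lambda (μ : ℂ → ℂ) :
    ∃ Λ : (ℕ → ℂ) →ₗ[ℂ] ℂ, ∀ z : ℂ, Λ (fun n => z ^ n) = μ z := by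
  obtain ⟨Λ, hΛ⟩ := LinearMap.exists_extend
    ((Finsupp.linearCombination ℂ μ) ∘ₗ l_linInd.repr)
  refine ⟨Λ, fun z => ?_⟩
  have hz : (fun n : ℕ => z ^ n) ∈
      Submodule.span ℂ (Set.range (fun z : ℂ => (fun n : ℕ => z ^ n))) :=
    Submodule.subset_span ⟨z, rfl⟩
  have h1 := DFunLike.congr_fun hΛ ⟨_, hz⟩
  simp only [LinearMap.comp_apply, Submodule.subtype_apply] at h1
  rw [h1, l_linInd.repr_eq_single z ⟨_, hz⟩ rfl]
  simp

theorem l_trace_pow (H : Type v) [AddCommGroup H] [Module ℂ H] [FiniteDimensional ℂ H]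
    (φ : Module.End ℂ H) (n : ℕ) :
    LinearMap.trace ℂ H (φ ^ n) = (φ.charpoly.roots.map (fun z => z ^ n)).sum := by
  classical
  have hds := DirectSum.isInternal_submodule_of_iSupIndep_of_iSup_eq_top
    φ.independent_maxGenEigenspace (Module.End.iSup_maxGenEigenspace_eq_top φ)
  have h_fin : {μ | φ.maxGenEigenspace μ ≠ ⊥}.Finite :=
    WellFoundedGT.finite_ne_bot_of_iSupIndep φ.independent_maxGenEigenspace
  have hm : ∀ (k : ℕ) (μ : ℂ),
      Set.MapsTo (φ ^ k) ↑(φ.maxGenEigenspace μ) ↑(φ.maxGenEigenspace μ) :=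
    fun k μ => φ.mapsTo_maxGenEigenspace_of_comm (Commute.self_pow φ k) μ
  have hm1 : ∀ μ : ℂ, Set.MapsTo φ ↑(φ.maxGenEigenspace μ) ↑(φ.maxGenEigenspace μ) :=
    fun μ => φ.mapsTo_maxGenEigenspace_of_comm (Commute.refl φ) μ
  have key : ∀ (μ : ℂ) (k : ℕ), LinearMap.trace ℂ _ ((φ.restrict (hm1 μ)) ^ k) =
      μ ^ k * (φ.charpoly.rootMultiplicity μ : ℂ) := by
    intro μ k
    induction k with
    | zero => simp [LinearMap.finrank_maxGenEigenspace_eq]
    | succ k ih =>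
      have hn := φ.isNilpotent_restrict_maxGenEigenspace_sub_algebraMap μ
      have hc : Commute ((φ.restrict (hm1 μ)) ^ k) (φ.restrict (hm1 μ)) :=
        (Commute.self_pow _ k).symm
      have := LinearMap.trace_comp_eq_mul_of_commute_of_isNilpotent μ hc hn
      rw [pow_succ, Module.End.mul_eq_comp, this, ih]
      ring
  rw [LinearMap.trace_eq_sum_trace_restrict' hds h_fin (hm n)]
  have e1 : ∀ μ : ℂ, LinearMap.trace ℂ _ ((φ ^ n).restrict (hm n μ)) =
      μ ^ n * (φ.charpoly.rootMultiplicity μ : ℂ) := by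
    intro μ
    rw [← key μ n, Module.End.pow_restrict]
  simp_rw [e1]
  rw [Finset.sum_multiset_map_count]
  have hne : φ.charpoly ≠ 0 := φ.charpoly_monic.ne_zero
  have hset : h_fin.toFinset = φ.charpoly.roots.toFinset := by
    ext μ
    simp only [Set.Finite.mem_toFinset, Set.mem_ofPred_eq, Multiset.mem_toFinset]
    rw [Polynomial.mem_roots hne, ← Polynomial.rootMultiplicity_pos hne,
      ← LinearMap.finrank_maxGenEigenspace_eq, Module.finrank_pos_iff,
      Submodule.nontrivial_iff_ne_bot]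
  rw [hset]
  refine Finset.sum_congr rfl fun μ _ => ?_
  rw [Polynomial.count_roots, nsmul_eq_mul, mul_comm]

theorem l_mu_prod (μ : ℂ → ℂ) (h1 : μ 1 = 0)
    (hμ : ∀ a b : ℂ, a ≠ 0 → b ≠ 0 → μ (a * b) = μ a + μ b) (s : Multiset ℂ)
    (hs : s.prod ≠ 0) : μ s.prod = (s.map μ).sum := by
  induction s using Multiset.induction_on with
  | empty => simpa using h1
  | cons a s ih =>
    rw [Multiset.prod_cons] at hs
    rw [Multiset.prod_cons, hμ a _ (left_ne_zero_of_mul hs) (right_ne_zero_of_mul hs),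
      ih (right_ne_zero_of_mul hs), Multiset.map_cons, Multiset.sum_cons]

theorem l_Lambda_sum (Λ : (ℕ → ℂ) →ₗ[ℂ] ℂ) (s : Multiset ℂ) :
    Λ (fun n => (s.map (fun z => z ^ n)).sum) = (s.map (fun z => Λ (fun n => z ^ n))).sum := by
  induction s using Multiset.induction_on with
  | empty =>
    simp only [Multiset.map_zero, Multiset.sum_zero]
    exact map_zero Λ
  | cons a s ih =>
    simp only [Multiset.map_cons, Multiset.sum_cons]
    rw [← ih, ← map_add]
    rfl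

theorem exists_logdet {θ : ℂ} (h0 : θ ≠ 0) (h : ∀ n : ℕ, 0 < n → θ ^ n ≠ 1) :
    ∃ Λ : (ℕ → ℂ) →ₗ[ℂ] ℂ, Λ (fun n => θ ^ n) = 1 ∧
      ∀ (H : Type v) [AddCommGroup H] [Module ℂ H] [FiniteDimensional ℂ H]
        (φ ψ : Module.End ℂ H), IsUnit φ → IsUnit ψ →
        Λ (fun n => LinearMap.trace ℂ H ((φ * ψ) ^ n)) =
          Λ (fun n => LinearMap.trace ℂ H (φ ^ n)) + Λ (fun n => LinearMap.trace ℂ H (ψ ^ n)) := by
  obtain ⟨μ, hθ, h1, hμ⟩ := l_exists_mu h0 h
  obtain ⟨Λ, hΛ⟩ := l_exists_Lambda μ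
  refine ⟨Λ, by rw [hΛ, hθ], ?_⟩
  intro H _ _ _ φ ψ hφ hψ
  have hdet : ∀ χ : Module.End ℂ H, IsUnit χ → LinearMap.det χ ≠ 0 :=
    fun χ hχ => (LinearMap.isUnit_det χ hχ).ne_zero
  have main : ∀ χ : Module.End ℂ H, IsUnit χ →
      Λ (fun n => LinearMap.trace ℂ H (χ ^ n)) = μ (LinearMap.det χ) := by
    intro χ hχ
    have hp : LinearMap.det χ = χ.charpoly.roots.prod :=
      Module.End.det_eq_prod_roots_charpoly_of_splits (IsAlgClosed.splits _)
    have hd := hdet χ hχ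
    rw [hp] at hd
    rw [hp, l_mu_prod μ h1 hμ _ hd]
    simp_rw [l_trace_pow]
    rw [l_Lambda_sum]
    simp_rw [hΛ]
  rw [main _ (hφ.mul hψ), main _ hφ, main _ hψ, map_mul, hμ _ _ (hdet _ hφ) (hdet _ hψ)]

end Pool.Agent.Lib.MP_152d63_al
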