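import Mathlib
import Pool.Agent.Lib.MP_152d63_al.GoodChar

namespace Pool.Agent.Lib.MP_152d63_al

/-- Every automorphism of the field of algebraic numbers extends to the complex numbers. -/
theorem n_lift (s : algebraicClosure ℚ ℂ ≃ₐ[ℚ] algebraicClosure ℚ ℂ) :
    ∃ σ : ℂ ≃+* ℂ, ∀ k : algebraicClosure ℚ ℂ, σ (k : ℂ) = (s k : ℂ) := by
  obtain ⟨S, hv⟩ := exists_isTranscendenceBasis (algebraicClosure ℚ ℂ) ℂ
  have := IsAlgClosed.isAlgClosure_of_transcendence_basis _ hv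
  let e : Algebra.adjoin (algebraicClosure ℚ ℂ) (Set.range ((↑) : S → ℂ)) ≃+*
      Algebra.adjoin (algebraicClosure ℚ ℂ) (Set.range ((↑) : S → ℂ)) :=
    hv.1.aevalEquiv.symm.toRingEquiv.trans
      ((MvPolynomial.mapEquiv S s.toRingEquiv).trans hv.1.aevalEquiv.toRingEquiv)
  refine ⟨IsAlgClosure.equivOfEquiv ℂ ℂ e, fun k => ?_⟩
  have h1 := IsAlgClosure.equivOfEquiv_algebraMap ℂ ℂ e (algebraMap _ _ k)
  have h2 : e (algebraMap _ _ k) = algebraMap _ _ (s k) := by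
    have a1 : hv.1.aevalEquiv.symm (algebraMap _ _ k) = MvPolynomial.C k :=
      hv.1.aevalEquiv.symm.commutes k
    have a2 : hv.1.aevalEquiv (MvPolynomial.C (s k)) = algebraMap _ _ (s k) :=
      hv.1.aevalEquiv.commutes (s k)
    show hv.1.aevalEquiv ((MvPolynomial.mapEquiv S s.toRingEquiv)
      (hv.1.aevalEquiv.symm (algebraMap _ _ k))) = _
    rw [a1, ← a2]
    congr 1
    simp
  rw [h2] at h1
  exact h1

/-- An algebraic integer fixed by all automorphisms of the complex numbers is an integer. -/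
theorem n_fixed_int {z : ℂ} (hz : IsIntegral ℤ z) (hfix : ∀ σ : ℂ ≃+* ℂ, σ z = z) :
    ∃ k : ℤ, z = (k : ℂ) := by
  have hq : IsIntegral ℚ z := hz.tower_top
  have hmem : z ∈ algebraicClosure ℚ ℂ := (mem_algebraicClosure_iff).mpr hq.isAlgebraic
  have : IsAlgClosure ℚ (algebraicClosure ℚ ℂ) := algebraicClosure.isAlgClosure ℚ ℂ
  have : IsGalois ℚ (algebraicClosure ℚ ℂ) := IsAlgClosure.isGalois ℚ _
  obtain ⟨q, hq'⟩ := (InfiniteGalois.mem_range_algebraMap_iff_fixed (k := ℚ)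
    (⟨z, hmem⟩ : algebraicClosure ℚ ℂ)).2 fun s => by
      obtain ⟨σ, hσ⟩ := n_lift s
      apply Subtype.ext
      rw [← hσ]
      exact hfix σ
  have hz' : z = algebraMap ℚ ℂ q := by
    have := congrArg (Subtype.val) hq'
    exact this.symm
  rw [hz'] at hz
  have hq2 : IsIntegral ℤ q :=
    (isIntegral_algebraMap_iff (algebraMap ℚ ℂ).injective).mp hz
  obtain ⟨k, hk⟩ := IsIntegrallyClosed.isIntegral_iff.mp hq2
  refine ⟨k, ?_⟩
  rw [hz', ← hk]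
  simp

theorem GoodChar.map {ι : Type} [Fintype ι] {o : ι} {N : ι → ι → ι → ℕ} {χ : ι → ℂ}
    (h : GoodChar o N χ) (σ : ℂ ≃+* ℂ) : GoodChar o N (fun i => σ (χ i)) where
  one := by simp [h.one]
  mul i j := by
    have e := congrArg σ (h.mul i j)
    simpa only [map_sum, map_mul, map_natCast] using e
  reg i j := by
    have e := congrArg σ (h.reg i j)
    simpa only [map_sum, map_mul, map_natCast] using e
  reg' i j := by
    have e := congrArg σ (h.reg' i j)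
    simpa only [map_sum, map_mul, map_natCast] using e

theorem GoodChar.isIntegral {ι : Type} [Fintype ι] {o : ι} {N : ι → ι → ι → ℕ} {χ : ι → ℂ}
    (h : GoodChar o N χ) (i : ι) : IsIntegral ℤ (χ i) := by
  refine isIntegral_of_smul_mem_submodule (Submodule.span ℤ (Set.range χ)) ?_
    (Submodule.fg_span (Set.finite_range χ)) (χ i) ?_
  · intro hb
    have : χ o ∈ Submodule.span ℤ (Set.range χ) := Submodule.subset_span ⟨o, rfl⟩
    rw [hb, h.one] at this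
    simp at this
  · intro x hx
    induction hx using Submodule.span_induction with
    | mem x hx =>
      obtain ⟨j, rfl⟩ := hx
      rw [smul_eq_mul, ← h.mul]
      refine Submodule.sum_mem _ fun k _ => ?_
      have : (N i j k : ℂ) * χ k = (N i j k : ℤ) • χ k := by simp
      rw [this]
      exact Submodule.smul_mem _ _ (Submodule.subset_span ⟨k, rfl⟩)
    | zero => simp
    | add x y _ _ hx hy => rw [smul_add]; exact Submodule.add_mem _ hx hy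
    | smul a x _ hx => rw [smul_comm]; exact Submodule.smul_mem _ _ hx

theorem GoodChar.isIntegral_sum_sq {ι : Type} [Fintype ι] {o : ι} {N : ι → ι → ι → ℕ}
    {χ : ι → ℂ} (h : GoodChar o N χ) : IsIntegral ℤ (∑ i, χ i ^ 2) :=
  IsIntegral.sum _ fun i _ => (h.isIntegral i).pow 2

/-- The real number with the same value as the sum of squares of a good character. -/
noncomputable def nF {ι : Type} [Fintype ι] (χ : ι → ℂ) : ℝ := ∑ i, (χ i).re ^ 2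

theorem GoodChar.nF_eq {ι : Type} [Fintype ι] {o : ι} {N : ι → ι → ι → ℕ} {χ : ι → ℂ}
    (h : GoodChar o N χ) : ((nF χ : ℝ) : ℂ) = ∑ i, χ i ^ 2 := by
  unfold nF
  push_cast
  exact Finset.sum_congr rfl fun i _ => by rw [h.re_eq]

theorem GoodChar.one_le_nF {ι : Type} [Fintype ι] {o : ι} {N : ι → ι → ι → ℕ} {χ : ι → ℂ}
    (h : GoodChar o N χ) : 1 ≤ nF χ := by
  have h1 : (χ o).re ^ 2 ≤ ∑ i, (χ i).re ^ 2 :=
    Finset.single_le_sum (f := fun i => (χ i).re ^ 2) (fun i _ => sq_nonneg _) (Finset.mem_univ o)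
  rw [h.one] at h1
  simpa [nF] using h1

theorem GoodChar.orth_re {ι : Type} [Fintype ι] {o : ι} {N : ι → ι → ι → ℕ} {χ ψ : ι → ℂ}
    (h : GoodChar o N χ) (h' : GoodChar o N ψ) (hne : χ ≠ ψ) :
    ∑ i, (χ i).re * (ψ i).re = 0 := by
  have e : ((∑ i, (χ i).re * (ψ i).re : ℝ) : ℂ) = ∑ i, χ i * ψ i := by
    push_cast
    exact Finset.sum_congr rfl fun i _ => by rw [h.re_eq, h'.re_eq]
  rw [h.orth h' hne] at e
  exact_mod_cast e

theorem n_bessel_real {ι : Type} [Fintype ι] (o : ι) (p q r : ι → ℝ) (α β γ : ℝ)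
    (hpq : ∑ i, p i * q i = 0) (hpr : ∑ i, p i * r i = 0) (hqr : ∑ i, q i * r i = 0) :
    (α * p o + β * q o + γ * r o) ^ 2
      ≤ α ^ 2 * ∑ i, p i ^ 2 + β ^ 2 * ∑ i, q i ^ 2 + γ ^ 2 * ∑ i, r i ^ 2 := by
  have h1 : (α * p o + β * q o + γ * r o) ^ 2 ≤ ∑ i, (α * p i + β * q i + γ * r i) ^ 2 :=
    Finset.single_le_sum (f := fun i => (α * p i + β * q i + γ * r i) ^ 2)
      (fun i _ => sq_nonneg _) (Finset.mem_univ o)
  have h2 : ∑ i, (α * p i + β * q i + γ * r i) ^ 2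
      = α ^ 2 * ∑ i, p i ^ 2 + β ^ 2 * ∑ i, q i ^ 2 + γ ^ 2 * ∑ i, r i ^ 2
        + 2 * α * β * ∑ i, p i * q i + 2 * α * γ * ∑ i, p i * r i
        + 2 * β * γ * ∑ i, q i * r i := by
    simp only [Finset.mul_sum, ← Finset.sum_add_distrib]
    exact Finset.sum_congr rfl fun i _ => by ring
  rw [h2, hpq, hpr, hqr] at h1
  simpa using h1

theorem n_bessel3 {ι : Type} [Fintype ι] {o : ι} {N : ι → ι → ι → ℕ} {χ ψ φ : ι → ℂ}
    (h1 : GoodChar o N χ) (h2 : GoodChar o N ψ) (h3 : GoodChar o N φ)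
    (h12 : χ ≠ ψ) (h13 : χ ≠ φ) (h23 : ψ ≠ φ) :
    (nF χ)⁻¹ + (nF ψ)⁻¹ + (nF φ)⁻¹ ≤ 1 := by
  have h := n_bessel_real o (fun i => (χ i).re) (fun i => (ψ i).re) (fun i => (φ i).re)
    (nF χ)⁻¹ (nF ψ)⁻¹ (nF φ)⁻¹ (h1.orth_re h2 h12) (h1.orth_re h3 h13) (h2.orth_re h3 h23)
  have p1 : 0 < nF χ := lt_of_lt_of_le one_pos h1.one_le_nF
  have p2 : 0 < nF ψ := lt_of_lt_of_le one_pos h2.one_le_nF
  have p3 : 0 < nF φ := lt_of_lt_of_le one_pos h3.one_le_nF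
  simp only [h1.one, h2.one, h3.one, Complex.one_re, mul_one] at h
  change _ ≤ (nF χ)⁻¹ ^ 2 * nF χ + (nF ψ)⁻¹ ^ 2 * nF ψ + (nF φ)⁻¹ ^ 2 * nF φ at h
  have e1 : (nF χ)⁻¹ ^ 2 * nF χ = (nF χ)⁻¹ := by field_simp
  have e2 : (nF ψ)⁻¹ ^ 2 * nF ψ = (nF ψ)⁻¹ := by field_simp
  have e3 : (nF φ)⁻¹ ^ 2 * nF φ = (nF φ)⁻¹ := by field_simp
  rw [e1, e2, e3] at h
  have p : 0 < (nF χ)⁻¹ + (nF ψ)⁻¹ + (nF φ)⁻¹ := by positivity
  nlinarith

theorem n_bessel2 {ι : Type} [Fintype ι] {o : ι} {N : ι → ι → ι → ℕ} {χ ψ : ι → ℂ}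
    (h1 : GoodChar o N χ) (h2 : GoodChar o N ψ) (h12 : χ ≠ ψ) :
    (nF χ)⁻¹ + (nF ψ)⁻¹ ≤ 1 := by
  have h := n_bessel_real o (fun i => (χ i).re) (fun i => (ψ i).re) (fun _ => 0)
    (nF χ)⁻¹ (nF ψ)⁻¹ 0 (h1.orth_re h2 h12) (by simp) (by simp)
  have p1 : 0 < nF χ := lt_of_lt_of_le one_pos h1.one_le_nF
  have p2 : 0 < nF ψ := lt_of_lt_of_le one_pos h2.one_le_nF
  simp only [h1.one, h2.one, Complex.one_re, mul_one, mul_zero, add_zero] at h
  change _ ≤ (nF χ)⁻¹ ^ 2 * nF χ + (nF ψ)⁻¹ ^ 2 * nF ψ + 0 ^ 2 * _ at h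
  have e1 : (nF χ)⁻¹ ^ 2 * nF χ = (nF χ)⁻¹ := by field_simp
  have e2 : (nF ψ)⁻¹ ^ 2 * nF ψ = (nF ψ)⁻¹ := by field_simp
  rw [e1, e2] at h
  have p : 0 < (nF χ)⁻¹ + (nF ψ)⁻¹ := by positivity
  nlinarith

theorem n_indicator {κ : Type} [Fintype κ] (c : κ → ℕ) (h : ∑ Y, c Y * c Y = 1) :
    ∃ Y₀, c Y₀ = 1 ∧ ∀ Y, Y ≠ Y₀ → c Y = 0 := by
  classical
  obtain ⟨Y₀, -, hY⟩ : ∃ Y ∈ Finset.univ, c Y * c Y ≠ 0 :=
    Finset.exists_ne_zero_of_sum_ne_zero (by rw [h]; exact one_ne_zero)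
  rw [← Finset.add_sum_erase _ _ (Finset.mem_univ Y₀)] at h
  have h1 : c Y₀ * c Y₀ = 1 := by omega
  have h2 : ∑ Y ∈ Finset.univ.erase Y₀, c Y * c Y = 0 := by omega
  refine ⟨Y₀, Nat.eq_one_of_mul_eq_one_right h1, fun Y hY' => ?_⟩
  have := (Finset.sum_eq_zero_iff.mp h2) Y (by simp [hY'])
  simpa using this

theorem n_core_real {κ : Type} [Fintype κ] (y t : κ → ℝ) (ht : ∀ Y, y Y ≠ 0 → -1 ≤ t Y)
    {Y₁ Y₂ : κ} (hne : Y₁ ≠ Y₂) (h1 : t Y₁ = 1) (h2 : t Y₂ = 1) :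
    2 * y Y₁ ^ 2 + 2 * y Y₂ ^ 2 ≤ ∑ Y, y Y ^ 2 * (1 + t Y) := by
  classical
  have hnn : ∀ Y, 0 ≤ y Y ^ 2 * (1 + t Y) := fun Y => by
    by_cases hy : y Y = 0
    · simp [hy]
    · have := ht Y hy
      have : 0 ≤ 1 + t Y := by linarith
      positivity
  have h := Finset.sum_le_sum_of_subset_of_nonneg (f := fun Y => y Y ^ 2 * (1 + t Y))
    (Finset.subset_univ ({Y₁, Y₂} : Finset κ)) (fun Y _ _ => hnn Y)
  rw [Finset.sum_pair hne, h1, h2] at h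
  linarith

end Pool.Agent.Lib.MP_152d63_al
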