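import Mathlib
import Pool.Agent.Lib.MP_152d63_al.GoodChar
import Pool.Agent.Lib.MP_152d63_al.NumGalois

namespace Pool.Agent.Lib.MP_152d63_al

/-- The value of a function on the object with multiplicities `n Y`. -/
noncomputable def nY {ι κ : Type} [Fintype ι] (n : κ → ι → ℕ) (χ : ι → ℂ) (Y : κ) : ℂ :=
  ∑ i, (n Y i : ℂ) * χ i

theorem nY_map {ι κ : Type} [Fintype ι] (n : κ → ι → ℕ) (χ : ι → ℂ) (σ : ℂ ≃+* ℂ) (Y : κ) :
    nY n (fun i => σ (χ i)) Y = σ (nY n χ Y) := by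
  simp only [nY, map_sum, map_mul, map_natCast]

theorem nY_re {ι κ : Type} [Fintype ι] {o : ι} {N : ι → ι → ι → ℕ} {χ : ι → ℂ}
    (h : GoodChar o N χ) (n : κ → ι → ℕ) (Y : κ) : (((nY n χ Y).re : ℝ) : ℂ) = nY n χ Y := by
  apply Complex.conj_eq_iff_re.mp
  simp only [nY, map_sum, map_mul, map_natCast, h.conj_eq]

theorem n_weight {ι κ : Type} [Fintype ι] [Fintype κ] (n : κ → ι → ℕ) (ψ : ι → ℂ) (g : κ → ℂ) :
    ∑ j, ψ j * ∑ Y, (n Y j : ℂ) * g Y = ∑ Y, nY n ψ Y * g Y := by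
  simp only [nY, Finset.mul_sum, Finset.sum_mul]
  rw [Finset.sum_comm]
  exact Finset.sum_congr rfl fun Y _ => Finset.sum_congr rfl fun j _ => by ring

theorem n_re_sum {κ : Type} [Fintype κ] (t : κ → ℂ) (P Q : κ → ℝ) (c : ℝ)
    (h : ∑ Y, t Y * (P Y : ℂ) * (Q Y : ℂ) = (c : ℂ)) : ∑ Y, (t Y).re * P Y * Q Y = c := by
  have e := congrArg Complex.re h
  simpa [Complex.re_sum] using e

theorem n_real_ineq {κ : Type} [Fintype κ] (P Q t : κ → ℝ) (D D' f : ℝ) (hD : 0 < D)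
    (hD' : 0 < D') (hf : 0 < f) (ht : ∀ Y, Q Y ≠ 0 ∨ P Y ≠ 0 → -1 ≤ t Y)
    (a1 : ∑ Y, P Y * P Y = D' * D') (a2 : ∑ Y, Q Y * Q Y = D * D) (a3 : ∑ Y, P Y * Q Y = 0)
    (b1 : ∑ Y, t Y * P Y * P Y = D') (b2 : ∑ Y, t Y * Q Y * P Y = D')
    (b3 : ∑ Y, t Y * Q Y * Q Y = D * (D / f))
    {Y₁ Y₂ : κ} (hne : Y₁ ≠ Y₂) (h1 : t Y₁ = 1) (h2 : t Y₂ = 1)
    (c1 : P Y₁ = 1) (c2 : Q Y₁ = 1) (c3 : P Y₂ = D' / D) (c4 : Q Y₂ = D / f) :
    2 * ((D⁻¹ - D'⁻¹) ^ 2 + (D⁻¹ - f⁻¹) ^ 2) ≤ 2 + D'⁻¹ + f⁻¹ - 2 * D⁻¹ := by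
  have h := n_core_real (fun Y => D'⁻¹ * P Y - D⁻¹ * Q Y) t (fun Y hY => ht Y (by
    by_contra hc
    push Not at hc
    exact hY (by simp [hc.1, hc.2]))) hne h1 h2
  have e : ∑ Y, (D'⁻¹ * P Y - D⁻¹ * Q Y) ^ 2 * (1 + t Y)
      = D'⁻¹ ^ 2 * ∑ Y, P Y * P Y + D⁻¹ ^ 2 * ∑ Y, Q Y * Q Y
        - 2 * D'⁻¹ * D⁻¹ * ∑ Y, P Y * Q Y + D'⁻¹ ^ 2 * ∑ Y, t Y * P Y * P Y
        + D⁻¹ ^ 2 * ∑ Y, t Y * Q Y * Q Y - 2 * D'⁻¹ * D⁻¹ * ∑ Y, t Y * Q Y * P Y := by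
    simp only [Finset.mul_sum, ← Finset.sum_add_distrib, ← Finset.sum_sub_distrib]
    exact Finset.sum_congr rfl fun Y _ => by ring
  rw [e, a1, a2, a3, b1, b2, b3, c1, c2, c3, c4] at h
  have e1 : 2 * (D'⁻¹ * 1 - D⁻¹ * 1) ^ 2 + 2 * (D'⁻¹ * (D' / D) - D⁻¹ * (D / f)) ^ 2
      = 2 * ((D⁻¹ - D'⁻¹) ^ 2 + (D⁻¹ - f⁻¹) ^ 2) := by
    field_simp
    ring
  have e2 : D'⁻¹ ^ 2 * (D' * D') + D⁻¹ ^ 2 * (D * D) - 2 * D'⁻¹ * D⁻¹ * 0 + D'⁻¹ ^ 2 * D'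
      + D⁻¹ ^ 2 * (D * (D / f)) - 2 * D'⁻¹ * D⁻¹ * D' = 2 + D'⁻¹ + f⁻¹ - 2 * D⁻¹ := by
    field_simp
    ring
  rw [e1, e2] at h
  exact h

theorem n_key {ι κ : Type} [Fintype ι] [Fintype κ] (o : ι) (N : ι → ι → ι → ℕ) (d : ι → ℂ)
    (hd : GoodChar o N d) (n : κ → ι → ℕ) (θ : κ → ℂ)
    (hθ : ∀ Y, nY n d Y ≠ 0 → ∃ r : ℕ, 0 < r ∧ θ Y ^ r = 1)
    (m : (ι → ℂ) → κ → ℕ)
    (hm1 : ∀ χ, GoodChar o N χ → ∑ Y, m χ Y * m χ Y = 1)
    (hm0 : ∀ χ ψ, GoodChar o N χ → GoodChar o N ψ → χ ≠ ψ → ∑ Y, m χ Y * m ψ Y = 0)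
    (hmθ : ∀ χ, GoodChar o N χ → ∀ Y, m χ Y ≠ 0 → θ Y = 1)
    (hS : ∀ j, ∑ Y, (n Y j : ℂ) * nY n d Y = (∑ i, d i ^ 2) * d j)
    (hT : ∀ ψ : ι → ℂ, ∑ Y, θ Y * nY n ψ Y * nY n d Y = (∑ i, d i ^ 2) * ψ o)
    (hX : ∀ χ, GoodChar o N χ → ∀ j, ∑ Y, θ Y * (n Y j : ℂ) * nY n χ Y
      = (∑ i, χ i ^ 2) * ∑ Y, (n Y j : ℂ) * (m χ Y : ℂ))
    (σ : ℂ ≃+* ℂ) (hσ : (fun i => σ (d i)) ≠ d) :
    2 * (((nF d)⁻¹ - (nF fun i => σ (d i))⁻¹) ^ 2 + ((nF d)⁻¹ - (nF fun i => σ.symm (d i))⁻¹) ^ 2)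
      ≤ 2 + (nF fun i => σ (d i))⁻¹ + (nF fun i => σ.symm (d i))⁻¹ - 2 * (nF d)⁻¹ := by
  classical
  set sd : ι → ℂ := fun i => σ (d i) with hsd
  set χ : ι → ℂ := fun i => σ.symm (d i) with hχ
  have gs : GoodChar o N sd := hd.map σ
  have gχ : GoodChar o N χ := hd.map σ.symm
  have hχd : χ ≠ d := by
    intro h
    apply hσ
    funext i
    have := congrFun h i
    simp only [hχ] at this
    show σ (d i) = d i
    conv_lhs => rw [← this]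
    simp
  have hD := hd.nF_eq
  have hD' := gs.nF_eq
  have hf := gχ.nF_eq
  have pD : 0 < nF d := lt_of_lt_of_le one_pos hd.one_le_nF
  have pD' : 0 < nF sd := lt_of_lt_of_le one_pos gs.one_le_nF
  have pf : 0 < nF χ := lt_of_lt_of_le one_pos gχ.one_le_nF
  have nD : ((nF d : ℝ) : ℂ) ≠ 0 := by exact_mod_cast pD.ne'
  have nf : ((nF χ : ℝ) : ℂ) ≠ 0 := by exact_mod_cast pf.ne'
  have sD : σ ((nF d : ℝ) : ℂ) = ((nF sd : ℝ) : ℂ) := by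
    rw [hD, hD']
    simp only [map_sum, map_pow, hsd]
  have sf : σ ((nF χ : ℝ) : ℂ) = ((nF d : ℝ) : ℂ) := by
    rw [hD, hf]
    simp only [map_sum, map_pow, hχ, RingEquiv.apply_symm_apply]
  have sy : ∀ Y, σ (nY n d Y) = nY n sd Y := fun Y => (nY_map n d σ Y).symm
  have sx : ∀ Y, σ (nY n χ Y) = nY n d Y := fun Y => by
    rw [hχ, nY_map]
    simp
  rw [← hD] at hS hT
  have A1 : ∀ ψ : ι → ℂ, ∑ Y, nY n ψ Y * nY n d Y = (nF d : ℂ) * ∑ j, ψ j * d j := by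
    intro ψ
    rw [← n_weight, Finset.mul_sum]
    exact Finset.sum_congr rfl fun j _ => by rw [hS]; ring
  have A2 : ∑ Y, nY n d Y * nY n d Y = (nF d : ℂ) * (nF d : ℂ) := by
    rw [A1, hD]
    congr 1
    exact Finset.sum_congr rfl fun j _ => by ring
  have A3 : ∑ Y, nY n sd Y * nY n sd Y = (nF sd : ℂ) * (nF sd : ℂ) := by
    have e := congrArg σ A2
    simpa only [map_sum, map_mul, sy, sD] using e
  have A4 : ∑ Y, nY n sd Y * nY n d Y = 0 := by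
    rw [A1, gs.orth hd hσ, mul_zero]
  have B1 : ∑ Y, σ (θ Y) * nY n sd Y * nY n sd Y = (nF sd : ℂ) := by
    have e := congrArg σ (hT d)
    simpa only [map_sum, map_mul, sy, sD, hd.one, map_one, mul_one] using e
  have B2 : ∑ Y, σ (θ Y) * nY n d Y * nY n sd Y = (nF sd : ℂ) := by
    have e := congrArg σ (hT χ)
    simpa only [map_sum, map_mul, sy, sx, sD, gχ.one, map_one, mul_one] using e
  have C0 : ∀ φ, GoodChar o N φ → ∀ Y₀, m φ Y₀ = 1 → (∀ Y, Y ≠ Y₀ → m φ Y = 0) →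
      ∀ ψ : ι → ℂ, ∑ Y, θ Y * nY n ψ Y * nY n φ Y = (nF φ : ℂ) * nY n ψ Y₀ := by
    intro φ gφ Y₀ h1 h0 ψ
    have e1 : ∑ Y, θ Y * nY n ψ Y * nY n φ Y = ∑ Y, nY n ψ Y * (θ Y * nY n φ Y) :=
      Finset.sum_congr rfl fun Y _ => by ring
    have e2 : ∀ j, ∑ Y, (n Y j : ℂ) * (θ Y * nY n φ Y) = (nF φ : ℂ) * (n Y₀ j : ℂ) := by
      intro j
      have e3 : ∑ Y, (n Y j : ℂ) * (m φ Y : ℂ) = (n Y₀ j : ℂ) := by
        rw [Finset.sum_eq_single Y₀ (fun Y _ hY => by simp [h0 Y hY]) (by simp), h1]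
        simp
      rw [gφ.nF_eq, ← e3, ← hX φ gφ j]
      exact Finset.sum_congr rfl fun Y _ => by ring
    rw [e1, ← n_weight, nY, Finset.mul_sum]
    exact Finset.sum_congr rfl fun j _ => by rw [e2]; ring
  obtain ⟨Y₁, m1, z1⟩ := n_indicator _ (hm1 d hd)
  obtain ⟨Y₂, m2, z2⟩ := n_indicator _ (hm1 χ gχ)
  have hne : Y₁ ≠ Y₂ := by
    intro h
    have e := (Finset.sum_eq_zero_iff.mp (hm0 χ d gχ hd hχd)) Y₁ (Finset.mem_univ _)
    rw [m1, h, m2] at e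
    simp at e
  have t1 : θ Y₁ = 1 := hmθ d hd Y₁ (by rw [m1]; exact one_ne_zero)
  have t2 : θ Y₂ = 1 := hmθ χ gχ Y₂ (by rw [m2]; exact one_ne_zero)
  have C3 : ∀ ψ : ι → ℂ, nY n ψ Y₁ = ψ o := fun ψ =>
    mul_left_cancel₀ nD ((C0 d hd Y₁ m1 z1 ψ).symm.trans (hT ψ))
  have C1 : (nF χ : ℂ) * nY n d Y₂ = (nF d : ℂ) := by
    have e := hT χ
    rw [gχ.one, mul_one] at e
    rw [← C0 χ gχ Y₂ m2 z2 d, ← e]
    exact Finset.sum_congr rfl fun Y _ => by ring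
  have C1' : (nF d : ℂ) * nY n sd Y₂ = (nF sd : ℂ) := by
    have e := congrArg σ C1
    simpa only [map_mul, sf, sy, sD] using e
  have C4 : nY n d Y₂ = ((nF d / nF χ : ℝ) : ℂ) := by
    push_cast
    rw [eq_div_iff nf, mul_comm, C1]
  have C5 : nY n sd Y₂ = ((nF sd / nF d : ℝ) : ℂ) := by
    push_cast
    rw [eq_div_iff nD, mul_comm, C1']
  have C2 : ∑ Y, σ (θ Y) * nY n d Y * nY n d Y = ((nF d * (nF d / nF χ) : ℝ) : ℂ) := by
    have e := congrArg σ (C0 χ gχ Y₂ m2 z2 χ)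
    simp only [map_sum, map_mul, sx, sf] at e
    rw [e, C4]
    push_cast
    ring
  have rP := nY_re gs n
  have rQ := nY_re hd n
  refine n_real_ineq (fun Y => (nY n sd Y).re) (fun Y => (nY n d Y).re) (fun Y => (σ (θ Y)).re)
    _ _ _ pD pD' pf ?_ ?_ ?_ ?_ ?_ ?_ ?_ hne ?_ ?_ ?_ ?_ ?_ ?_
  · intro Y hY
    have h0 : nY n d Y ≠ 0 := by
      intro h
      rcases hY with hY | hY
      · exact hY (by simp [h])
      · exact hY (by simp [← sy, h])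
    obtain ⟨r, hr, e⟩ := hθ Y h0
    have e' : σ (θ Y) ^ r = 1 := by rw [← map_pow, e, map_one]
    have e'' : ‖σ (θ Y)‖ = 1 := Complex.norm_eq_one_of_pow_eq_one e' hr.ne'
    have := Complex.abs_re_le_norm (σ (θ Y))
    rw [e''] at this
    exact (abs_le.mp this).1
  · apply Complex.ofReal_injective
    push_cast
    simp only [rP]
    exact A3
  · apply Complex.ofReal_injective
    push_cast
    simp only [rQ]
    exact A2
  · apply Complex.ofReal_injective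
    push_cast
    simp only [rP, rQ]
    exact A4
  · exact n_re_sum _ _ _ _ (by simp only [rP]; exact B1)
  · exact n_re_sum _ _ _ _ (by simp only [rP, rQ]; exact B2)
  · exact n_re_sum _ _ _ _ (by simp only [rQ]; exact C2)
  · simp [t1]
  · simp [t2]
  · simp only [C3, gs.one, Complex.one_re]
  · simp only [C3, hd.one, Complex.one_re]
  · simp only [C5, Complex.ofReal_re]
  · simp only [C4, Complex.ofReal_re]

theorem n_no_int (D : ℝ) (h1 : (5 - Real.sqrt 5) / 2 < D) (h2 : D < Real.sqrt 2) :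
    1.38 < D ∧ D < 1.415 ∧ 5 < D * (5 - D) := by
  have s5 : Real.sqrt 5 ^ 2 = 5 := Real.sq_sqrt (by norm_num)
  have s2 : Real.sqrt 2 < 1.415 := by
    rw [Real.sqrt_lt' (by norm_num)]
    norm_num
  have s5' : Real.sqrt 5 < 2.24 := by
    rw [Real.sqrt_lt' (by norm_num)]
    norm_num
  have s5'' : 2.2 < Real.sqrt 5 := by
    rw [Real.lt_sqrt (by norm_num)]
    norm_num
  refine ⟨by linarith, by linarith, ?_⟩
  have p1 : 0 < D - (5 - Real.sqrt 5) / 2 := by linarith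
  have p2 : 0 < (5 + Real.sqrt 5) / 2 - D := by linarith
  nlinarith [mul_pos p1 p2]

/-- TASK N (file Numerics.lean). -/
theorem numerics {ι κ : Type} [Fintype ι] [Fintype κ] (o : ι) (N : ι → ι → ι → ℕ) (d : ι → ℂ)
    (hd : GoodChar o N d) (n : κ → ι → ℕ) (θ : κ → ℂ)
    (hθ : ∀ Y, (∑ i, (n Y i : ℂ) * d i) ≠ 0 → ∃ r : ℕ, 0 < r ∧ θ Y ^ r = 1)
    (m : (ι → ℂ) → κ → ℕ)
    (hm1 : ∀ χ, GoodChar o N χ → ∑ Y, m χ Y * m χ Y = 1)
    (hm0 : ∀ χ ψ, GoodChar o N χ → GoodChar o N ψ → χ ≠ ψ → ∑ Y, m χ Y * m ψ Y = 0)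
    (hmθ : ∀ χ, GoodChar o N χ → ∀ Y, m χ Y ≠ 0 → θ Y = 1)
    (hS : ∀ j, ∑ Y, (n Y j : ℂ) * (∑ i, (n Y i : ℂ) * d i) = (∑ i, d i ^ 2) * d j)
    (hT : ∀ ψ : ι → ℂ, ∑ Y, θ Y * (∑ j, (n Y j : ℂ) * ψ j) * (∑ i, (n Y i : ℂ) * d i)
      = (∑ i, d i ^ 2) * ψ o)
    (hX : ∀ χ, GoodChar o N χ → ∀ j, ∑ Y, θ Y * (n Y j : ℂ) * (∑ i, (n Y i : ℂ) * χ i)
      = (∑ i, χ i ^ 2) * ∑ Y, (n Y j : ℂ) * (m χ Y : ℂ)) :
    ∃ x : ℝ, ∑ i, d i ^ 2 = (x : ℂ) ∧ (x ≤ (5 - Real.sqrt 5) / 2 ∨ Real.sqrt 2 ≤ x) := by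
  refine ⟨nF d, hd.nF_eq.symm, ?_⟩
  by_contra hc
  push Not at hc
  obtain ⟨l1, l2, l3⟩ := n_no_int _ hc.1 hc.2
  let F : (ℂ ≃+* ℂ) → ℝ := fun σ => nF fun i => σ (d i)
  have hF : ∀ σ : ℂ ≃+* ℂ, σ ((nF d : ℝ) : ℂ) = ((F σ : ℝ) : ℂ) := fun σ => by
    rw [hd.nF_eq, (hd.map σ).nF_eq]
    simp only [map_sum, map_pow]
  have pF : ∀ σ, 0 < F σ := fun σ => lt_of_lt_of_le one_pos (hd.map σ).one_le_nF
  have pD : 0 < nF d := by linarith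
  have ne1 : ∀ σ, F σ ≠ nF d → (fun i => σ (d i)) ≠ d := fun σ h e => h (by
    simp only [F]; rw [e])
  have ne2 : ∀ σ τ, F σ ≠ F τ → (fun i => σ (d i)) ≠ (fun i => τ (d i)) := fun σ τ h e => h (by
    simp only [F]; rw [e])
  have hx : 0.7067 < (nF d)⁻¹ := by
    rw [lt_inv_comm₀ (by norm_num) pD]
    have : (1.415 : ℝ) < (0.7067 : ℝ)⁻¹ := by norm_num
    linarith
  have hx' : (nF d)⁻¹ < 0.725 := by
    rw [inv_lt_comm₀ pD (by norm_num)]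
    have : (0.725 : ℝ)⁻¹ < 1.38 := by norm_num
    linarith
  have up : ∀ σ, F σ ≠ nF d → (nF d)⁻¹ + (F σ)⁻¹ ≤ 1 := fun σ h =>
    n_bessel2 hd (hd.map σ) (ne1 σ h).symm
  have up3 : ∀ σ τ, F σ ≠ nF d → F τ ≠ nF d → F σ ≠ F τ →
      (nF d)⁻¹ + (F σ)⁻¹ + (F τ)⁻¹ ≤ 1 := fun σ τ h1 h2 h3 =>
    n_bessel3 hd (hd.map σ) (hd.map τ) (ne1 σ h1).symm (ne1 τ h2).symm (ne2 σ τ h3)
  have low : ∀ σ, F σ ≠ nF d → (nF d)⁻¹ - 1 / 2 ≤ (F σ)⁻¹ := by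
    intro σ h
    have k := n_key o N d hd n θ hθ m hm1 hm0 hmθ hS hT hX σ (ne1 σ h)
    change 2 * (((nF d)⁻¹ - (F σ)⁻¹) ^ 2 + ((nF d)⁻¹ - (F σ.symm)⁻¹) ^ 2)
      ≤ 2 + (F σ)⁻¹ + (F σ.symm)⁻¹ - 2 * (nF d)⁻¹ at k
    have h' : F σ.symm ≠ nF d := by
      intro e
      apply h
      have e1 := hF σ.symm
      rw [e] at e1
      have e2 := congrArg σ e1
      rw [RingEquiv.apply_symm_apply, hF] at e2
      exact_mod_cast e2.symm
    by_cases hab : F σ = F σ.symm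
    · rw [← hab] at k
      by_contra hl
      push Not at hl
      nlinarith
    · exfalso
      have u := up3 σ σ.symm h h' hab
      generalize (nF d)⁻¹ = x at *
      generalize (F σ)⁻¹ = a at *
      generalize (F σ.symm)⁻¹ = b at *
      have q1 : (2 * x - a - b) ^ 2 ≤ 2 * ((x - a) ^ 2 + (x - b) ^ 2) := by
        nlinarith [sq_nonneg (a - b)]
      have q2 : 1.12 ≤ 2 * x - a - b := by linarith
      nlinarith
  have uniq : ∀ σ τ, F σ ≠ nF d → F τ ≠ nF d → F σ = F τ := by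
    intro σ τ h1 h2
    by_contra h3
    have := up3 σ τ h1 h2 h3
    have := low σ h1
    have := low τ h2
    linarith
  have iD : IsIntegral ℤ ((nF d : ℝ) : ℂ) := by
    rw [hd.nF_eq]
    exact hd.isIntegral_sum_sq
  by_cases hall : ∀ σ, F σ = nF d
  · obtain ⟨k, hk⟩ := n_fixed_int iD fun σ => by rw [hF, hall]
    have hk' : nF d = (k : ℝ) := by exact_mod_cast hk
    have k1 : (1 : ℤ) < k := by
      have : (1 : ℝ) < k := by linarith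
      exact_mod_cast this
    have k2 : k < (2 : ℤ) := by
      have : (k : ℝ) < 2 := by linarith
      exact_mod_cast this
    omega
  · push Not at hall
    obtain ⟨σ, hσ⟩ := hall
    have iD' : IsIntegral ℤ ((F σ : ℝ) : ℂ) := by
      rw [(hd.map σ).nF_eq]
      exact (hd.map σ).isIntegral_sum_sq
    have perm : ∀ τ : ℂ ≃+* ℂ,
        (τ ((nF d : ℝ) : ℂ) = (nF d : ℝ) ∧ τ ((F σ : ℝ) : ℂ) = (F σ : ℝ)) ∨
        (τ ((nF d : ℝ) : ℂ) = (F σ : ℝ) ∧ τ ((F σ : ℝ) : ℂ) = (nF d : ℝ)) := by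
      intro τ
      have e1 := hF τ
      have e2 : τ ((F σ : ℝ) : ℂ) = ((F (σ.trans τ) : ℝ) : ℂ) := by
        rw [← hF, ← hF]
        rfl
      have e3 : F τ ≠ F (σ.trans τ) := by
        intro e
        rw [← e, ← e1] at e2
        exact hσ (by exact_mod_cast τ.injective e2)
      by_cases h1 : F τ = nF d
      · left
        refine ⟨by rw [e1, h1], ?_⟩
        rw [e2, uniq (σ.trans τ) σ (fun e => e3 (h1.trans e.symm)) hσ]
      · right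
        refine ⟨by rw [e1, uniq τ σ h1 hσ], ?_⟩
        by_cases h2 : F (σ.trans τ) = nF d
        · rw [e2, h2]
        · exact absurd (uniq τ (σ.trans τ) h1 h2) e3
    obtain ⟨T, hT'⟩ := n_fixed_int (iD.add iD') fun τ => by
      rcases perm τ with ⟨a, b⟩ | ⟨a, b⟩
      · rw [map_add, a, b]
      · rw [map_add, a, b, add_comm]
    obtain ⟨M, hM'⟩ := n_fixed_int (iD.mul iD') fun τ => by
      rcases perm τ with ⟨a, b⟩ | ⟨a, b⟩
      · rw [map_mul, a, b]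
      · rw [map_mul, a, b, mul_comm]
    have eT : nF d + F σ = (T : ℝ) := by exact_mod_cast hT'
    have eM : nF d * F σ = (M : ℝ) := by exact_mod_cast hM'
    have u1 := up σ hσ
    have u2 := low σ hσ
    have f1 : 3.4 < F σ := by
      have : (F σ)⁻¹ < (3.4 : ℝ)⁻¹ := by
        have : (0.2933 : ℝ) < (3.4 : ℝ)⁻¹ := by norm_num
        linarith
      exact (inv_lt_inv₀ (pF σ) (by norm_num)).mp this
    have f2 : F σ < 4.9 := by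
      have : (4.9 : ℝ)⁻¹ < (F σ)⁻¹ := by
        have : (4.9 : ℝ)⁻¹ < 0.2067 := by norm_num
        linarith
      exact (inv_lt_inv₀ (by norm_num) (pF σ)).mp this
    have T1 : (4 : ℤ) < T := by
      have : (4 : ℝ) < T := by linarith
      exact_mod_cast this
    have T2 : T < (7 : ℤ) := by
      have : (T : ℝ) < 7 := by linarith
      exact_mod_cast this
    have eF : F σ = T - nF d := by linarith
    rw [eF] at eM
    have hT56 : T = 5 ∨ T = 6 := by omega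
    rcases hT56 with rfl | rfl
    · push_cast at eM
      have M1 : (5 : ℤ) < M := by
        have : (5 : ℝ) < M := by linarith
        exact_mod_cast this
      have M2 : M < (6 : ℤ) := by
        have : (M : ℝ) < 6 := by nlinarith
        exact_mod_cast this
      omega
    · push_cast at eM
      have M1 : (6 : ℤ) < M := by
        have : (6 : ℝ) < M := by nlinarith
        exact_mod_cast this
      have M2 : M < (7 : ℤ) := by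
        have : (M : ℝ) < 7 := by nlinarith
        exact_mod_cast this
      omega

end Pool.Agent.Lib.MP_152d63_al
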