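import Pool.Agent.Lib.MP_152d63_al.Star
import Pool.Agent.Lib.MP_152d63_al.LogDet

/-! Twists are roots of unity. -/

namespace Pool.Agent.Lib.MP_152d63_al

open CategoryTheory MonoidalCategory Limits ExactPairing

universe v u

set_option linter.unusedSectionVars false

variable {C : Type u} [Category.{v} C] [Abelian C] [Linear ℂ C] [MonoidalCategory C]
  [MonoidalPreadditive C] [MonoidalLinear ℂ C] [RigidCategory C] [Ctx C]

open Ctx

/-- Powers of an endomorphism. -/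
def pw {U : C} (φ : U ⟶ U) : ℕ → (U ⟶ U)
  | 0 => 𝟙 U
  | n + 1 => pw φ n ≫ φ

lemma pw_nat {U V : C} {φ : U ⟶ U} {ψ : V ⟶ V} {f : U ⟶ V} (h : f ≫ ψ = φ ≫ f) (n : ℕ) :
    f ≫ pw ψ n = pw φ n ≫ f := by
  induction n with
  | zero => simp [pw]
  | succ n ih => rw [pw, pw, reassoc_of% ih, h, Category.assoc]

lemma pw_whiskerRight {U : C} (φ : U ⟶ U) (K : C) (n : ℕ) : pw (φ ▷ K) n = pw φ n ▷ K := by
  induction n with
  | zero => simp [pw]
  | succ n ih => rw [pw, pw, ih, comp_whiskerRight]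

lemma pw_whiskerLeft {U : C} (φ : U ⟶ U) (K : C) (n : ℕ) : pw (K ◁ φ) n = K ◁ pw φ n := by
  induction n with
  | zero => simp [pw]
  | succ n ih => rw [pw, pw, ih, whiskerLeft_comp]

lemma pw_smul_id (U : C) (s : ℂ) (n : ℕ) : pw (s • 𝟙 U) n = s ^ n • 𝟙 U := by
  induction n with
  | zero => simp [pw]
  | succ n ih => rw [pw, ih]; simp [smul_smul, pow_succ, mul_comm]

lemma rightComp_pw (W : C) {U : C} (φ : U ⟶ U) (n : ℕ) :
    Linear.rightComp ℂ W (pw φ n) = (Linear.rightComp ℂ W φ : Module.End ℂ (W ⟶ U)) ^ n := by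
  induction n with
  | zero => ext; simp [pw]
  | succ n ih => rw [pow_succ', ← ih]; ext; simp [pw]

lemma isUnit_rightComp (W : C) {U : C} (φ : U ⟶ U) [IsIso φ] :
    IsUnit (Linear.rightComp ℂ W φ : Module.End ℂ (W ⟶ U)) :=
  ⟨⟨_, Linear.rightComp ℂ W (inv φ), by ext; simp, by ext; simp⟩, rfl⟩

variable (Λ : (ℕ → ℂ) →ₗ[ℂ] ℂ)

/-- The logarithmic determinant of an endomorphism. -/
noncomputable def ell {U : C} (φ : U ⟶ U) : ℂ := Λ fun n => Tr U (pw φ n)

lemma ell_eq_sum {U : C} (φ : U ⟶ U) : ell Λ φ = ∑ k, dm (S k) *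
    Λ fun n => LinearMap.trace ℂ _ ((Linear.rightComp ℂ (S k) φ : Module.End ℂ _) ^ n) := by
  have h : (fun n => Tr U (pw φ n)) = ∑ k, dm (S k) •
      fun n => LinearMap.trace ℂ _ ((Linear.rightComp ℂ (S k) φ : Module.End ℂ _) ^ n) := by
    funext n
    rw [Tr_eq_sum, Finset.sum_apply]
    refine Finset.sum_congr rfl fun k _ => ?_
    rw [trH_apply, rightComp_pw, Pi.smul_apply, smul_eq_mul, mul_comm]
  rw [ell, h, map_sum]
  simp only [map_smul, smul_eq_mul]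

lemma ell_conj {U V : C} (e : U ≅ V) {φ : U ⟶ U} {ψ : V ⟶ V} (h : e.hom ≫ ψ = φ ≫ e.hom) :
    ell Λ φ = ell Λ ψ := by
  unfold ell
  refine congrArg _ (funext fun n => ?_)
  rw [← Tr_conj e, reassoc_of% (pw_nat h n)]
  simp

lemma ell_whiskerRight {U : C} (φ : U ⟶ U) (K : C) : ell Λ (φ ▷ K) = dm K * ell Λ φ := by
  unfold ell
  rw [← smul_eq_mul, ← map_smul]
  refine congrArg _ (funext fun n => ?_)
  rw [pw_whiskerRight, Tr_whiskerRight]
  rfl

lemma ell_whiskerLeft {U : C} (φ : U ⟶ U) (K : C) : ell Λ (K ◁ φ) = dm K * ell Λ φ := by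
  unfold ell
  rw [← smul_eq_mul, ← map_smul]
  refine congrArg _ (funext fun n => ?_)
  rw [pw_whiskerLeft, Tr_whiskerLeft]
  rfl

lemma ell_smul_id (U : C) (s : ℂ) : ell Λ (s • 𝟙 U) = dm U * Λ fun n => s ^ n := by
  unfold ell
  rw [← smul_eq_mul, ← map_smul]
  refine congrArg _ (funext fun n => ?_)
  rw [pw_smul_id, map_smul, dm, Pi.smul_apply, smul_eq_mul, smul_eq_mul, mul_comm]

lemma ell_iso {X Y : C} {A : HB X} {B : HB Y} (e : X ≅ Y) (h : IsMor A B e.hom) :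
    ell Λ A.θ = ell Λ B.θ := ell_conj Λ e h.θ_nat

lemma ell_free (V : C) : ell Λ (free V).θ = ∑ k, (mult k V : ℂ) * ell Λ (free (S k)).θ := by
  have h := cyc_id (C := C) (fun U => Λ ∘ₗ LinearMap.pi fun n =>
    Tr (T U) ∘ₗ Linear.rightComp ℂ _ (pw (free U).θ n) ∘ₗ Tmap U U) (fun U U' f g => by
      simp only [LinearMap.comp_apply]
      refine congrArg _ (funext fun n => ?_)
      simp only [LinearMap.pi_apply, LinearMap.comp_apply, Linear.rightComp_apply, Tmap_comp,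
        Category.assoc]
      rw [Tr_comm, Category.assoc, pw_nat (isMor_Tmap f).θ_nat]) V
  have h2 : ∀ U : C, (Λ ∘ₗ LinearMap.pi fun n =>
      Tr (T U) ∘ₗ Linear.rightComp ℂ _ (pw (free U).θ n) ∘ₗ Tmap U U) (𝟙 U)
        = ell Λ (free U).θ := by
    intro U
    simp only [LinearMap.comp_apply]
    refine congrArg _ (funext fun n => ?_)
    simp only [LinearMap.pi_apply, LinearMap.comp_apply, Linear.rightComp_apply, Tmap_id,
      Category.id_comp]
  simpa only [h2, smul_eq_mul] using h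

lemma sum_ell_tensor_free {X : C} (A : HB X) :
    ∑ j, dm (S j) * ell Λ (A.tensor (free (S j))).θ
      = dm X * ∑ j : Ix C, dm (S j) * ell Λ (free (S j)).θ := by
  have h : ∀ j, ell Λ (A.tensor (free (S j))).θ
      = ∑ k, (mult k (X ⊗ S j) : ℂ) * ell Λ (free (S k)).θ := by
    intro j
    obtain ⟨e, he⟩ := exists_proj A (S j)
    rw [← ell_iso Λ e he, ell_free]
  simp only [h, Finset.mul_sum]
  rw [Finset.sum_comm]
  refine Finset.sum_congr rfl fun k _ => ?_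
  rw [← mul_assoc, ← sum_mult_right, Finset.sum_mul]
  refine Finset.sum_congr rfl fun j _ => ?_
  ring

variable (hΛ : ∀ (H : Type v) [AddCommGroup H] [Module ℂ H] [FiniteDimensional ℂ H]
  (φ ψ : Module.End ℂ H), IsUnit φ → IsUnit ψ →
    Λ (fun n => LinearMap.trace ℂ H ((φ * ψ) ^ n)) =
      Λ (fun n => LinearMap.trace ℂ H (φ ^ n)) + Λ (fun n => LinearMap.trace ℂ H (ψ ^ n)))

include hΛ

lemma ell_comp {U : C} (φ ψ : U ⟶ U) [IsIso φ] [IsIso ψ] :
    ell Λ (φ ≫ ψ) = ell Λ φ + ell Λ ψ := by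
  rw [ell_eq_sum, ell_eq_sum, ell_eq_sum, ← Finset.sum_add_distrib]
  refine Finset.sum_congr rfl fun k _ => ?_
  have h : (Linear.rightComp ℂ (S k) (φ ≫ ψ) : Module.End ℂ _)
      = Linear.rightComp ℂ (S k) ψ * Linear.rightComp ℂ (S k) φ := by ext; simp
  rw [h, hΛ _ _ _ (isUnit_rightComp _ ψ) (isUnit_rightComp _ φ)]
  ring

lemma ell_θ_tensor {X Y : C} (A : HB X) (B : HB Y) : ell Λ (A.tensor B).θ
    = dm X * ell Λ B.θ + dm Y * ell Λ A.θ + ell Λ (B.γ X ≫ A.γ Y) := by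
  rw [HB.θ_tensor, ell_comp Λ hΛ, ell_comp Λ hΛ, ell_whiskerLeft, ell_whiskerRight, add_assoc]

lemma ell_double_tensor {X Y Z : C} (A : HB X) (B : HB Y) (D : HB Z) :
    ell Λ ((B.tensor D).γ X ≫ A.γ (Y ⊗ Z))
      = dm Y * ell Λ (D.γ X ≫ A.γ Z) + dm Z * ell Λ (B.γ X ≫ A.γ Y) := by
  let e : (X ⊗ Y) ⊗ Z ≅ Y ⊗ X ⊗ Z := whiskerRightIso (B.iso X) Z ≪≫ α_ _ _ _
  have h1 : (α_ X Y Z).hom ≫ (B.tensor D).γ X ≫ A.γ (Y ⊗ Z)
      = ((e.hom ≫ Y ◁ (D.γ X ≫ A.γ Z) ≫ e.inv) ≫ (B.γ X ≫ A.γ Y) ▷ Z) ≫ (α_ X Y Z).hom := by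
    symm
    calc _ = B.γ X ▷ Z ⊗≫ Y ◁ (D.γ X ≫ A.γ Z) ⊗≫ (B.inv X ≫ B.γ X) ▷ Z ⊗≫ A.γ Y ▷ Z ⊗≫ 𝟙 _ := by
          simp only [e, HB.iso, Iso.trans_hom, Iso.trans_inv, whiskerRightIso_hom,
            whiskerRightIso_inv]
          monoidal
      _ = _ := by rw [B.inv_γ, HB.tensor_γ, A.mon]; monoidal
  rw [← ell_conj Λ (α_ X Y Z) h1, ell_comp Λ hΛ, ell_whiskerRight, ← ell_whiskerLeft Λ _ Y]
  refine congrArg (· + _) (ell_conj Λ e ?_)
  simp

lemma ell_θ_eq_zero {X : C} (A : HB X) : ell Λ A.θ = 0 := by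
  have hD : ∑ j : Ix C, dm (S j) * dm (T (S j)) = DD C * DD C := by
    calc _ = ∑ j : Ix C, dm (S j) ^ 2 * DD C :=
          Finset.sum_congr rfl fun j _ => by rw [dm_T]; ring
      _ = _ := by rw [← Finset.sum_mul]; rfl
  have h1 : ∑ j, dm (S j) * ell Λ ((free (S j)).γ X ≫ A.γ (T (S j)))
      = -(DD C * DD C) * ell Λ A.θ := by
    have h := sum_ell_tensor_free Λ A
    simp only [ell_θ_tensor Λ hΛ, mul_add, Finset.sum_add_distrib] at h
    rw [← hD, neg_mul, Finset.sum_mul]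
    have e1 : ∑ j : Ix C, dm (S j) * (dm X * ell Λ (free (S j)).θ)
        = dm X * ∑ j : Ix C, dm (S j) * ell Λ (free (S j)).θ := by
      rw [Finset.mul_sum]
      exact Finset.sum_congr rfl fun j _ => by ring
    have e2 : ∑ j : Ix C, dm (S j) * (dm (T (S j)) * ell Λ A.θ)
        = ∑ j : Ix C, dm (S j) * dm (T (S j)) * ell Λ A.θ :=
      Finset.sum_congr rfl fun j _ => by ring
    rw [e1, e2] at h
    linear_combination h
  have h2 : ∀ {Y : C} (B : HB Y), ell Λ (B.γ X ≫ A.γ Y) = 0 := by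
    intro Y B
    have e : ∀ j, ell Λ ((A.tensor B).tensor (free (S j))).θ
        = dm X * ell Λ (B.tensor (free (S j))).θ + dm Y * (dm (T (S j)) * ell Λ A.θ) +
          (dm Y * ell Λ ((free (S j)).γ X ≫ A.γ (T (S j))) +
            dm (T (S j)) * ell Λ (B.γ X ≫ A.γ Y)) := by
      intro j
      rw [ell_iso Λ _ (isMor_associator A B (free (S j))), ell_θ_tensor Λ hΛ A,
        ell_double_tensor Λ hΛ, dm_tensor]
      ring
    have h := sum_ell_tensor_free Λ (A.tensor B)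
    have h' := sum_ell_tensor_free Λ B
    have e3 : ∑ j, dm (S j) * ell Λ ((A.tensor B).tensor (free (S j))).θ
        = dm X * (∑ j, dm (S j) * ell Λ (B.tensor (free (S j))).θ) +
          dm Y * ((∑ j : Ix C, dm (S j) * dm (T (S j))) * ell Λ A.θ) +
          (dm Y * (∑ j, dm (S j) * ell Λ ((free (S j)).γ X ≫ A.γ (T (S j)))) +
            (∑ j : Ix C, dm (S j) * dm (T (S j))) * ell Λ (B.γ X ≫ A.γ Y)) := by
      simp only [Finset.mul_sum, Finset.sum_mul, ← Finset.sum_add_distrib]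
      exact Finset.sum_congr rfl fun j _ => by rw [e]; ring
    rw [e3, h', h1, hD, dm_tensor] at h
    have h3 : DD C * DD C * ell Λ (B.γ X ≫ A.γ Y) = 0 := by linear_combination h
    exact (mul_eq_zero.mp h3).resolve_left (mul_ne_zero DD_ne_zero DD_ne_zero)
  simp only [h2, mul_zero, Finset.sum_const_zero] at h1
  exact (mul_eq_zero.mp h1.symm).resolve_left
    (neg_ne_zero.mpr (mul_ne_zero DD_ne_zero DD_ne_zero))

omit hΛ in
/-- A scalar by which the twist acts on a summand of nonzero dimension is a root of unity. -/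
lemma root_of_unity {X : C} (A : HB X) {z : X ⟶ X} (hz : IsMor A A z) (hzz : z ≫ z = z)
    (hT : Tr X z ≠ 0) {s : ℂ} (hs : z ≫ A.θ = s • z) : ∃ r : ℕ, 0 < r ∧ s ^ r = 1 := by
  by_contra hcon
  push Not at hcon
  have h0 : s ≠ 0 := by
    rintro rfl
    have : z = 0 := by rw [← cancel_mono A.θ, hs, zero_comp, zero_smul]
    exact hT (by rw [this, map_zero])
  obtain ⟨Λ, h1, hΛ⟩ := exists_logdet.{v} h0 hcon
  obtain ⟨Z, i, r, hir, hri⟩ := IsIdempotentComplete.idempotents_split X z hzz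
  have hm : IsMor A A (r ≫ i) := hri ▸ hz
  have h2 := (isMor_split A i r hir hm).θ_nat
  have h3 : (A.split i r hir hm).θ = s • 𝟙 Z := by
    calc _ = (A.split i r hir hm).θ ≫ i ≫ r := by rw [hir, Category.comp_id]
      _ = i ≫ (r ≫ i) ≫ A.θ ≫ r := by
          rw [← reassoc_of% h2, Category.assoc, reassoc_of% hir]
      _ = _ := by
          rw [hri, reassoc_of% hs, ← hri]
          simp [hir]
  have h4 := ell_θ_eq_zero Λ hΛ (A.split i r hir hm)
  rw [h3, ell_smul_id, h1, mul_one, dm, ← hir, Tr_comm, hri] at h4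
  exact hT h4

end Pool.Agent.Lib.MP_152d63_al
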