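import Pool.Agent.Lib.MP_152d63_al.Bracket
import Pool.Agent.Lib.MP_152d63_al.Vafa
import Pool.Agent.Lib.MP_152d63_al.Blocks
import Pool.Agent.Lib.MP_152d63_al.Numerics

/-! The gap for global dimensions. -/

namespace Pool.Agent.Lib.MP_152d63_al

open CategoryTheory MonoidalCategory Limits ExactPairing

universe v u

set_option linter.unusedSectionVars false

variable {C : Type u} [Category.{v} C] [Abelian C] [Linear ℂ C] [MonoidalCategory C]
  [MonoidalPreadditive C] [MonoidalLinear ℂ C] [RigidCategory C] [Ctx C]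

open Ctx

attribute [local instance] Abelian.hasFiniteBiproducts

/-- The algebra of endomorphisms compatible with a half braiding. -/
def ZEnd {X : C} (H : HB X) : Subalgebra ℂ (End X) where
  carrier := {a | IsMor H H a}
  mul_mem' ha hb := IsMor.comp hb ha
  add_mem' ha hb := IsMor.add ha hb
  algebraMap_mem' c := (IsMor.id H).smul c

instance finEnd (X : C) : FiniteDimensional ℂ (End X) := finHom X X

/-- The underlying morphism of an element of `ZEnd`. -/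
def ZEnd.hom {X : C} {H : HB X} : ZEnd H →ₗ[ℂ] (X ⟶ X) := (ZEnd H).val.toLinearMap

lemma ZEnd.isMor {X : C} {H : HB X} (a : ZEnd H) : IsMor H H (ZEnd.hom a) := a.2

lemma ZEnd.hom_mul {X : C} {H : HB X} (a b : ZEnd H) :
    ZEnd.hom (a * b) = ZEnd.hom b ≫ ZEnd.hom a := rfl

lemma ZEnd.ext {X : C} {H : HB X} {a b : ZEnd H} (h : ZEnd.hom a = ZEnd.hom b) : a = b :=
  Subtype.ext h

/-- An element of `ZEnd` from a compatible morphism. -/
def ZEnd.mk {X : C} {H : HB X} (a : X ⟶ X) (ha : IsMor H H a) : ZEnd H := ⟨a, ha⟩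

lemma ZEnd.hom_mk {X : C} {H : HB X} (a : X ⟶ X) (ha : IsMor H H a) :
    ZEnd.hom (ZEnd.mk a ha) = a := rfl

lemma trace_transfer {U V V' : C} (i : V ⟶ U) (r : U ⟶ V) (i' : V' ⟶ U) (r' : U ⟶ V')
    (h' : i' ≫ r' = 𝟙 _) (h : i ≫ r = 𝟙 _) {x : T V ⟶ T V} (hx : IsMor (free V) (free V) x)
    {y : T V' ⟶ T V'} (hy : IsMor (free V') (free V') y)
    (Φ : (V ⟶ T V') →ₗ[ℂ] (V ⟶ T V'))
    (hΦ : ∀ φ, Φ φ = eta V ≫ x ≫ lift (free V') φ ≫ y) (a b : ZEnd (free U))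
    (ha : ZEnd.hom a = Tmap _ _ r' ≫ y ≫ Tmap _ _ i')
    (hb : ZEnd.hom b = Tmap _ _ r ≫ x ≫ Tmap _ _ i) :
    LinearMap.trace ℂ _ Φ
      = LinearMap.trace ℂ _ (LinearMap.mulLeft ℂ a ∘ₗ LinearMap.mulRight ℂ b) := by
  let E : (V ⟶ T V') →ₗ[ℂ] ZEnd (free U) :=
    { toFun := fun φ => ZEnd.mk (Tmap _ _ r ≫ x ≫ lift (free V') φ ≫ y ≫ Tmap _ _ i')
        ((isMor_Tmap r).comp (hx.comp ((isMor_lift _ φ).comp (hy.comp (isMor_Tmap i')))))
      map_add' := fun f g => ZEnd.ext (by simp [ZEnd.hom_mk])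
      map_smul' := fun c f => ZEnd.ext (by simp [ZEnd.hom_mk]) }
  let R : ZEnd (free U) →ₗ[ℂ] (V ⟶ T V') :=
    Linear.leftComp ℂ _ (eta V ≫ Tmap _ _ i) ∘ₗ Linear.rightComp ℂ _ (Tmap _ _ r') ∘ₗ ZEnd.hom
  have hE : ∀ φ, ZEnd.hom (E φ) = Tmap _ _ r ≫ x ≫ lift (free V') φ ≫ y ≫ Tmap _ _ i' :=
    fun _ => rfl
  have hR : ∀ c, R c = eta V ≫ Tmap _ _ i ≫ ZEnd.hom c ≫ Tmap _ _ r' := fun c => by simp [R]
  have e1 : Φ = R ∘ₗ E := by
    ext φ
    rw [LinearMap.comp_apply, hR, hE, hΦ]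
    simp only [Category.assoc]
    rw [← Tmap_comp, h', Tmap_id, Category.comp_id, ← reassoc_of% (Tmap_comp i r), h, Tmap_id,
      Category.id_comp]
  have e2 : LinearMap.mulLeft ℂ a ∘ₗ LinearMap.mulRight ℂ b = E ∘ₗ R := by
    refine LinearMap.ext fun c => ZEnd.ext ?_
    rw [LinearMap.comp_apply, LinearMap.comp_apply, hE, hR,
      ((isMor_Tmap i).comp ((ZEnd.isMor c).comp (isMor_Tmap r'))).lift_eta,
      LinearMap.mulLeft_apply, LinearMap.mulRight_apply, ZEnd.hom_mul, ZEnd.hom_mul, ha, hb]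
    simp only [Category.assoc]
  rw [e1, e2, LinearMap.trace_comp_comm']

/-- The idempotent attached to a character. -/
noncomputable def eχ (χ : Ix C → ℂ) : T (𝟙_ C) ⟶ T (𝟙_ C) :=
  (∑ i, χ i ^ 2)⁻¹ • ∑ i, χ i • xx (S i)

lemma isMor_sum {X Y : C} {A : HB X} {B : HB Y} {ι : Type} (s : Finset ι) (f : ι → (X ⟶ Y))
    (h : ∀ i, IsMor A B (f i)) : IsMor A B (∑ i ∈ s, f i) := by
  classical
  induction s using Finset.induction_on with
  | empty => rw [Finset.sum_empty]; exact IsMor.zero _ _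
  | insert a s ha ih => rw [Finset.sum_insert ha]; exact (h a).add ih

lemma isMor_eχ (χ : Ix C → ℂ) : IsMor (free _) (free _) (eχ χ) :=
  (isMor_sum _ _ fun _ => (isMor_xx _).smul _).smul _

lemma eχ_xx {χ : Ix C → ℂ} (h : GoodChar o (fus C) χ) (j : Ix C) :
    eχ χ ≫ xx (S j) = χ j • eχ χ := by
  rw [eχ, Linear.smul_comp, smul_comm]
  refine congrArg _ ?_
  simp only [Preadditive.sum_comp, Linear.smul_comp, xx_fus, Finset.smul_sum, smul_smul]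
  rw [Finset.sum_comm]
  refine Finset.sum_congr rfl fun k _ => ?_
  rw [← Finset.sum_smul, ← h.reg' j k]
  refine congrArg (· • _) (Finset.sum_congr rfl fun i _ => mul_comm _ _)

lemma eχ_eχ {χ : Ix C → ℂ} (h : GoodChar o (fus C) χ) (ψ : Ix C → ℂ) :
    eχ χ ≫ eχ ψ = ((∑ i, ψ i ^ 2)⁻¹ * ∑ i, χ i * ψ i) • eχ χ := by
  conv_lhs => rw [eχ.eq_1 ψ]
  simp only [Linear.comp_smul, Preadditive.comp_sum, eχ_xx h, smul_smul]
  rw [← Finset.sum_smul, smul_smul]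
  refine congrArg (· • _) (congrArg _ (Finset.sum_congr rfl fun i _ => mul_comm _ _))

lemma eχ_idem {χ : Ix C → ℂ} (h : GoodChar o (fus C) χ) : eχ χ ≫ eχ χ = eχ χ := by
  rw [eχ_eχ h]
  simp only [← sq]
  rw [inv_mul_cancel₀ h.sum_sq_ne_zero, one_smul]

lemma eχ_ne_zero {χ : Ix C → ℂ} (h : GoodChar o (fus C) χ) : eχ χ ≠ 0 := by
  intro h0
  rw [eχ, smul_eq_zero] at h0
  have h1 := sum_xx_eq_zero (h0.resolve_left (inv_ne_zero h.sum_sq_ne_zero)) o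
  rw [h.one] at h1
  exact one_ne_zero h1

lemma eχ_mor {χ : Ix C → ℂ} (h : GoodChar o (fus C) χ) {a : T (𝟙_ C) ⟶ T (𝟙_ C)}
    (ha : IsMor (free _) (free _) a) : ∃ c : ℂ, eχ χ ≫ a = c • eχ χ := by
  obtain ⟨c, rfl⟩ := ha.eq_sum_xx
  refine ⟨∑ k, c k * χ k, ?_⟩
  simp only [Linear.comp_smul, Preadditive.comp_sum, eχ_xx h, smul_smul, Finset.sum_smul]

/-- The operator attached to a pair of characters. -/
noncomputable def Φχ (χ ψ : Ix C → ℂ) : (𝟙_ C ⟶ T (𝟙_ C)) →ₗ[ℂ] (𝟙_ C ⟶ T (𝟙_ C)) :=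
  Linear.leftComp ℂ _ (eta _ ≫ eχ χ) ∘ₗ Linear.rightComp ℂ _ (eχ ψ) ∘ₗ lift (free _)

lemma Φχ_apply (χ ψ : Ix C → ℂ) (φ : 𝟙_ C ⟶ T (𝟙_ C)) :
    Φχ χ ψ φ = eta _ ≫ eχ χ ≫ lift (free _) φ ≫ eχ ψ := by simp [Φχ]

lemma trace_Φχ_ne {χ ψ : Ix C → ℂ} (h : GoodChar o (fus C) χ) (h' : GoodChar o (fus C) ψ)
    (hne : χ ≠ ψ) : LinearMap.trace ℂ _ (Φχ χ ψ) = 0 := by
  have : Φχ χ ψ = 0 := by
    ext φ
    obtain ⟨c, hc⟩ := eχ_mor h (isMor_lift (free _) φ)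
    rw [Φχ_apply, reassoc_of% hc, Linear.smul_comp, eχ_eχ h, h.orth h' hne]
    simp
  rw [this, map_zero]

lemma trace_Φχ {χ : Ix C → ℂ} (h : GoodChar o (fus C) χ) :
    LinearMap.trace ℂ _ (Φχ χ χ) = 1 := by
  have hne : eta _ ≫ eχ χ ≠ 0 := by
    intro h0
    apply eχ_ne_zero h
    rw [← (isMor_eχ χ).lift_eta, h0, map_zero]
  have hp : LinearMap.IsProj (ℂ ∙ (eta _ ≫ eχ χ)) (Φχ χ χ) := by
    constructor
    · intro φ
      obtain ⟨c, hc⟩ := eχ_mor h (isMor_lift (free _) φ)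
      rw [Φχ_apply, reassoc_of% hc, Linear.smul_comp, eχ_idem h, Linear.comp_smul]
      exact Submodule.smul_mem _ _ (Submodule.mem_span_singleton_self _)
    · intro φ hφ
      obtain ⟨c, rfl⟩ := Submodule.mem_span_singleton.mp hφ
      rw [map_smul, Φχ_apply, (isMor_eχ χ).lift_eta, eχ_idem h, eχ_idem h]
  rw [hp.trace, finrank_span_singleton hne, Nat.cast_one]

theorem gap : ∃ x : ℝ, DD C = (x : ℂ) ∧ (x ≤ (5 - Real.sqrt 5) / 2 ∨ Real.sqrt 2 ≤ x) := by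
  obtain ⟨U, ι, π, hιπ⟩ : ∃ (U : C) (ι : ∀ k : Ix C, S k ⟶ U) (π : ∀ k : Ix C, U ⟶ S k),
      ∀ k, ι k ≫ π k = 𝟙 _ :=
    ⟨⨁ S, biproduct.ι S, biproduct.π S, fun k => biproduct.ι_π_self _ _⟩
  obtain ⟨i0, r0, h0⟩ : ∃ (i0 : 𝟙_ C ⟶ U) (r0 : U ⟶ 𝟙_ C), i0 ≫ r0 = 𝟙 _ :=
    ⟨un.inv ≫ ι o, π o ≫ un.hom, by rw [Category.assoc, reassoc_of% (hιπ o), Iso.inv_hom_id]⟩
  obtain ⟨m, tr, z, h1, h2, h3, h4, -⟩ := exists_blocks (ZEnd (free U)) (Tr _ ∘ₗ ZEnd.hom)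
    (fun a ha => Tr_nilpotent a.1 (ha.map (ZEnd (free U)).val))
    (fun a ha => ZEnd.ext ((ZEnd.isMor a).eq_zero_of_Tr fun b hb => by
      rw [Tr_comm]
      exact ha (ZEnd.mk b hb)))
  obtain ⟨p, hp⟩ : ∃ p : Ix C → ZEnd (free U), ∀ k, ZEnd.hom (p k)
      = Tmap _ _ (π k) ≫ 𝟙 _ ≫ Tmap _ _ (ι k) :=
    ⟨fun k => ZEnd.mk _ ((isMor_Tmap _).comp ((IsMor.id _).comp (isMor_Tmap _))), fun _ => rfl⟩
  have hTιπ : ∀ k, Tmap _ _ (ι k) ≫ Tmap _ _ (π k) = 𝟙 _ := fun k => by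
    rw [← Tmap_comp, hιπ, Tmap_id]
  have hT0 : Tmap _ _ i0 ≫ Tmap _ _ r0 = 𝟙 _ := by rw [← Tmap_comp, h0, Tmap_id]
  have hpp : ∀ k, p k * p k = p k := fun k => ZEnd.ext (by
    rw [ZEnd.hom_mul, hp]
    simp only [Category.assoc, Category.id_comp]
    rw [reassoc_of% (hTιπ k)])
  choose nn hnn using fun Y k => h2 (p k) (hpp k) Y
  obtain ⟨t, ht⟩ : ∃ t : ZEnd (free U), ZEnd.hom t = (free U).θ :=
    ⟨ZEnd.mk _ (HB.isMor_θ _), rfl⟩
  have htc : ∀ a, t * a = a * t := fun a => ZEnd.ext (by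
    rw [ZEnd.hom_mul, ZEnd.hom_mul, ht, (ZEnd.isMor a).θ_nat])
  choose θ hθ1 hθ2 using h3 t htc
  obtain ⟨X, hX⟩ : ∃ X : Ix C → ZEnd (free U), ∀ k, ZEnd.hom (X k)
      = Tmap _ _ r0 ≫ xx (S k) ≫ Tmap _ _ i0 :=
    ⟨fun k => ZEnd.mk _ ((isMor_Tmap _).comp ((isMor_xx _).comp (isMor_Tmap _))), fun _ => rfl⟩
  obtain ⟨e, he⟩ : ∃ e : (Ix C → ℂ) → ZEnd (free U), ∀ χ, ZEnd.hom (e χ)
      = Tmap _ _ r0 ≫ eχ χ ≫ Tmap _ _ i0 :=
    ⟨fun χ => ZEnd.mk _ ((isMor_Tmap _).comp ((isMor_eχ _).comp (isMor_Tmap _))), fun _ => rfl⟩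
  have hee : ∀ χ, GoodChar o (fus C) χ → e χ * e χ = e χ := fun χ h => ZEnd.ext (by
    rw [ZEnd.hom_mul, he]
    simp only [Category.assoc]
    rw [reassoc_of% hT0, reassoc_of% (eχ_idem h)])
  have hex : ∀ χ Y, ∃ k : ℕ, GoodChar o (fus C) χ → tr Y (e χ) = k := by
    intro χ Y
    by_cases h : GoodChar o (fus C) χ
    · obtain ⟨k, hk⟩ := h2 _ (hee χ h) Y
      exact ⟨k, fun _ => hk⟩
    · exact ⟨0, fun h' => absurd h' h⟩
  choose mm hmm using hex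
  have hTr : ∀ a : ZEnd (free U), Tr _ (ZEnd.hom a)
      = ∑ Y, tr Y a * ∑ k, (nn Y k : ℂ) * dm (S k) := by
    intro a
    have hk : ∀ k, trH (S k) _ (ZEnd.hom a) = ∑ Y, tr Y a * nn Y k := by
      intro k
      rw [trH_apply, trace_transfer (ι k) (π k) (𝟙 U) (𝟙 U) (Category.id_comp _) (hιπ k)
        (IsMor.id _) (ZEnd.isMor a) _ (fun φ => by
          rw [Category.id_comp, reassoc_of% (eta_lift (free U) φ), Linear.rightComp_apply])
        a (p k) (by rw [Tmap_id]; simp) (hp k), h1]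
      simp only [hnn]
    rw [Tr_eq_sum]
    simp only [hk, Finset.sum_mul, Finset.mul_sum, mul_assoc]
    exact Finset.sum_comm
  have hmul : ∀ χ ψ, GoodChar o (fus C) χ → GoodChar o (fus C) ψ →
      ((∑ Y, mm χ Y * mm ψ Y : ℕ) : ℂ) = LinearMap.trace ℂ _ (Φχ χ ψ) := by
    intro χ ψ h h'
    rw [trace_transfer i0 r0 i0 r0 h0 h0 (isMor_eχ χ) (isMor_eχ ψ) _ (Φχ_apply χ ψ) (e ψ) (e χ)
      (he ψ) (he χ), h1]
    push_cast
    exact Finset.sum_congr rfl fun Y _ => by rw [hmm _ _ h, hmm _ _ h', mul_comm]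
  have htp : ∀ j, ZEnd.hom (t * p j) = Tmap _ _ (π j) ≫ (free (S j)).θ ≫ Tmap _ _ (ι j) := by
    intro j
    rw [ZEnd.hom_mul, hp, ht, ← (isMor_Tmap (ι j)).θ_nat]
    simp
  refine numerics o (fus C) (fun i => dm (S i)) (goodChar_dm C) nn θ ?_ mm ?_ ?_ ?_ ?_ ?_ ?_
  · intro Y hY
    refine root_of_unity (free U) (ZEnd.isMor (z Y)) ?_ ?_ ?_
    · rw [← ZEnd.hom_mul, (h4 Y).1]
    · rw [hTr, Finset.sum_eq_single Y (fun Y' _ h => by rw [(h4 Y).2.2 Y' h, zero_mul]) (by simp)]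
      exact mul_ne_zero (h4 Y).2.1 hY
    · rw [← ht, ← ZEnd.hom_mul, hθ1, map_smul]
  · intro χ h
    have := hmul χ χ h h
    rw [trace_Φχ h] at this
    exact_mod_cast this
  · intro χ ψ h h' hne
    have := hmul χ ψ h h'
    rw [trace_Φχ_ne h h' hne] at this
    exact_mod_cast this
  · intro χ h Y hY
    have e1 : t * e χ = e χ := ZEnd.ext (by
      rw [ZEnd.hom_mul, he, ht]
      simp only [Category.assoc]
      rw [(isMor_Tmap i0).θ_nat, θ_free_unit, Category.id_comp])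
    have e2 := hθ2 Y (e χ)
    rw [e1, hmm _ _ h] at e2
    have e3 : (mm χ Y : ℂ) ≠ 0 := by exact_mod_cast hY
    exact ((mul_eq_right₀ e3).mp e2.symm)
  · intro j
    have := hTr (p j)
    rw [hp, Category.id_comp, Tr_comm, hTιπ, ← dm, dm_T] at this
    simp only [hnn] at this
    exact this.symm
  · intro ψ
    have key : ∀ j, ∑ Y, θ Y * (nn Y j : ℂ) * ∑ k, (nn Y k : ℂ) * dm (S k)
        = if j = o then DD C else 0 := by
      intro j
      have := hTr (t * p j)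
      rw [htp, Tr_comm, Category.assoc, hTιπ, Category.comp_id, Tr_θ_free] at this
      simp only [hθ2, hnn] at this
      exact this.symm
    calc _ = ∑ j, ψ j * ∑ Y, θ Y * (nn Y j : ℂ) * ∑ k, (nn Y k : ℂ) * dm (S k) := by
          simp only [Finset.mul_sum _ _ (θ _), Finset.mul_sum _ _ (ψ _), Finset.sum_mul]
          rw [Finset.sum_comm]
          exact Finset.sum_congr rfl fun _ _ => Finset.sum_congr rfl fun _ _ => by ring
      _ = _ := by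
          simp only [key, mul_ite, mul_zero, Finset.sum_ite_eq', Finset.mem_univ, if_true]
          rw [mul_comm]; rfl
  · intro χ h j
    have key : ∀ i, ∑ Y, θ Y * (nn Y j : ℂ) * (nn Y i : ℂ) = ∑ Y, (nn Y j : ℂ) * tr Y (X i) := by
      intro i
      have e1 := trace_twist (S i) (S j)
      rw [trace_transfer (ι i) (π i) (ι j) (π j) (hιπ j) (hιπ i) (IsMor.id _) (HB.isMor_θ _) _
        (fun φ => by rw [Op_id, Category.id_comp, reassoc_of% (eta_lift (free (S j)) φ)])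
        (t * p j) (p i) (htp j) (hp i),
        trace_transfer i0 r0 (ι j) (π j) (hιπ j) h0 (isMor_xx (S i)) (IsMor.id _) _
        (fun φ => by rw [Op_apply, Category.comp_id, reassoc_of% (eta_xx (S i))])
        (p j) (X i) (hp j) (hX i), h1, h1] at e1
      simpa only [hθ2, hnn] using e1
    have e2 : ∑ i, χ i • X i = (∑ i, χ i ^ 2) • e χ := ZEnd.ext (by
      rw [map_smul, he, eχ, Linear.smul_comp, Linear.comp_smul, smul_smul,
        mul_inv_cancel₀ h.sum_sq_ne_zero, one_smul, map_sum, Preadditive.sum_comp,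
        Preadditive.comp_sum]
      refine Finset.sum_congr rfl fun i _ => ?_
      rw [map_smul, hX]
      simp)
    calc _ = ∑ i, χ i * ∑ Y, θ Y * (nn Y j : ℂ) * (nn Y i : ℂ) := by
          simp only [Finset.mul_sum]
          rw [Finset.sum_comm]
          exact Finset.sum_congr rfl fun _ _ => Finset.sum_congr rfl fun _ _ => by ring
      _ = ∑ Y, (nn Y j : ℂ) * tr Y (∑ i, χ i • X i) := by
          simp only [key, map_sum, map_smul, smul_eq_mul, Finset.mul_sum]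
          rw [Finset.sum_comm]
          exact Finset.sum_congr rfl fun _ _ => Finset.sum_congr rfl fun _ _ => by ring
      _ = _ := by
          rw [e2, Finset.mul_sum]
          exact Finset.sum_congr rfl fun Y _ => by
            rw [map_smul, hmm _ _ h, smul_eq_mul]; ring

end Pool.Agent.Lib.MP_152d63_al
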