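import Pool.Agent.Lib.MP_152d63_al.Defs

/-! Partial traces in a pivotal category. -/

namespace Pool.Agent.Lib.MP_152d63_al

open CategoryTheory MonoidalCategory Limits ExactPairing

universe v u

variable {C : Type u} [Category.{v} C] [MonoidalCategory C] [RigidCategory C]

lemma coev_dualMap {X Y : C} (f : X ⟶ Y) :
    η_ Y (dual Y) ≫ Y ◁ dualMap f = η_ X (dual X) ≫ f ▷ dual X :=
  @coevaluation_comp_rightAdjointMate C _ _ X Y (RightRigidCategory.rightDual X)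
    (RightRigidCategory.rightDual Y) f

lemma dualMap_ev {X Y : C} (f : X ⟶ Y) :
    dualMap f ▷ X ≫ ε_ X (dual X) = dual Y ◁ f ≫ ε_ Y (dual Y) :=
  @rightAdjointMate_comp_evaluation C _ _ X Y (RightRigidCategory.rightDual X)
    (RightRigidCategory.rightDual Y) f

lemma coev_dualTensor (X Y : C) :
    η_ (X ⊗ Y) (dual (X ⊗ Y)) ≫ (X ⊗ Y) ◁ (dualTensor X Y).hom
      = η_ X (dual X) ⊗≫ (X ◁ η_ Y (dual Y)) ▷ dual X ⊗≫ 𝟙 _ := by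
  have h := @coevaluation_comp_rightAdjointMate C _ _ (X ⊗ Y) (X ⊗ Y) ⟨dual Y ⊗ dual X⟩
    (RightRigidCategory.rightDual (X ⊗ Y)) (𝟙 _)
  rw [id_whiskerRight, Category.comp_id] at h
  exact h

lemma dualTensor_ev (X Y : C) :
    (dualTensor X Y).hom ▷ (X ⊗ Y) ≫ (𝟙 _ ⊗≫ dual Y ◁ (ε_ X (dual X) ▷ Y) ⊗≫ ε_ Y (dual Y))
      = ε_ (X ⊗ Y) (dual (X ⊗ Y)) := by
  have h := @rightAdjointMate_comp_evaluation C _ _ (X ⊗ Y) (X ⊗ Y) ⟨dual Y ⊗ dual X⟩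
    (RightRigidCategory.rightDual (X ⊗ Y)) (𝟙 _)
  rw [whiskerLeft_id, Category.id_comp] at h
  exact h

namespace Pivotal

variable (P : Pivotal C)

/-- The second evaluation `X ⊗ X* ⟶ 1`. -/
noncomputable def ev (X : C) : X ⊗ dual X ⟶ 𝟙_ C :=
  (P.δ X).hom ▷ dual X ≫ ε_ (dual X) (dual (dual X))

/-- The second coevaluation `1 ⟶ X* ⊗ X`. -/
noncomputable def co (X : C) : 𝟙_ C ⟶ dual X ⊗ X :=
  η_ (dual X) (dual (dual X)) ≫ dual X ◁ (P.δ X).inv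

lemma zig (X : C) : X ◁ P.co X ⊗≫ P.ev X ▷ X = ⊗𝟙.hom :=
  @coevaluation_evaluation'' C _ _ (dual X) X (exactPairingCongrRight (P.δ X))

lemma zag (X : C) : P.co X ▷ dual X ⊗≫ dual X ◁ P.ev X = ⊗𝟙.hom :=
  @evaluation_coevaluation'' C _ _ (dual X) X (exactPairingCongrRight (P.δ X))

lemma ev_nat {X Y : C} (g : X ⟶ Y) : X ◁ dualMap g ≫ P.ev X = g ▷ dual Y ≫ P.ev Y := by
  unfold ev
  rw [whisker_exchange_assoc, ← dualMap_ev, ← comp_whiskerRight_assoc, ← P.naturality,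
    comp_whiskerRight_assoc]

lemma ev_tensor (X Y : C) : (X ⊗ Y) ◁ (dualTensor X Y).inv ≫ P.ev (X ⊗ Y)
    = 𝟙 _ ⊗≫ X ◁ (P.ev Y ▷ dual X) ⊗≫ P.ev X := by
  unfold ev
  rw [whisker_exchange_assoc, ← dualMap_ev, ← dualTensor_ev, ← comp_whiskerRight_assoc,
    ← comp_whiskerRight_assoc, Category.assoc, P.tensor, tensorHom_def']
  calc _ = 𝟙 _ ⊗≫ X ◁ ((P.δ Y).hom ▷ dual Y) ▷ dual X ⊗≫
        ((P.δ X).hom ▷ (dual (dual Y) ⊗ dual Y) ≫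
          dual (dual X) ◁ ε_ (dual Y) (dual (dual Y))) ▷ dual X ⊗≫
        ε_ (dual X) (dual (dual X)) := by monoidal
    _ = _ := by rw [← whisker_exchange]; monoidal

/-- The right partial trace. -/
noncomputable def ptr {A B : C} (K : C) (f : A ⊗ K ⟶ B ⊗ K) : A ⟶ B :=
  (ρ_ A).inv ≫ A ◁ η_ K (dual K) ≫ (α_ A K (dual K)).inv ≫ f ▷ dual K ≫
    (α_ B K (dual K)).hom ≫ B ◁ P.ev K ≫ (ρ_ B).hom

lemma ptr_pre {A A' B : C} (K : C) (g : A' ⟶ A) (f : A ⊗ K ⟶ B ⊗ K) :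
    P.ptr K (g ▷ K ≫ f) = g ≫ P.ptr K f := by
  unfold ptr
  calc _ = 𝟙 _ ⊗≫ (A' ◁ η_ K (dual K) ≫ g ▷ (K ⊗ dual K)) ⊗≫ f ▷ dual K ⊗≫ B ◁ P.ev K ⊗≫ 𝟙 _ := by
        monoidal
    _ = _ := by rw [whisker_exchange]; monoidal

lemma ptr_post {A B B' : C} (K : C) (f : A ⊗ K ⟶ B ⊗ K) (h : B ⟶ B') :
    P.ptr K (f ≫ h ▷ K) = P.ptr K f ≫ h := by
  unfold ptr
  calc _ = 𝟙 _ ⊗≫ A ◁ η_ K (dual K) ⊗≫ f ▷ dual K ⊗≫ (h ▷ (K ⊗ dual K) ≫ B' ◁ P.ev K) ⊗≫ 𝟙 _ := by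
        monoidal
    _ = _ := by rw [← whisker_exchange]; monoidal

lemma whiskerLeft_ptr {A B : C} (Z K : C) (f : A ⊗ K ⟶ B ⊗ K) :
    Z ◁ P.ptr K f = P.ptr K ((α_ Z A K).hom ≫ Z ◁ f ≫ (α_ Z B K).inv) := by
  unfold ptr
  monoidal

lemma ptr_slide {A B K L : C} (g : K ⟶ L) (f : A ⊗ L ⟶ B ⊗ K) :
    P.ptr K (A ◁ g ≫ f) = P.ptr L (f ≫ B ◁ g) := by
  unfold ptr
  calc _ = 𝟙 _ ⊗≫ A ◁ (η_ K (dual K) ≫ g ▷ dual K) ⊗≫ f ▷ dual K ⊗≫ B ◁ P.ev K ⊗≫ 𝟙 _ := by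
        monoidal
    _ = 𝟙 _ ⊗≫ A ◁ η_ L (dual L) ⊗≫ ((A ⊗ L) ◁ dualMap g ≫ f ▷ dual K) ⊗≫ B ◁ P.ev K ⊗≫ 𝟙 _ := by
        rw [← coev_dualMap]; monoidal
    _ = 𝟙 _ ⊗≫ A ◁ η_ L (dual L) ⊗≫ f ▷ dual L ⊗≫ B ◁ (K ◁ dualMap g ≫ P.ev K) ⊗≫ 𝟙 _ := by
        rw [whisker_exchange]; monoidal
    _ = _ := by rw [P.ev_nat]; monoidal

lemma ptr_tensor {A B : C} (K L : C) (f : A ⊗ (K ⊗ L) ⟶ B ⊗ (K ⊗ L)) :
    P.ptr (K ⊗ L) f = P.ptr K (P.ptr L ((α_ A K L).hom ≫ f ≫ (α_ B K L).inv)) := by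
  unfold ptr
  calc _ = 𝟙 _ ⊗≫ A ◁ η_ (K ⊗ L) (dual (K ⊗ L)) ⊗≫ (f ▷ dual (K ⊗ L) ≫
          (B ⊗ K ⊗ L) ◁ (dualTensor K L).hom) ⊗≫
          B ◁ ((K ⊗ L) ◁ (dualTensor K L).inv ≫ P.ev (K ⊗ L)) ⊗≫ 𝟙 _ := by
        have : P.ev (K ⊗ L) = (K ⊗ L) ◁ ((dualTensor K L).hom ≫ (dualTensor K L).inv)
          ≫ P.ev (K ⊗ L) := by simp
        conv_lhs => rw [this]
        monoidal
    _ = 𝟙 _ ⊗≫ A ◁ (η_ (K ⊗ L) (dual (K ⊗ L)) ≫ (K ⊗ L) ◁ (dualTensor K L).hom) ⊗≫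
          f ▷ (dual L ⊗ dual K) ⊗≫
          B ◁ ((K ⊗ L) ◁ (dualTensor K L).inv ≫ P.ev (K ⊗ L)) ⊗≫ 𝟙 _ := by
        rw [← whisker_exchange]; monoidal
    _ = _ := by rw [coev_dualTensor, P.ev_tensor]; monoidal

lemma ptr_whiskerLeft (A : C) {K : C} (f : K ⟶ K) :
    P.ptr K (A ◁ f) = (ρ_ A).inv ≫ A ◁ (η_ K (dual K) ≫ f ▷ dual K ≫ P.ev K) ≫ (ρ_ A).hom := by
  unfold ptr
  monoidal

end Pivotal

end Pool.Agent.Lib.MP_152d63_al
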