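import Pool.Agent.Lib.MP_152d63_al.Trace
import Pool.Agent.Lib.MP_152d63_al.GoodChar

/-! Cyclic families of functionals, multiplicities and fusion rules. -/

namespace Pool.Agent.Lib.MP_152d63_al

open CategoryTheory MonoidalCategory Limits ExactPairing

universe v u

set_option linter.unusedSectionVars false

variable {C : Type u} [Category.{v} C] [Abelian C] [Linear ℂ C] [MonoidalCategory C]
  [MonoidalPreadditive C] [MonoidalLinear ℂ C] [RigidCategory C]

attribute [local instance] Abelian.hasFiniteBiproducts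

/-- The context attached to a spherical fusion category with a list of simples. -/
lemma exists_ctx (hC : IsFusion C) (P : Pivotal C) (hP : P.IsSpherical) (n : ℕ) (S : Fin n → C)
    (hS : IsListOfSimples S) :
    ∃ c : Ctx C, c.P = P ∧ ∃ h : c.n = n, ∀ i, c.S i = S (i.cast h) := by
  obtain ⟨o, ⟨e⟩⟩ := hS.complete _ hC.simple_unit
  refine ⟨⟨n, S, o, e.symm, P, hP, hC.finiteDimensional, ?_, ?_, ?_, ?_⟩, rfl, rfl, fun _ => rfl⟩
  · intro i f
    have := hS.simple i
    have := hC.finiteDimensional (S i) (S i)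
    obtain ⟨c, hc⟩ := endomorphism_simple_eq_smul_id ℂ f
    exact ⟨c, hc.symm⟩
  · intro i j hij f
    have := hS.simple i
    have := hS.simple j
    by_contra hf
    have := isIso_of_hom_simple hf
    exact hij (hS.distinct i j ⟨asIso f⟩)
  · intro i
    have := hS.simple i
    exact id_nonzero _
  · intro U
    obtain ⟨m, T, hT, ⟨e⟩⟩ := hC.semisimple U
    choose l hl using fun s => hS.complete (T s) (hT s)
    refine ⟨m, l, fun s => e.hom ≫ biproduct.π T s ≫ (hl s).some.hom,
      fun s => (hl s).some.inv ≫ biproduct.ι T s ≫ e.inv, ?_⟩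
    simp only [Category.assoc, Iso.hom_inv_id_assoc]
    rw [← Preadditive.comp_sum]
    simp only [← Category.assoc]
    rw [← Preadditive.sum_comp, biproduct.total]
    simp

lemma finrank_left (X A B : C) :
    Module.finrank ℂ (dual X ⊗ A ⟶ B) = Module.finrank ℂ (A ⟶ X ⊗ B) := by
  let e : (dual X ⊗ A ⟶ B) ≃ₗ[ℂ] (A ⟶ X ⊗ B) :=
    { tensorLeftHomEquiv A X (dual X) B with
      map_add' := by intro f g; simp [tensorLeftHomEquiv]
      map_smul' := by intro c f; simp [tensorLeftHomEquiv] }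
  exact e.finrank_eq

lemma finrank_right (X A B : C) :
    Module.finrank ℂ (A ⊗ X ⟶ B) = Module.finrank ℂ (A ⟶ B ⊗ dual X) := by
  let e : (A ⊗ X ⟶ B) ≃ₗ[ℂ] (A ⟶ B ⊗ dual X) :=
    { tensorRightHomEquiv A X (dual X) B with
      map_add' := by intro f g; simp [tensorRightHomEquiv, MonoidalPreadditive.add_whiskerRight]
      map_smul' := by intro c f; simp [tensorRightHomEquiv] }
  exact e.finrank_eq

variable [Ctx C]

open Ctx

/-- The trace of composition with an endomorphism on a space of morphisms. -/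
noncomputable def trH (W U : C) : (U ⟶ U) →ₗ[ℂ] ℂ :=
  LinearMap.trace ℂ (W ⟶ U) ∘ₗ (Linear.comp W U U).flip


lemma trH_apply (W : C) {U : C} (φ : U ⟶ U) :
    trH W U φ = LinearMap.trace ℂ (W ⟶ U) (Linear.rightComp ℂ W φ) := rfl

lemma trH_comm (W : C) {U V : C} (f : U ⟶ V) (g : V ⟶ U) :
    trH W U (f ≫ g) = trH W V (g ≫ f) := by
  have h1 : Linear.rightComp ℂ W (f ≫ g) = Linear.rightComp ℂ W g ∘ₗ Linear.rightComp ℂ W f := by
    ext; simp
  have h2 : Linear.rightComp ℂ W (g ≫ f) = Linear.rightComp ℂ W f ∘ₗ Linear.rightComp ℂ W g := by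
    ext; simp
  rw [trH_apply, trH_apply, h1, h2, LinearMap.trace_comp_comm']

/-- The multiplicity of a simple object. -/
noncomputable def mult (k : Ix C) (U : C) : ℕ := Module.finrank ℂ (S k ⟶ U)

lemma trH_id (k : Ix C) (U : C) : trH (S k) U (𝟙 U) = mult k U := by
  have h1 : Linear.rightComp ℂ (S k) (𝟙 U) = LinearMap.id := by ext; simp
  rw [trH_apply, h1, LinearMap.trace_id, mult]

lemma mult_S (k l : Ix C) : mult k (S l) = if k = l then 1 else 0 := by
  split_ifs with h
  · subst h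
    exact finrank_eq_one (𝟙 _) (ne k) fun f => by
      obtain ⟨c, hc⟩ := schur k f
      exact ⟨c, hc.symm⟩
  · have : Subsingleton (S k ⟶ S l) := subsingleton_of_forall_eq 0 (schur' k l h)
    exact Module.finrank_zero_of_subsingleton

/-- A cyclic family of linear maps is determined by its values on the simple objects. -/
lemma cyc_eq {M : Type*} [AddCommGroup M] [Module ℂ M] (τ : ∀ U : C, (U ⟶ U) →ₗ[ℂ] M)
    (hτ : ∀ (U V : C) (f : U ⟶ V) (g : V ⟶ U), τ U (f ≫ g) = τ V (g ≫ f)) {U : C} (φ : U ⟶ U) :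
    τ U φ = ∑ k, trH (S k) U φ • τ (S k) (𝟙 _) := by
  obtain ⟨m, l, p, q, h⟩ := res U
  choose c hc using fun s => schur (l s) (q s ≫ φ ≫ p s)
  have key : ∀ {M : Type _} [AddCommGroup M] [Module ℂ M] (τ : ∀ U : C, (U ⟶ U) →ₗ[ℂ] M)
      (_ : ∀ (U V : C) (f : U ⟶ V) (g : V ⟶ U), τ U (f ≫ g) = τ V (g ≫ f)),
      τ U φ = ∑ s, c s • τ (S (l s)) (𝟙 _) := by
    intro M _ _ τ hτ
    have : φ = ∑ s, p s ≫ q s ≫ φ := by
      simp only [← Category.assoc]
      rw [← Preadditive.sum_comp, h, Category.id_comp]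
    conv_lhs => rw [this]
    rw [map_sum]
    refine Finset.sum_congr rfl fun s _ => ?_
    rw [hτ, Category.assoc, hc, map_smul]
  have key2 : ∀ k, trH (S k) U φ = ∑ s, c s * (if k = l s then 1 else 0) := by
    intro k
    have : φ = ∑ s, p s ≫ q s ≫ φ := by
      simp only [← Category.assoc]
      rw [← Preadditive.sum_comp, h, Category.id_comp]
    conv_lhs => rw [this]
    rw [map_sum]
    refine Finset.sum_congr rfl fun s _ => ?_
    rw [trH_comm, Category.assoc, hc, map_smul, trH_id, mult_S]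
    simp
  rw [key τ hτ]
  simp only [key2, Finset.sum_smul]
  rw [Finset.sum_comm]
  refine Finset.sum_congr rfl fun s _ => ?_
  simp [ite_smul]

lemma cyc_id {M : Type*} [AddCommGroup M] [Module ℂ M] (τ : ∀ U : C, (U ⟶ U) →ₗ[ℂ] M)
    (hτ : ∀ (U V : C) (f : U ⟶ V) (g : V ⟶ U), τ U (f ≫ g) = τ V (g ≫ f)) (U : C) :
    τ U (𝟙 U) = ∑ k, (mult k U : ℂ) • τ (S k) (𝟙 _) := by
  rw [cyc_eq τ hτ]
  simp only [trH_id]

lemma Tr_eq_sum {U : C} (φ : U ⟶ U) : Tr U φ = ∑ k, trH (S k) U φ * dm (S k) :=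
  cyc_eq Tr (fun _ _ f g => Tr_comm f g) φ

lemma dm_eq_sum (U : C) : dm U = ∑ k, (mult k U : ℂ) * dm (S k) :=
  cyc_id Tr (fun _ _ f g => Tr_comm f g) U

lemma sum_mult_right (W : C) (k : Ix C) :
    ∑ j, (mult k (W ⊗ S j) : ℂ) * dm (S j) = dm W * dm (S k) := by
  rw [← dm_dual W, ← dm_tensor, dm_eq_sum]
  refine Finset.sum_congr rfl fun j _ => ?_
  rw [mult, mult, ← finrank_left, finrank_symm]

lemma sum_mult_left (W : C) (k : Ix C) :
    ∑ i, (mult k (S i ⊗ W) : ℂ) * dm (S i) = dm W * dm (S k) := by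
  rw [← dm_dual W, mul_comm, ← dm_tensor, dm_eq_sum]
  refine Finset.sum_congr rfl fun j _ => ?_
  rw [mult, mult, ← finrank_right, finrank_symm]

variable (C) in
/-- The fusion rules. -/
noncomputable def fus (i j k : Ix C) : ℕ := mult k (S i ⊗ S j)

variable (C) in
lemma goodChar_dm : GoodChar (o : Ix C) (fus C) (fun i => dm (S i)) where
  one := dm_o
  mul i j := by rw [← dm_tensor, dm_eq_sum]; rfl
  reg i k := sum_mult_right _ k
  reg' j k := sum_mult_left _ k

variable (C) in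
/-- The global dimension. -/
noncomputable def DD : ℂ := ∑ i : Ix C, dm (S i) ^ 2

lemma DD_ne_zero : DD C ≠ 0 := (goodChar_dm C).sum_sq_ne_zero

lemma Tr_nilpotent {U : C} (φ : End U) (h : IsNilpotent φ) : Tr U φ = 0 := by
  rw [Tr_eq_sum]
  refine Finset.sum_eq_zero fun k _ => ?_
  have h1 : IsNilpotent (Linear.rightComp ℂ (S k) (φ : U ⟶ U)) := by
    obtain ⟨r, hr⟩ := h
    refine ⟨r, ?_⟩
    have : ∀ r : ℕ, (Linear.rightComp ℂ (S k) (φ : U ⟶ U)) ^ r
        = Linear.rightComp ℂ (S k) ((φ ^ r : End U) : U ⟶ U) := by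
      intro r
      induction r with
      | zero => ext; simp
      | succ r ih => rw [pow_succ', ih, pow_succ']; ext; simp
    rw [this, hr]
    ext; simp
  rw [trH_apply, (LinearMap.isNilpotent_trace_of_isNilpotent h1).eq_zero, zero_mul]

end Pool.Agent.Lib.MP_152d63_al
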