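import Pool.Agent.Lib.MP_152d63_al.Free

/-! The trace form on endomorphisms of free half braidings. -/

namespace Pool.Agent.Lib.MP_152d63_al

open CategoryTheory MonoidalCategory Limits ExactPairing

universe v u

set_option linter.unusedSectionVars false

variable {C : Type u} [Category.{v} C] [Abelian C] [Linear ℂ C] [MonoidalCategory C]
  [MonoidalPreadditive C] [MonoidalLinear ℂ C] [RigidCategory C] [Ctx C]

open Ctx

/-- The evaluation of the dual object, transported along the pivotal structure. -/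
noncomputable def ee (X : C) : dual X ⊗ X ⟶ 𝟙_ C :=
  dual X ◁ ((Ctx.P (C := C)).δ X).hom ≫ ev (dual X)

lemma co_ee (X : C) : co X ≫ ee X = dm X • 𝟙 _ := by
  rw [← dm_dual, dm_spec, ee, co, Pivotal.co, Category.assoc, ← whiskerLeft_comp_assoc]
  simp

lemma pt_dual {A B : C} (X : C) (g : A ⊗ dual X ⟶ B ⊗ dual X) :
    pt (dual X) g = (ρ_ A).inv ≫ A ◁ co X ≫ (α_ _ _ _).inv ≫ g ▷ X ≫ (α_ _ _ _).hom ≫
      B ◁ ee X ≫ (ρ_ B).hom := by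
  rw [pt_def, ee, co, Pivotal.co]
  symm
  calc _ = 𝟙 _ ⊗≫ A ◁ η_ (dual X) (dual (dual X)) ⊗≫
        ((A ⊗ dual X) ◁ ((Ctx.P (C := C)).δ X).inv ≫ g ▷ X) ⊗≫
        (B ⊗ dual X) ◁ ((Ctx.P (C := C)).δ X).hom ⊗≫ B ◁ ev (dual X) ⊗≫ 𝟙 _ := by monoidal
    _ = 𝟙 _ ⊗≫ A ◁ η_ (dual X) (dual (dual X)) ⊗≫ g ▷ dual (dual X) ⊗≫
        (B ⊗ dual X) ◁ (((Ctx.P (C := C)).δ X).inv ≫ ((Ctx.P (C := C)).δ X).hom) ⊗≫
        B ◁ ev (dual X) ⊗≫ 𝟙 _ := by rw [whisker_exchange]; monoidal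
    _ = _ := by rw [Iso.inv_hom_id]; monoidal

lemma ee_inj {A B X : C} (g : A ⟶ B ⊗ dual X)
    (h : g ▷ X ≫ (α_ _ _ _).hom ≫ B ◁ ee X ≫ (ρ_ B).hom = 0) : g = 0 := by
  have h1 : g ▷ dual (dual X) ≫ (α_ _ _ _).hom ≫ B ◁ ev (dual X) ≫ (ρ_ B).hom = 0 := by
    rw [← cancel_epi (A ◁ ((Ctx.P (C := C)).δ X).hom), comp_zero, ← h, whisker_exchange_assoc, ee]
    monoidal
  calc g = g ⊗≫ B ◁ (dual X ◁ co (dual X) ⊗≫ ev (dual X) ▷ dual X) ⊗≫ 𝟙 _ := by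
        rw [zig]; monoidal
    _ = 𝟙 _ ⊗≫ (g ▷ 𝟙_ C ≫ (B ⊗ dual X) ◁ co (dual X)) ⊗≫ B ◁ ev (dual X) ▷ dual X ⊗≫ 𝟙 _ := by
        monoidal
    _ = (ρ_ A).inv ≫ A ◁ co (dual X) ≫ (α_ _ _ _).inv ≫
        (g ▷ dual (dual X) ≫ (α_ _ _ _).hom ≫ B ◁ ev (dual X) ≫ (ρ_ B).hom) ▷ dual X := by
        rw [← whisker_exchange]; monoidal
    _ = 0 := by rw [h1]; simp

/-- The mate of the projection to a summand. -/
noncomputable def d1 (V : C) (k : Ix C) : T V ⊗ S k ⟶ S k ⊗ V :=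
  Tπ V k ▷ S k ≫ (α_ _ _ _).hom ≫ (S k ⊗ V) ◁ ee (S k) ≫ (ρ_ _).hom

lemma dd_d1 (V : C) (k : Ix C) : dd V (S k) ≫ d1 V k = dm (S k) • 𝟙 _ := by
  rw [dd_S, d0, d1]
  calc _ = 𝟙 _ ⊗≫ (S k ⊗ V) ◁ co (S k) ⊗≫ (Tι V k ≫ Tπ V k) ▷ S k ⊗≫
        (S k ⊗ V) ◁ ee (S k) ⊗≫ 𝟙 _ := by monoidal
    _ = (ρ_ _).inv ≫ (S k ⊗ V) ◁ (co (S k) ≫ ee (S k)) ≫ (ρ_ _).hom := by rw [Tι_π]; monoidal
    _ = _ := by rw [co_ee]; simp

/-- The projection of the free object to the generating object. -/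
noncomputable def piT (V : C) : T V ⟶ V :=
  (ρ_ _).inv ≫ T V ◁ (un (C := C)).inv ≫ d1 V o ≫ (un (C := C)).hom ▷ V ≫ (λ_ V).hom

lemma eta_piT (V : C) : eta V ≫ piT V = 𝟙 V := by
  rw [eta, piT]
  simp only [Category.assoc, Iso.hom_inv_id_assoc]
  rw [← reassoc_of% (dd_nat V (un (C := C)).inv), reassoc_of% (dd_d1 V o), dm_o]
  simp [← comp_whiskerRight_assoc]

lemma dd_piT (V : C) {j : Ix C} (h : j ≠ o) : dd V (S j) ≫ piT V ▷ S j = 0 := by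
  have h1 : Tι V j ≫ piT V = 0 := by
    rw [piT, d1]
    calc _ = (ρ_ _).inv ≫ _ ◁ (un (C := C)).inv ≫ (Tι V j ≫ Tπ V o) ▷ S o ≫ (α_ _ _ _).hom ≫
        (S o ⊗ V) ◁ ee (S o) ≫ (ρ_ _).hom ≫ (un (C := C)).hom ▷ V ≫ (λ_ V).hom := by
          rw [rightUnitor_inv_naturality_assoc, ← whisker_exchange_assoc, comp_whiskerRight,
            Category.assoc]
          simp only [Category.assoc]
      _ = 0 := by rw [Tι_π_ne V h]; simp
  rw [dd_S, d0]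
  simp only [Category.assoc]
  rw [← comp_whiskerRight, h1]
  simp

lemma T_ext_unit {L W V : C} {r r' : L ⊗ T V ⟶ W} (h0 : L ◁ eta V ≫ r = L ◁ eta V ≫ r')
    (h : ∀ k, k ≠ o → L ◁ dd V (S k) ≫ (α_ L (T V) (S k)).inv ≫ r ▷ S k
      = L ◁ dd V (S k) ≫ (α_ L (T V) (S k)).inv ≫ r' ▷ S k) : r = r' := by
  have key : ∀ r : L ⊗ T V ⟶ W, L ◁ dd V (S o) ≫ (α_ L (T V) (S o)).inv ≫ r ▷ S o
      = L ◁ ((un (C := C)).hom ▷ V ≫ (λ_ V).hom) ≫ (L ◁ eta V ≫ r) ≫ (ρ_ W).inv ≫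
        W ◁ (un (C := C)).inv := by
    intro r
    symm
    calc _ = L ◁ ((un (C := C)).hom ▷ V ≫ dd V (𝟙_ C)) ⊗≫
          (r ▷ 𝟙_ C ≫ W ◁ (un (C := C)).inv) := by rw [eta]; monoidal
      _ = L ◁ dd V (S o) ⊗≫ (L ⊗ T V) ◁ ((un (C := C)).hom ≫ (un (C := C)).inv) ⊗≫ r ▷ S o := by
          rw [dd_nat, ← whisker_exchange]; monoidal
      _ = _ := by rw [Iso.hom_inv_id]; monoidal
  apply T_ext
  intro k
  by_cases hk : k = o
  · subst hk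
    rw [key r, key r', h0]
  · exact h k hk

lemma unit_S_zero {j : Ix C} (h : j ≠ o) (f : 𝟙_ C ⟶ S j) : f = 0 := by
  rw [← cancel_epi (un (C := C)).hom, schur' _ _ h.symm ((un (C := C)).hom ≫ f), comp_zero]

lemma dd_d1_zero (V : C) (k : Ix C) {j : Ix C} (h : j ≠ o) :
    dd V (S k ⊗ S j) ≫ (α_ _ _ _).inv ≫ d1 V k ▷ S j = 0 := by
  have key : ∀ (l : Ix C) (q : S l ⟶ S k ⊗ S j),
      dd V (S l) ≫ T V ◁ q ≫ (α_ _ _ _).inv ≫ d1 V k ▷ S j = 0 := by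
    intro l q
    have e : dd V (S l) ≫ T V ◁ q ≫ (α_ _ _ _).inv ≫ d1 V k ▷ S j
        = (ρ_ _).inv ≫ (S l ⊗ V) ◁ co (S l) ≫ (α_ _ _ _).inv ≫ _ ◁ q ≫
          (Tι V l ≫ Tπ V k) ▷ (S k ⊗ S j) ≫ (α_ _ _ _).inv ≫
          ((α_ _ _ _).hom ≫ (S k ⊗ V) ◁ ee (S k) ≫ (ρ_ _).hom) ▷ S j := by
      rw [dd_S, d0, d1]
      calc _ = 𝟙 _ ⊗≫ (S l ⊗ V) ◁ co (S l) ⊗≫ (Tι V l ▷ S l ≫ T V ◁ q) ⊗≫
            Tπ V k ▷ (S k ⊗ S j) ⊗≫ (S k ⊗ V) ◁ ee (S k) ▷ S j ⊗≫ 𝟙 _ := by monoidal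
        _ = _ := by rw [← whisker_exchange]; monoidal
    rw [e]
    by_cases hl : l = k
    · subst hl
      rw [Tι_π]
      calc _ = (ρ_ _).inv ≫ (S l ⊗ V) ◁ (co (S l) ≫ dual (S l) ◁ q ≫ (α_ _ _ _).inv ≫
            ee (S l) ▷ S j ≫ (λ_ _).hom) := by monoidal
        _ = 0 := by rw [unit_S_zero h (co (S l) ≫ _)]; simp
    · rw [Tι_π_ne V hl]; simp
  obtain ⟨m, l, p, q, hK⟩ := res (S k ⊗ S j)
  rw [← Category.id_comp (dd V _), ← id_whiskerRight, ← hK, sum_whiskerRight,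
    Preadditive.sum_comp, Preadditive.sum_comp]
  refine Finset.sum_eq_zero fun s _ => ?_
  rw [Category.assoc, comp_whiskerRight, Category.assoc, reassoc_of% (dd_nat V (q s)), key,
    comp_zero]

lemma star (V : C) (k : Ix C) : (free V).γ (S k) ≫ d1 V k = dm (S k) • S k ◁ piT V := by
  apply T_ext_unit
  · rw [← Category.assoc, ← dd_eq, dd_d1, Linear.comp_smul, ← whiskerLeft_comp, eta_piT,
      whiskerLeft_id]
  · intro j hj
    rw [comp_whiskerRight, reassoc_of% (free_spec V (S k) (S j)), dd_d1_zero V k hj, comp_zero]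
    symm
    calc _ = dm (S k) • S k ◁ (dd V (S j) ≫ piT V ▷ S j) ≫ (α_ _ _ _).inv := by simp
      _ = 0 := by rw [dd_piT V hj]; simp

lemma IsMor.Tr_eq {V : C} {a : T V ⟶ T V} (ha : IsMor (free V) (free V) a) :
    Tr _ a = DD C * Tr V (eta V ≫ a ≫ piT V) := by
  conv_lhs => rw [← Category.id_comp a, ← T_total, Preadditive.sum_comp, map_sum]
  rw [DD, Finset.sum_mul]
  refine Finset.sum_congr rfl fun k _ => ?_
  have e : pt (dual (S k)) ((Tι V k ≫ a) ≫ Tπ V k) = dd V (S k) ≫ a ▷ S k ≫ d1 V k := by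
    rw [pt_dual, dd_S, d0, d1]; monoidal
  rw [Category.assoc, Tr_comm, Tr_pt, e, reassoc_of% (ha.dd_comp (S k)), star, Linear.comp_smul,
    ← whiskerLeft_comp, map_smul, Tr_whiskerLeft, smul_eq_mul, Category.assoc]
  ring

lemma IsMor.eq_zero_of_piT {X V : C} {A : HB X} {b : X ⟶ T V} (hb : IsMor A (free V) b)
    (h : b ≫ piT V = 0) : b = 0 := by
  rw [← Category.comp_id b, ← T_total, Preadditive.comp_sum]
  refine Finset.sum_eq_zero fun k _ => ?_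
  have h1 : b ▷ S k ≫ d1 V k = 0 := by
    rw [← cancel_epi (A.γ (S k)), ← reassoc_of% (hb (S k)), star, Linear.comp_smul,
      ← whiskerLeft_comp, h]
    simp
  have h2 : b ≫ Tπ V k = 0 := by
    apply ee_inj
    rw [← h1, d1]
    simp
  rw [← Category.assoc, h2, zero_comp]

lemma IsMor.eq_zero_of_Tr {V : C} {a : T V ⟶ T V} (ha : IsMor (free V) (free V) a)
    (h : ∀ b : T V ⟶ T V, IsMor (free V) (free V) b → Tr _ (a ≫ b) = 0) : a = 0 := by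
  let Φ : (V ⟶ T V) →ₗ[ℂ] (T V ⟶ V) := Linear.rightComp ℂ _ (piT V) ∘ₗ lift (free V)
  have hinj : Function.Injective Φ := by
    rw [injective_iff_map_eq_zero]
    intro f hf
    have h1 : lift (free V) f = 0 := (isMor_lift _ f).eq_zero_of_piT hf
    rw [← eta_lift (free V) f, h1, comp_zero]
  have hsurj : Function.Surjective Φ :=
    (LinearMap.injective_iff_surjective_of_finrank_eq_finrank (finrank_symm _ _)).mp hinj
  refine ha.ext (IsMor.zero _ _) ?_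
  rw [comp_zero]
  apply Pool.Agent.Lib.MP_152d63_al.eq_zero_of_Tr
  intro g
  obtain ⟨f, rfl⟩ := hsurj g
  have h1 := h _ (isMor_lift (free V) f)
  rw [(ha.comp (isMor_lift _ f)).Tr_eq] at h1
  have h2 := (mul_eq_zero.mp h1).resolve_left DD_ne_zero
  simpa [Φ] using h2

lemma Tr_Tmap {V : C} (h : V ⟶ V) : Tr _ (Tmap V V h) = DD C * Tr V h := by
  rw [(isMor_Tmap h).Tr_eq, reassoc_of% (eta_Tmap h), eta_piT, Category.comp_id]

lemma dm_T (V : C) : dm (T V) = DD C * dm V := by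
  rw [dm, ← Tmap_id, Tr_Tmap, dm]

lemma θ_free_unit : (free (𝟙_ C)).θ = 𝟙 _ := by
  refine (HB.isMor_θ _).ext (IsMor.id _) ?_
  rw [HB.comp_θ, ← dd_eq, pt_unit, eta, Category.comp_id, unitors_inv_equal]

lemma θ_free_o : (free (S (C := C) o)).θ = 𝟙 _ := by
  have h := (isMor_Tmap (un (C := C)).hom).θ_nat
  rw [θ_free_unit, Category.comp_id] at h
  have h2 : Tmap _ _ (un (C := C)).hom ≫ Tmap _ _ (un (C := C)).inv = 𝟙 _ := by
    rw [← Tmap_comp, Iso.hom_inv_id, Tmap_id]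
  rw [← Category.comp_id (free (S (C := C) o)).θ, ← h2, ← Category.assoc, ← h]

lemma Tr_θ_free (j : Ix C) : Tr _ (free (S j)).θ = if j = o then DD C else 0 := by
  split_ifs with h
  · subst h
    rw [θ_free_o, ← dm, dm_T, dm_o, mul_one]
  · rw [(HB.isMor_θ _).Tr_eq, ← Category.assoc, HB.comp_θ, ← dd_eq, ← pt_post, dd_piT _ h]
    simp

end Pool.Agent.Lib.MP_152d63_al
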