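import Pool.Agent.Lib.MP_152d63_al.Ptr

/-! The working context (a spherical fusion category with chosen simples) and the trace. -/

namespace Pool.Agent.Lib.MP_152d63_al

open CategoryTheory MonoidalCategory Limits ExactPairing

universe v u

/-- Working data extracted from a spherical fusion category. -/
class Ctx (C : Type u) [Category.{v} C] [Abelian C] [Linear ℂ C] [MonoidalCategory C]
    [MonoidalPreadditive C] [MonoidalLinear ℂ C] [RigidCategory C] where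
  n : ℕ
  S : Fin n → C
  o : Fin n
  un : S o ≅ 𝟙_ C
  P : Pivotal C
  sph : P.IsSpherical
  fin : ∀ X Y : C, FiniteDimensional ℂ (X ⟶ Y)
  schur : ∀ i (f : S i ⟶ S i), ∃ c : ℂ, f = c • 𝟙 _
  schur' : ∀ i j, i ≠ j → ∀ f : S i ⟶ S j, f = 0
  ne : ∀ i, 𝟙 (S i) ≠ 0
  res : ∀ U : C, ∃ (m : ℕ) (l : Fin m → Fin n) (p : ∀ s, U ⟶ S (l s)) (q : ∀ s, S (l s) ⟶ U),
    ∑ s, p s ≫ q s = 𝟙 U

variable {C : Type u} [Category.{v} C] [Abelian C] [Linear ℂ C] [MonoidalCategory C]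
  [MonoidalPreadditive C] [MonoidalLinear ℂ C] [RigidCategory C] [Ctx C]

open Ctx

variable (C) in
/-- The index set of the simple objects. -/
abbrev Ix : Type := Fin (Ctx.n C)

instance finHom (X Y : C) : FiniteDimensional ℂ (X ⟶ Y) := Ctx.fin X Y

/-- The second evaluation. -/
noncomputable abbrev ev (X : C) : X ⊗ dual X ⟶ 𝟙_ C := (Ctx.P (C := C)).ev X

/-- The second coevaluation. -/
noncomputable abbrev co (X : C) : 𝟙_ C ⟶ dual X ⊗ X := (Ctx.P (C := C)).co X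

lemma zig (X : C) : X ◁ co X ⊗≫ ev X ▷ X = ⊗𝟙.hom := Pivotal.zig _ X

lemma zag (X : C) : co X ▷ dual X ⊗≫ dual X ◁ ev X = ⊗𝟙.hom := Pivotal.zag _ X

/-- The right partial trace. -/
noncomputable def pt {A B : C} (K : C) : (A ⊗ K ⟶ B ⊗ K) →ₗ[ℂ] (A ⟶ B) where
  toFun f := (Ctx.P (C := C)).ptr K f
  map_add' f g := by
    simp [Pivotal.ptr, MonoidalPreadditive.add_whiskerRight]
  map_smul' c f := by
    simp [Pivotal.ptr]

lemma pt_def {A B : C} (K : C) (f : A ⊗ K ⟶ B ⊗ K) :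
    pt K f = (ρ_ A).inv ≫ A ◁ η_ K (dual K) ≫ (α_ A K (dual K)).inv ≫ f ▷ dual K ≫
      (α_ B K (dual K)).hom ≫ B ◁ ev K ≫ (ρ_ B).hom := rfl

lemma pt_pre {A A' B : C} (K : C) (g : A' ⟶ A) (f : A ⊗ K ⟶ B ⊗ K) :
    pt K (g ▷ K ≫ f) = g ≫ pt K f := Pivotal.ptr_pre _ K g f

lemma pt_post {A B B' : C} (K : C) (f : A ⊗ K ⟶ B ⊗ K) (h : B ⟶ B') :
    pt K (f ≫ h ▷ K) = pt K f ≫ h := Pivotal.ptr_post _ K f h

lemma whiskerLeft_pt {A B : C} (Z K : C) (f : A ⊗ K ⟶ B ⊗ K) :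
    Z ◁ pt K f = pt K ((α_ Z A K).hom ≫ Z ◁ f ≫ (α_ Z B K).inv) :=
  Pivotal.whiskerLeft_ptr _ Z K f

lemma pt_slide {A B K L : C} (g : K ⟶ L) (f : A ⊗ L ⟶ B ⊗ K) :
    pt K (A ◁ g ≫ f) = pt L (f ≫ B ◁ g) := Pivotal.ptr_slide _ g f

lemma pt_tensor {A B : C} (K L : C) (f : A ⊗ (K ⊗ L) ⟶ B ⊗ (K ⊗ L)) :
    pt (K ⊗ L) f = pt K (pt L ((α_ A K L).hom ≫ f ≫ (α_ B K L).inv)) :=
  Pivotal.ptr_tensor _ K L f

lemma unit_scalar (f : 𝟙_ C ⟶ 𝟙_ C) : ∃ c : ℂ, f = c • 𝟙 _ := by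
  obtain ⟨c, hc⟩ := schur o ((un (C := C)).hom ≫ f ≫ (un (C := C)).inv)
  refine ⟨c, ?_⟩
  have : f = (un (C := C)).inv ≫ ((un (C := C)).hom ≫ f ≫ (un (C := C)).inv) ≫
    (un (C := C)).hom := by simp
  rw [this, hc]
  simp

lemma unit_ne : 𝟙 (𝟙_ C) ≠ 0 := by
  intro h
  apply ne (C := C) o
  have : 𝟙 (S (C := C) o) = (un (C := C)).hom ≫ 𝟙 (𝟙_ C) ≫ (un (C := C)).inv := by simp
  rw [this, h]
  simp

lemma unit_smul_inj {a b : ℂ} (h : a • 𝟙 (𝟙_ C) = b • 𝟙 (𝟙_ C)) : a = b :=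
  smul_left_injective ℂ unit_ne h

lemma S_smul_inj {i : Ix C} {a b : ℂ} (h : a • 𝟙 (S i) = b • 𝟙 (S i)) : a = b :=
  smul_left_injective ℂ (ne i) h

/-- The scalar of an endomorphism of the unit. -/
noncomputable def sc : (𝟙_ C ⟶ 𝟙_ C) →ₗ[ℂ] ℂ where
  toFun f := (unit_scalar f).choose
  map_add' f g := by
    apply unit_smul_inj (C := C)
    rw [add_smul, ← (unit_scalar f).choose_spec, ← (unit_scalar g).choose_spec,
      ← (unit_scalar (f + g)).choose_spec]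
  map_smul' c f := by
    apply unit_smul_inj (C := C)
    rw [RingHom.id_apply, smul_eq_mul, mul_smul, ← (unit_scalar f).choose_spec,
      ← (unit_scalar (c • f)).choose_spec]

lemma sc_spec (f : 𝟙_ C ⟶ 𝟙_ C) : sc f • 𝟙 (𝟙_ C) = f := (unit_scalar f).choose_spec.symm

/-- The trace of an endomorphism. -/
noncomputable def Tr (U : C) : (U ⟶ U) →ₗ[ℂ] ℂ where
  toFun f := sc (η_ U (dual U) ≫ f ▷ dual U ≫ ev U)
  map_add' f g := by
    simp [MonoidalPreadditive.add_whiskerRight]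
  map_smul' c f := by
    simp

lemma Tr_spec {U : C} (f : U ⟶ U) :
    Tr U f • 𝟙 (𝟙_ C) = η_ U (dual U) ≫ f ▷ dual U ≫ ev U := sc_spec _

/-- The dimension of an object. -/
noncomputable def dm (U : C) : ℂ := Tr U (𝟙 U)

lemma dm_spec (U : C) : dm U • 𝟙 (𝟙_ C) = η_ U (dual U) ≫ ev U := by
  rw [dm, Tr_spec]; simp

lemma dim_eq (U : C) : (Ctx.P (C := C)).dim U = dm U • 𝟙 (𝟙_ C) := by
  rw [dm_spec]; rfl

lemma dm_dual (U : C) : dm (dual U) = dm U := by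
  apply unit_smul_inj (C := C)
  rw [← dim_eq, ← dim_eq]
  exact (sph U).symm

lemma pt_whiskerLeft (A : C) {K : C} (f : K ⟶ K) : pt K (A ◁ f) = Tr K f • 𝟙 A := by
  have h := Pivotal.ptr_whiskerLeft (Ctx.P (C := C)) A f
  change pt K (A ◁ f) = (ρ_ A).inv ≫ A ◁ (η_ K (dual K) ≫ f ▷ dual K ≫ ev K) ≫ (ρ_ A).hom at h
  rw [h, ← Tr_spec]
  simp

lemma pt_whiskerRight {A B : C} (K : C) (g : A ⟶ B) : pt K (g ▷ K) = dm K • g := by
  have h : g ▷ K = g ▷ K ≫ B ◁ 𝟙 K := by simp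
  rw [h, pt_pre, pt_whiskerLeft, dm]
  simp

lemma Tr_comm {U V : C} (f : U ⟶ V) (g : V ⟶ U) : Tr U (f ≫ g) = Tr V (g ≫ f) := by
  apply unit_smul_inj (C := C)
  rw [← pt_whiskerLeft, ← pt_whiskerLeft, whiskerLeft_comp, pt_slide, whiskerLeft_comp]

lemma Tr_pt {A K : C} (f : A ⊗ K ⟶ A ⊗ K) : Tr (A ⊗ K) f = Tr A (pt K f) := by
  apply unit_smul_inj (C := C)
  rw [← pt_whiskerLeft, ← pt_whiskerLeft, pt_tensor, whiskerLeft_pt]

lemma Tr_whiskerRight {A : C} (K : C) (f : A ⟶ A) : Tr (A ⊗ K) (f ▷ K) = dm K * Tr A f := by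
  rw [Tr_pt, pt_whiskerRight, map_smul, smul_eq_mul]

lemma Tr_whiskerLeft (A : C) {K : C} (f : K ⟶ K) : Tr (A ⊗ K) (A ◁ f) = dm A * Tr K f := by
  rw [Tr_pt, pt_whiskerLeft, map_smul, smul_eq_mul, dm, mul_comm]

lemma dm_tensor (A K : C) : dm (A ⊗ K) = dm A * dm K := by
  rw [dm, ← whiskerLeft_id, Tr_whiskerLeft, dm, dm]

lemma Tr_conj {U V : C} (e : U ≅ V) (f : V ⟶ V) : Tr U (e.hom ≫ f ≫ e.inv) = Tr V f := by
  rw [Tr_comm]; simp

lemma Tr_conj' {U V : C} (e : U ≅ V) (f : U ⟶ U) : Tr V (e.inv ≫ f ≫ e.hom) = Tr U f := by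
  rw [Tr_comm]; simp

lemma dm_iso {U V : C} (e : U ≅ V) : dm U = dm V := by
  rw [dm, dm, ← Tr_conj e]; simp

/-- A nonzero morphism out of a simple object has a retraction. -/
lemma exists_retraction {k : Ix C} {U : C} (f : S k ⟶ U) (hf : f ≠ 0) :
    ∃ g : U ⟶ S k, f ≫ g = 𝟙 _ := by
  obtain ⟨m, l, p, q, h⟩ := res U
  have h1 : ∑ s, (f ≫ p s) ≫ q s ≠ 0 := by
    simp only [Category.assoc]
    rw [← Preadditive.comp_sum, h, Category.comp_id]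
    exact hf
  obtain ⟨s, -, hs⟩ := Finset.exists_ne_zero_of_sum_ne_zero h1
  have h2 : f ≫ p s ≠ 0 := fun h0 => hs (by rw [h0, zero_comp])
  have h3 : k = l s := by
    by_contra hne
    exact h2 (schur' _ _ hne _)
  subst h3
  obtain ⟨c, hc⟩ := schur _ (f ≫ p s)
  have hc0 : c ≠ 0 := fun h0 => h2 (by rw [hc, h0, zero_smul])
  exact ⟨c⁻¹ • p s, by rw [Linear.comp_smul, hc, smul_smul, inv_mul_cancel₀ hc0, one_smul]⟩

lemma coev_ne_zero (k : Ix C) : η_ (S k) (dual (S k)) ≠ 0 := by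
  intro h
  apply ne k
  have := ExactPairing.evaluation_coevaluation (S k) (dual (S k))
  rw [h] at this
  have h2 : 𝟙 (S k) = (λ_ (S k)).inv ≫ ((λ_ (S k)).hom ≫ (ρ_ (S k)).inv) ≫ (ρ_ (S k)).hom := by
    simp
  rw [h2, ← this]
  simp

lemma dm_S_ne_zero (k : Ix C) : dm (S k) ≠ 0 := by
  have h1 : (un (C := C)).hom ≫ η_ (S k) (dual (S k)) ≠ 0 := by
    intro h
    apply coev_ne_zero k
    rw [← cancel_epi (un (C := C)).hom, h, comp_zero]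
  obtain ⟨g, hg⟩ := exists_retraction _ h1
  have hg' : η_ (S k) (dual (S k)) ≫ g ≫ (un (C := C)).hom = 𝟙 _ := by
    rw [← cancel_epi (un (C := C)).hom, ← Category.assoc, ← Category.assoc, hg]
    simp
  generalize g ≫ (un (C := C)).hom = g' at hg'
  obtain ⟨c, hc⟩ := schur k ((ρ_ (S k)).inv ≫ S k ◁ co (S k) ≫ (α_ _ _ _).inv ≫ g' ▷ S k ≫
    (λ_ (S k)).hom)
  have h2 : ((ρ_ (S k)).inv ≫ S k ◁ co (S k) ≫ (α_ _ _ _).inv ≫ g' ▷ S k ≫
      (λ_ (S k)).hom) ▷ dual (S k) ≫ ev (S k) = g' := by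
    calc _ = 𝟙 _ ⊗≫ S k ◁ co (S k) ▷ dual (S k) ⊗≫ (g' ▷ (S k ⊗ dual (S k)) ≫
          𝟙_ C ◁ ev (S k)) ⊗≫ 𝟙 _ := by monoidal
      _ = 𝟙 _ ⊗≫ S k ◁ (co (S k) ▷ dual (S k) ⊗≫ dual (S k) ◁ ev (S k)) ⊗≫ g' := by
          rw [← whisker_exchange]; monoidal
      _ = _ := by rw [zag]; monoidal
  rw [hc] at h2
  intro h0
  apply unit_ne (C := C)
  rw [← hg', ← h2]
  simp only [MonoidalLinear.smul_whiskerRight, id_whiskerRight, Linear.smul_comp,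
    Category.id_comp, Linear.comp_smul]
  rw [← dm_spec, h0]
  simp

lemma dm_unit : dm (𝟙_ C) = 1 := by
  have h1 : dm (𝟙_ C) ≠ 0 := by
    rw [← dm_iso (un (C := C))]
    exact dm_S_ne_zero _
  have h2 := dm_tensor (𝟙_ C) (𝟙_ C)
  rw [dm_iso (λ_ (𝟙_ C))] at h2
  exact (mul_eq_left₀ h1).mp h2.symm

lemma dm_o : dm (S (C := C) o) = 1 := by rw [dm_iso (un (C := C)), dm_unit]

lemma pt_unit {A B : C} (f : A ⊗ 𝟙_ C ⟶ B ⊗ 𝟙_ C) :
    pt (𝟙_ C) f = (ρ_ A).inv ≫ f ≫ (ρ_ B).hom := by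
  have h : f = ((ρ_ A).inv ≫ f ≫ (ρ_ B).hom) ▷ 𝟙_ C := by simp
  conv_lhs => rw [h]
  rw [pt_whiskerRight, dm_unit, one_smul]

/-- The trace pairing is nondegenerate. -/
lemma eq_zero_of_Tr {A B : C} (f : A ⟶ B) (h : ∀ g : B ⟶ A, Tr A (f ≫ g) = 0) : f = 0 := by
  obtain ⟨m, l, p, q, hA⟩ := res A
  have h1 : ∀ s, q s ≫ f = 0 := by
    intro s
    by_contra hne
    obtain ⟨g, hg⟩ := exists_retraction _ hne
    have := h (g ≫ q s)
    rw [← Category.assoc, Tr_comm, ← Category.assoc, hg] at this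
    exact dm_S_ne_zero _ this
  rw [← Category.id_comp f, ← hA, Preadditive.sum_comp]
  simp [h1]

lemma ext_Tr {A B : C} {f f' : A ⟶ B} (h : ∀ g : B ⟶ A, Tr A (f ≫ g) = Tr A (f' ≫ g)) :
    f = f' := by
  rw [← sub_eq_zero]
  apply eq_zero_of_Tr
  intro g
  rw [Preadditive.sub_comp, map_sub, h, sub_self]

lemma finrank_le_symm (A B : C) : Module.finrank ℂ (A ⟶ B) ≤ Module.finrank ℂ (B ⟶ A) := by
  let φ : (A ⟶ B) →ₗ[ℂ] Module.Dual ℂ (B ⟶ A) :=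
    LinearMap.mk₂ ℂ (fun f g => Tr A (f ≫ g)) (by intros; simp) (by intros; simp)
      (by intros; simp) (by intros; simp)
  have hφ : Function.Injective φ := by
    intro f f' h
    apply ext_Tr
    intro g
    exact LinearMap.congr_fun h g
  have := LinearMap.finrank_le_finrank_of_injective hφ
  rwa [Subspace.dual_finrank_eq] at this

lemma finrank_symm (A B : C) : Module.finrank ℂ (A ⟶ B) = Module.finrank ℂ (B ⟶ A) :=
  le_antisymm (finrank_le_symm A B) (finrank_le_symm B A)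

end Pool.Agent.Lib.MP_152d63_al
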